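import Pool.Agent.Helper65K9.PSC.Dom

/-!
The Pisot conjecture for compositions of companion substitutions with a dominating entry.
-/

set_option autoImplicit false

namespace Pool.Agent.Helper65K9.PSC
open Pool.Agent.H812R2.PI Pool.Agent.Y316.Pisot
open scoped BigOperators

variable {m : ℕ}

/-- the bound for long lists -/
theorem long_bound {l l₁ : List (Fin (m+1) → List (Fin (m+1)))}
    {t₁ : Fin (m+1) → List (Fin (m+1))} (h₁ : l = l₁ ++ [t₁]) (P : PD (inc (compList l)))
    {r : Fin (m+1) → ℤ}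
    (hr : P.lam * |hh P.ell r| ≤ (((inc t₁ 0 0 : ℤ) : ℝ) - 1) * pull P.ell (compList l₁) 0)
    {n : ℕ} (hn : 1 ≤ n) : ∀ l' t, (List.replicate n l).flatten = l' ++ [t] →
      |hh (pull P.ell (compList (List.replicate n l).flatten)) r| ≤
        (((inc t 0 0 : ℤ) : ℝ) - 1) * pull P.ell (compList l') 0 := by
  intro l' t hlt
  obtain ⟨N, rfl⟩ : ∃ N, n = N + 1 := ⟨n - 1, by omega⟩
  have hlam : 0 < P.lam := lt_trans one_pos P.lam_gt
  have hsplit1 : (List.replicate (N+1) l).flatten =
      ((List.replicate N l).flatten ++ l₁) ++ [t₁] := by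
    rw [flatten_succ', List.append_assoc, ← h₁]
  rw [hsplit1] at hlt
  obtain ⟨h5, h6⟩ := List.append_inj' hlt rfl
  rw [List.cons.injEq] at h6
  have hpull1 : ∀ i, pull P.ell (compList ((List.replicate N l).flatten ++ l₁)) i =
      P.lam ^ N * pull P.ell (compList l₁) i := by
    intro i
    rw [compList_append, pull_comp, compList_flatten]
    have : pull P.ell (iter (compList l) N) = fun j => P.lam ^ N * P.ell j := by
      funext j; exact pull_iter P N j
    rw [this, pull_smul_fun]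
  have hpull2 : pull P.ell (compList (List.replicate (N+1) l).flatten) =
      fun j => P.lam ^ (N+1) * P.ell j := by
    rw [compList_flatten]
    funext j; exact pull_iter P (N+1) j
  have hlamN : 0 < P.lam ^ N := pow_pos hlam N
  rw [hpull2, ← h5, ← h6.1, hpull1, hh_smul_fun, abs_mul, abs_of_pos (pow_pos hlam (N+1))]
  have := mul_le_mul_of_nonneg_left hr hlamN.le
  rw [pow_succ]
  linarith

theorem exists_nat_bound (r : Fin (m+1) → ℤ) : ∃ U : ℕ, ∀ j, |r j| ≤ U := by
  refine ⟨∑ j, (r j).natAbs, fun j => ?_⟩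
  have h1 : (r j).natAbs ≤ ∑ j, (r j).natAbs :=
    Finset.single_le_sum (f := fun j => (r j).natAbs) (fun _ _ => Nat.zero_le _)
      (Finset.mem_univ j)
  rw [Int.abs_eq_natAbs]
  exact_mod_cast h1

theorem flatten_length {α : Type*} (l : List α) (n : ℕ) :
    (List.replicate n l).flatten.length = n * l.length := by
  simp

theorem compList_nil_pull (φ : Fin (m+1) → ℝ) : pull φ (compList []) = φ := by
  funext j
  simp [pull, compList, ab_single, hh_ev]

/-- compositions of dominated companion substitutions with Pisot matrix -/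
theorem dom_semi (hm : 1 ≤ m) {l : List (Fin (m+1) → List (Fin (m+1)))} (hne : l ≠ [])
    (hD : DmL l) (hM : PisotMat (inc (compList l))) : SemiConjToral (compList l) := by
  have hnn : ∀ i j, 0 ≤ inc (compList l) i j := fun i j => by unfold inc; positivity
  obtain ⟨lam, u, hlam, hu, husum⟩ := exists_u (inc (compList l)) hnn hM
  obtain ⟨P, -, -⟩ := exists_PD (inc (compList l)) hnn hM lam hlam u hu husum
  have hdet : IsUnit (inc (compList l)).det := by
    rcases hM.2.1 with h | h
    · rw [h]; exact isUnit_one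
    · rw [h]; exact isUnit_one.neg
  obtain ⟨t₀, l₀, h₀⟩ := List.exists_cons_of_ne_nil hne
  obtain ⟨l₁, t₁, h₁⟩ : ∃ l₁ t₁, l = l₁ ++ [t₁] :=
    ⟨l.dropLast, l.getLast hne, (List.dropLast_append_getLast hne).symm⟩
  have hsg := hD.ell hm hne P
  have hsgle : sg P.ell ≤ 1 * P.ell 0 := by rw [one_mul]; exact hsg.le
  obtain ⟨a₀, ha₀⟩ := hD t₀ (by rw [h₀]; simp)
  obtain ⟨a₁, ha₁⟩ := hD t₁ (by rw [h₁]; simp)
  obtain ⟨p₀, q₀, hpq₀, hLv₀⟩ := ha₀.cmp.lv hm
  obtain ⟨p₁, q₁, hpq₁, hLv₁⟩ := ha₁.cmp.lv hm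
  have h50 := ha₀.five
  have h51 := ha₁.five
  have hD₁ : DmL l₁ := fun t ht => hD t (by rw [h₁]; simp [ht])
  have hs₀ := ha₀.step P.ell_pos le_rfl hsgle
  rw [one_mul] at hs₀
  have hpos₀ : ∀ i, 0 < pull P.ell t₀ i := pull_pos' hLv₀.ne P.ell_pos
  have hnr : ∀ l' : List (Fin (m+1) → List (Fin (m+1))), DmL l' → ∀ c, NR (compList l' c) := by
    intro l' hl' c
    refine nr_compList (fun t ht => ?_) c
    obtain ⟨a, ha⟩ := hl' t ht
    exact ⟨a, ha.cmp, by have := ha.five; omega⟩
  refine abstract h₀ h₁ (hD.lv hm) hLv₀ ?_ hLv₁ ?_ P hdet (le_of_sg P.ell_pos hsg.le)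
    (le_of_sg hpos₀ hs₀.le) ?_ ?_ ?_ ?_
  · rcases le_total p₀ q₀ with h | h
    · rw [max_eq_right h]; omega
    · rw [max_eq_left h]; omega
  · rcases le_total p₁ q₁ with h | h
    · rw [max_eq_right h]; omega
    · rw [max_eq_left h]; omega
  · refine le_of_sg ((hD₁.lv hm).pos P.ell_pos) ?_
    have := (hD₁.le hm P.ell_pos le_rfl hsgle).1
    rwa [one_mul] at this
  · refine ⟨sg P.ell, by linarith [P.ell_pos 0], fun n b => ?_⟩
    refine (hnr _ ?_ b).zf P.ell_pos
    intro t ht
    exact hD t (mem_flatten_replicate ht)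
  · refine ⟨sg (pull P.ell t₀), by linarith [hpos₀ 0], fun n a => ?_⟩
    refine (hnr _ ?_ a).zf hpos₀
    intro t ht
    rw [List.mem_append] at ht
    rcases ht with h | h
    · exact hD t (by rw [h₀]; simp [h])
    · exact hD t (mem_flatten_replicate h)
  · intro r hr
    obtain ⟨U, hU⟩ := exists_nat_bound r
    refine ⟨(m + 1) * U + 1, fun n hn => ?_⟩
    refine exA hm P.ell_pos hsg _ (fun t ht => hD t (mem_flatten_replicate ht)) r ?_
      (long_bound h₁ P hr (by omega))
    refine ⟨U, 0, by omega, ?_, hU, fun j hj => absurd hj (Nat.not_lt_zero _)⟩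
    rw [flatten_length, add_zero]
    have h7 : 1 ≤ l.length := List.length_pos_iff.2 hne
    calc (m + 1) * U ≤ n := by omega
      _ = n * 1 := (mul_one n).symm
      _ ≤ n * l.length := Nat.mul_le_mul_left _ h7

end Pool.Agent.Helper65K9.PSC
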