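import Pool.Agent.Helper65K9.PSC.DecPis
import Pool.Agent.Helper65K9.PSC.DomMain
import Pool.Agent.TH100.Pisot.Pow

/-!
The Pisot conjecture for compositions of substitutions with the same companion matrix of a vector
with nonincreasing entries.
-/

set_option autoImplicit false

namespace Pool.Agent.Helper65K9.PSC
open Pool.Agent.H812R2.PI Pool.Agent.Y316.Pisot
open scoped BigOperators

variable {m : ℕ}

/-- spectral data of a power -/
theorem PD_pow {d : ℕ} {M : Matrix (Fin d) (Fin d) ℤ} (Q : PD M) {k : ℕ} (hk : k ≠ 0) :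
    ∃ P : PD (M ^ k), P.ell = Q.ell ∧ P.lam = Q.lam ^ k := by
  refine ⟨{ lam := Q.lam ^ k, ell := Q.ell, u := Q.u, N := Q.N, rho := Q.rho ^ k, c := Q.c,
            lam_gt := one_lt_pow₀ Q.lam_gt hk, ell_pos := Q.ell_pos, u_pos := Q.u_pos,
            u_sum := Q.u_sum, ell_M := fun j => ?_, M_u := ?_, u_ind := Q.u_ind,
            ell_ind := Q.ell_ind, c_pos := Q.c_pos, rho_nonneg := pow_nonneg Q.rho_nonneg _,
            rho_lt := pow_lt_one₀ Q.rho_nonneg Q.rho_lt hk, N_add := Q.N_add, N_neg := Q.N_neg,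
            N_nonneg := Q.N_nonneg, N_act := N_pow_act Q k, le_cN := Q.le_cN,
            N_le := Q.N_le }, rfl, rfl⟩
  · have h1 := ht_pow_mulVec Q k (ev j)
    simp only [PD.ht, GGeom_col] at h1
    rw [h1]
    congr 1
    simp [ev]
  · have h1 : ∀ n : ℕ, ∀ i, ∑ j, (((M ^ n) i j : ℤ) : ℝ) * Q.u j = Q.lam ^ n * Q.u i := by
      intro n
      induction n with
      | zero => intro i; simp [Matrix.one_apply]
      | succ n ih =>
        intro i
        simp only [pow_succ', Matrix.mul_apply, Int.cast_sum, Int.cast_mul, Finset.sum_mul]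
        rw [Finset.sum_comm]
        have h2 : ∀ j ∈ (Finset.univ : Finset (Fin d)),
            ∑ x, ((M i j : ℤ) : ℝ) * (((M ^ n) j x : ℤ) : ℝ) * Q.u x =
            Q.lam ^ n * (((M i j : ℤ) : ℝ) * Q.u j) := by
          intro j _
          have h3 := ih j
          calc ∑ x, ((M i j : ℤ) : ℝ) * (((M ^ n) j x : ℤ) : ℝ) * Q.u x
              = ((M i j : ℤ) : ℝ) * ∑ x, (((M ^ n) j x : ℤ) : ℝ) * Q.u x := by
                rw [Finset.mul_sum]; exact Finset.sum_congr rfl fun x _ => by ring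
            _ = _ := by rw [h3]; ring
        rw [Finset.sum_congr rfl h2, ← Finset.mul_sum, Q.M_u]
        ring
    exact h1 k

/-- all members have the companion matrix of `a` -/
def CL (a : Fin (m+1) → ℕ) (l : List (Fin (m+1) → List (Fin (m+1)))) : Prop :=
  ∀ t ∈ l, IsCompanion a t

theorem CL.lv {a : Fin (m+1) → ℕ} (h : DC a) {l : List (Fin (m+1) → List (Fin (m+1)))}
    (hl : CL a l) : LvL l := by
  intro t ht
  obtain ⟨p, q, hpq, h1⟩ := ((hl t ht).cmp h.last).lv h.hm
  exact ⟨p, q, h1, by have := h.five; omega⟩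

/-- the pulled back functional -/
theorem pull_eq {a : Fin (m+1) → ℕ} (Q : PD (cMat a)) {t : Fin (m+1) → List (Fin (m+1))}
    (ht : IsCompanion a t) (c : ℝ) : pull (fun j => c * Q.ell j) t =
      fun j => (Q.lam * c) * Q.ell j := by
  funext j
  change hh (fun j => c * Q.ell j) (ab (t j)) = _
  rw [hh_smul_fun, ab_subst, ht.inc]
  have h1 : Q.ht ((cMat a).mulVec (ev j)) = Q.lam * Q.ht (ev j) := by
    have := ht_pow_mulVec Q 1 (ev j)
    simpa using this
  rw [ht_eq, ht_eq, hh_ev] at h1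
  rw [h1]
  ring

theorem pull_list {a : Fin (m+1) → ℕ} (Q : PD (cMat a))
    (L : List (Fin (m+1) → List (Fin (m+1)))) : CL a L →
    ∀ c : ℝ, pull (fun j => c * Q.ell j) (compList L) =
      fun j => (Q.lam ^ L.length * c) * Q.ell j := by
  induction L with
  | nil =>
    intro _ c
    rw [compList_nil_pull]
    simp
  | cons t L ih =>
    intro hL c
    simp only [compList]
    rw [pull_comp, pull_eq Q (hL t (List.mem_cons_self ..)),
      ih (fun t' h' => hL t' (List.mem_cons_of_mem _ h'))]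
    funext j
    rw [List.length_cons, pow_succ]
    ring

theorem pull_list' {a : Fin (m+1) → ℕ} (Q : PD (cMat a))
    {L : List (Fin (m+1) → List (Fin (m+1)))} (hL : CL a L) :
    pull Q.ell (compList L) = fun j => Q.lam ^ L.length * Q.ell j := by
  have h := pull_list Q L hL 1
  simpa using h

/-- good expansions for lists of substitutions -/
theorem ex_of_gx {a : Fin (m+1) → ℕ} (Q : PD (cMat a)) (C : Ctx m) (hCM : C.M = cMat a)
    (hCA : C.A = An a) (hβ : C.β = Q.lam) (hQ : ∀ i, Q.ell i = Q.ell 0 * C.e i) (n : ℕ) :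
    ∀ (r : Fin (m+1) → ℤ), C.Gx n r → ∀ L : List (Fin (m+1) → List (Fin (m+1))),
      n ≤ L.length → CL a L → Ex Q.ell L r := by
  induction n with
  | zero =>
    intro r hr L _ _
    have h1 : r = 0 := hr
    rw [h1]
    exact Ex.zero L
  | succ n ih =>
    intro r ⟨hb, k, hk⟩ L hL hCL
    have hne : L ≠ [] := by
      rintro rfl
      simp at hL
    obtain ⟨L', t, rfl⟩ : ∃ L' t, L = L' ++ [t] :=
      ⟨L.dropLast, L.getLast hne, (List.dropLast_append_getLast hne).symm⟩
    rw [List.length_append, List.length_singleton] at hL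
    have ht : IsCompanion a t := hCL t (by simp)
    have hCL' : CL a L' := fun t' h' => hCL t' (by simp [h'])
    refine Ex.step L' t r k ?_ ?_
    · rw [pull_list' Q hCL, pull_list' Q hCL', hh_smul_fun, List.length_append,
        List.length_singleton, ht.inc, abs_mul, pow_succ]
      have hlam : 0 < Q.lam := lt_trans one_pos Q.lam_gt
      have hlamn : 0 < Q.lam ^ L'.length := pow_pos hlam _
      rw [abs_of_pos (mul_pos hlamn hlam)]
      have h0 : cMat a 0 0 = (a 0 : ℤ) := by
        have h2 : ¬ ((0 : Fin (m+1)) ≠ Fin.last m ∧ (0 : Fin (m+1)) = 0 + 1) := by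
          rintro ⟨h3, h4⟩
          exact succ_ne_zero h3 h4.symm
        simp only [cMat, if_true, if_neg h2, add_zero]
      have h1 : hh Q.ell r = Q.ell 0 * hh C.e r := by
        rw [← hh_smul_fun]
        congr 1
        funext i
        exact hQ i
      have h3 : (C.A 0 : ℝ) = a 0 := by
        have := An_fin a 0
        simp only [Fin.val_zero] at this
        rw [hCA, this]
      rw [h0, h1, abs_mul, abs_of_pos (Q.ell_pos 0)]
      rw [hβ, h3] at hb
      have h4 := mul_le_mul_of_nonneg_left hb (mul_pos hlamn (Q.ell_pos 0)).le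
      push_cast
      linarith
    · refine ih _ ?_ L' (by omega) hCL'
      rw [ht.inc, ← hCM]
      exact hk

/-- factors without the letter `0` -/
theorem zf_two {t : Fin (m+1) → List (Fin (m+1))} {a : Fin (m+1) → ℕ} (h : Cmp t a)
    (ha : ∀ j, 1 ≤ a j) {φ : Fin (m+1) → ℝ} {B : ℝ} (hB0 : 0 ≤ B) (hB : ∀ i, i ≠ 0 → φ i ≤ B)
    (W : List (Fin (m+1))) : ZF φ (2 * B) (ext t W) := by
  intro f hf hf0
  match f, hf, hf0 with
  | [], _, _ => rw [ab_nil, hh_zero]; linarith
  | [x], _, hf0 =>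
    have := hB x (hf0 x (by simp))
    rw [ab_single, hh_ev]
    linarith
  | [x, y], _, hf0 =>
    have h1 := hB x (hf0 x (by simp))
    have h2 := hB y (hf0 y (by simp))
    rw [ab_cons, ab_single, hh_add, hh_ev, hh_ev]
    linarith
  | x :: y :: z :: w, hf, hf0 =>
    exfalso
    refine h.two ha (hf0 x (by simp)) (hf0 y (by simp)) (hf0 z (by simp)) (W := W) ?_
    exact (show [x, y, z] <:+: x :: y :: z :: w from ⟨[], w, by simp⟩).trans hf

theorem zf_list {a : Fin (m+1) → ℕ} (h : DC a) {L : List (Fin (m+1) → List (Fin (m+1)))}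
    (hL : CL a L) (hne : L ≠ []) {φ : Fin (m+1) → ℝ} {B : ℝ} (hB0 : 0 ≤ B)
    (hB : ∀ i, i ≠ 0 → φ i ≤ B) (b : Fin (m+1)) : ZF φ (2 * B) (compList L b) := by
  obtain ⟨t, L', rfl⟩ := List.exists_cons_of_ne_nil hne
  exact zf_two ((hL t (List.mem_cons_self ..)).cmp h.last) h.pos hB0 hB _

theorem dec_semi {a : Fin (m+1) → ℕ} (h : DC a) {l : List (Fin (m+1) → List (Fin (m+1)))}
    (hne : l ≠ []) (hl : CL a l) :
    PisotMat (inc (compList l)) ∧ SemiConjToral (compList l) := by
  obtain ⟨t₀, l₀, h₀⟩ := List.exists_cons_of_ne_nil hne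
  obtain ⟨l₁, t₁, h₁⟩ : ∃ l₁ t₁, l = l₁ ++ [t₁] :=
    ⟨l.dropLast, l.getLast hne, (List.dropLast_append_getLast hne).symm⟩
  have ht₀ : IsCompanion a t₀ := hl t₀ (by rw [h₀]; simp)
  have ht₁ : IsCompanion a t₁ := hl t₁ (by rw [h₁]; simp)
  have hpis : PisotMat (cMat a) := by
    rw [← ht₀.inc]; exact dec_pisIrr h ht₀
  have hnn : ∀ i j, 0 ≤ cMat a i j := by
    intro i j
    rw [← ht₀.inc]
    unfold Pool.Agent.H812R2.PI.inc
    positivity
  have hinc : inc (compList l) = cMat a ^ l.length := inc_compList _ _ fun t ht => (hl t ht).inc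
  have hlen : l.length ≠ 0 := fun h => hne (List.length_eq_zero_iff.1 h)
  have hpisk : PisotMat (inc (compList l)) := by
    rw [hinc]
    exact Pool.Agent.TH100.Pisot.pisotMat_pow _ hnn hpis _ (by omega)
  refine ⟨hpisk, ?_⟩
  obtain ⟨lam, u, hlam, hu, husum⟩ := exists_u (cMat a) hnn hpis
  obtain ⟨Q, -, -⟩ := exists_PD (cMat a) hnn hpis lam hlam u hu husum
  obtain ⟨C, hCM, hCA⟩ := h.exists_ctx
  have hlamQ : 0 < Q.lam := lt_trans one_pos Q.lam_gt
  -- comparison of `Q` and `C`
  have hβ : C.β = Q.lam := by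
    have h1 : ∀ j, ∑ i, C.e i * (cMat a i j : ℝ) = C.β * C.e j := by
      intro j
      have h1 := C.hM (ev j)
      rw [hCM, hh_ev] at h1
      rw [← h1]
      simp [hh, Matrix.mulVec, dotProduct, ev]
    have h2 : ∑ i, C.e i * (Q.lam * Q.u i) = ∑ j, (C.β * C.e j) * Q.u j := by
      simp only [← Q.M_u, ← h1, Finset.mul_sum, Finset.sum_mul]
      rw [Finset.sum_comm]
      exact Finset.sum_congr rfl fun i _ => Finset.sum_congr rfl fun j _ => by ring
    have h3 : 0 < ∑ i, C.e i * Q.u i :=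
      Finset.sum_pos (fun i _ => mul_pos (C.e_pos i) (Q.u_pos i)) ⟨0, Finset.mem_univ _⟩
    have h4 : Q.lam * ∑ i, C.e i * Q.u i = C.β * ∑ i, C.e i * Q.u i := by
      rw [Finset.mul_sum, Finset.mul_sum]
      calc ∑ i, Q.lam * (C.e i * Q.u i) = ∑ i, C.e i * (Q.lam * Q.u i) :=
            Finset.sum_congr rfl fun i _ => by ring
        _ = _ := h2
        _ = _ := Finset.sum_congr rfl fun i _ => by ring
    exact (mul_right_cancel₀ h3.ne' h4).symm
  have hrecQ : ∀ j : Fin (m+1), Q.lam * Q.ell j = a j * Q.ell 0 + nx Q.ell j := by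
    intro j
    have h1 := congrFun (pull_eq Q ht₀ 1) j
    simp only [one_mul, mul_one] at h1
    have h2 : pull Q.ell t₀ j = a j * Q.ell 0 + nx Q.ell j := (ht₀.cmp h.last).pull h.last _ j
    rw [← h2, ← h1]
  have hrecC : ∀ j : Fin (m+1), Q.lam * C.e j = a j + nx C.e j := by
    intro j
    have h1 := C.El_rec j
    rw [C.El_fin, hβ] at h1
    have h2 : C.El ((j : ℕ) + 1) = nx C.e j := by
      unfold nx
      split_ifs with hj
      · rw [hj]
        exact C.El_big (by simp)
      · rw [← C.El_fin, Fin.val_add_one_of_lt (Fin.lt_last_iff_ne_last.2 hj)]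
    rw [h1, h2, hCA, An_fin]
  have hQ : ∀ i, Q.ell i = Q.ell 0 * C.e i := by
    have h1 : ∀ n : ℕ, ∀ j : Fin (m+1), (j : ℕ) = n → Q.ell j = Q.ell 0 * C.e j := by
      intro n
      induction n with
      | zero =>
        intro j hj
        have : j = 0 := Fin.ext (by simpa using hj)
        rw [this, C.e_zero, mul_one]
      | succ n ih =>
        intro j hj
        rcases zero_or_succ j with h2 | ⟨j', h3, h4, h5⟩
        · rw [h2] at hj; simp at hj
        · have h6 := hrecQ j'
          have h7 := hrecC j'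
          rw [ih j' (by omega)] at h6
          unfold nx at h6 h7
          rw [if_neg h3, ← h4] at h6 h7
          linear_combination -h6 + Q.ell 0 * h7
    exact fun i => h1 _ i rfl
  have hfi : ∀ z, 0 ≤ hh C.e z → C.Fi z := fun z hz => C.fi hCM Q hQ hz
  have hE1 := C.El_one_lt
  have hle : ∀ i, Q.ell i ≤ Q.ell 0 := by
    intro i
    rw [hQ i]
    have h1 := C.El_le_one i
    rw [C.El_fin] at h1
    exact mul_le_of_le_one_right (Q.ell_pos 0).le h1
  have hB : ∀ i, i ≠ 0 → Q.ell i ≤ Q.ell 0 * C.El 1 := by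
    intro i hi
    rw [hQ i, ← C.El_fin]
    refine mul_le_mul_of_nonneg_left (C.El_anti' ?_) (Q.ell_pos 0).le
    rcases Nat.eq_zero_or_pos (i : ℕ) with h1 | h1
    · exact absurd (Fin.ext h1) hi
    · exact h1
  have hB0 : 0 ≤ Q.ell 0 * C.El 1 := mul_nonneg (Q.ell_pos 0).le (C.El_nonneg 1)
  have hB2 : 2 * (Q.ell 0 * C.El 1) < 2 * Q.ell 0 := by
    have := mul_lt_mul_of_pos_left hE1 (Q.ell_pos 0)
    linarith
  have hP := PD_pow Q hlen
  rw [← hinc] at hP
  obtain ⟨P, hP1, hP2⟩ := hP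
  have hdet : IsUnit (inc (compList l)).det := by
    rcases hpisk.2.1 with h | h
    · rw [h]; exact isUnit_one
    · rw [h]; exact isUnit_one.neg
  obtain ⟨p₀, q₀, hpq₀, hLv₀⟩ := (ht₀.cmp h.last).lv h.hm
  obtain ⟨p₁, q₁, hpq₁, hLv₁⟩ := (ht₁.cmp h.last).lv h.hm
  have h5 := h.five
  have hCL₁ : CL a l₁ := fun t ht => hl t (by rw [h₁]; simp [ht])
  have hpull₀ : pull Q.ell t₀ = fun j => Q.lam * Q.ell j := by
    have := pull_eq Q ht₀ 1
    simpa using this
  have hpull₁ := pull_list' Q hCL₁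
  refine abstract h₀ h₁ (CL.lv h hl) hLv₀ ?_ hLv₁ ?_ P hdet ?_ ?_ ?_ ?_ ?_ ?_
  · rcases le_total p₀ q₀ with h | h
    · rw [max_eq_right h]; omega
    · rw [max_eq_left h]; omega
  · rcases le_total p₁ q₁ with h | h
    · rw [max_eq_right h]; omega
    · rw [max_eq_left h]; omega
  · rw [hP1]; exact hle
  · rw [hP1, hpull₀]
    exact fun i => mul_le_mul_of_nonneg_left (hle i) hlamQ.le
  · rw [hP1, hpull₁]
    exact fun i => mul_le_mul_of_nonneg_left (hle i) (pow_pos hlamQ _).le
  · rw [hP1]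
    refine ⟨2 * (Q.ell 0 * C.El 1), hB2, fun n b => ?_⟩
    refine zf_list h (fun t ht => hl t (mem_flatten_replicate ht)) ?_ hB0 hB b
    intro hcon
    rw [flatten_succ] at hcon
    exact hne (List.append_eq_nil_iff.1 hcon).1
  · rw [hP1, hpull₀]
    refine ⟨2 * (Q.lam * (Q.ell 0 * C.El 1)), ?_, fun n b => ?_⟩
    · have := mul_lt_mul_of_pos_left hB2 hlamQ
      linarith
    · refine zf_list h (fun t ht => ?_) ?_ (mul_nonneg hlamQ.le hB0)
        (fun i hi => mul_le_mul_of_nonneg_left (hB i hi) hlamQ.le) b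
      · rw [List.mem_append] at ht
        rcases ht with h | h
        · exact hl t (by rw [h₀]; simp [h])
        · exact hl t (mem_flatten_replicate h)
      · intro hcon
        have h6 := (List.append_eq_nil_iff.1 hcon).2
        rw [flatten_succ] at h6
        exact hne (List.append_eq_nil_iff.1 h6).1
  · intro r hr
    rw [hP1, hP2, hpull₁] at hr
    have h6 : hh Q.ell r = Q.ell 0 * hh C.e r := by
      rw [← hh_smul_fun]
      congr 1
      funext i
      exact hQ i
    have h7 : ((inc t₁ 0 0 : ℤ) : ℝ) = C.A 0 := by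
      rw [hLv₁.inc00, hCA]
      have h8 := An_fin a 0
      simp only [Fin.val_zero] at h8
      rw [h8, ← hpq₁]
      push_cast
      ring
    have h8 : l.length = l₁.length + 1 := by rw [h₁]; simp
    have h9 : C.β * |hh C.e r| ≤ C.A 0 - 1 := by
      rw [h6, h7, h8, abs_mul, abs_of_pos (Q.ell_pos 0), pow_succ] at hr
      simp only at hr
      refine le_of_mul_le_mul_left ?_ (mul_pos (pow_pos hlamQ l₁.length) (Q.ell_pos 0))
      rw [hβ]
      linarith
    obtain ⟨n₀, hn₀⟩ := C.gx hfi h9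
    refine ⟨n₀, fun n hn => ?_⟩
    rw [hP1]
    refine ex_of_gx Q C hCM hCA hβ hQ n₀ r hn₀ _ ?_
      (fun t ht => hl t (mem_flatten_replicate ht))
    rw [flatten_length]
    calc n₀ ≤ n := hn
      _ = n * 1 := (mul_one n).symm
      _ ≤ n * l.length := Nat.mul_le_mul_left _ (by omega)

end Pool.Agent.Helper65K9.PSC
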