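import Pool.Agent.Y316.Pisot.Pis

/-!
An abstract criterion for unimodular irreducible Pisot matrices: no nonzero vector with coordinate
`0` equal to zero is a generalized eigenvector (modulo another eigenvector) for eigenvalues of
modulus at least one.
-/

set_option autoImplicit false

namespace Pool.Agent.Helper65K9.PSC
open Pool.Agent.H812R2.PI Pool.Agent.Y316.Pisot
open scoped BigOperators

variable {m : ℕ}

/-- complex action -/
noncomputable def mc (M : Matrix (Fin (m+1)) (Fin (m+1)) ℤ) (x : Fin (m+1) → ℂ) : Fin (m+1) → ℂ :=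
  (M.map (Int.cast : ℤ → ℂ)).mulVec x

theorem mc_smul (M : Matrix (Fin (m+1)) (Fin (m+1)) ℤ) (c : ℂ) (x : Fin (m+1) → ℂ) :
    mc M (c • x) = c • mc M x := Matrix.mulVec_smul _ _ _

theorem mc_sub (M : Matrix (Fin (m+1)) (Fin (m+1)) ℤ) (x y : Fin (m+1) → ℂ) :
    mc M (x - y) = mc M x - mc M y := Matrix.mulVec_sub _ _ _

theorem mc_add (M : Matrix (Fin (m+1)) (Fin (m+1)) ℤ) (x y : Fin (m+1) → ℂ) :
    mc M (x + y) = mc M x + mc M y := Matrix.mulVec_add _ _ _

theorem pisIrr_of_key (M : Matrix (Fin (m+1)) (Fin (m+1)) ℤ) (hdet : M.det ≠ 0)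
    (hk : ∀ (ν μ α : ℂ) (u x : Fin (m+1) → ℂ), 1 ≤ ‖ν‖ → 1 ≤ ‖μ‖ → mc M u = μ • u →
      mc M x = ν • x + α • u → x 0 = 0 → x = 0)
    (hr : ∀ (lam : ℝ) (y : Fin (m+1) → ℝ), 1 ≤ |lam| → mc M (cr y) = (lam : ℂ) • cr y → 0 < y 0 →
      1 < lam) : PisIrr M := by
  have hmonic : M.charpoly.Monic := M.charpoly_monic
  have hdeg : 0 < M.charpoly.natDegree := by
    rw [Matrix.charpoly_natDegree_eq_dim]
    simp
  have h0 : M.charpoly.coeff 0 ≠ 0 := by
    have h1 := Matrix.det_eq_sign_charpoly_coeff M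
    rw [h1] at hdet
    exact (mul_ne_zero_iff.1 hdet).2
  obtain ⟨μ, hμ, hμ1⟩ := exists_big_root M.charpoly hmonic hdeg h0
  have hμ0 : μ ≠ 0 := by
    intro h
    rw [h, norm_zero] at hμ1
    linarith
  obtain ⟨u, hu, huμ⟩ := eig (M.map (Int.cast : ℤ → ℂ)) μ (by rw [charpoly_cast]; exact hμ)
  change mc M u = μ • u at huμ
  have hu0 : u 0 ≠ 0 := by
    intro h
    exact hu (hk μ μ 0 u u hμ1 hμ1 huμ (by rw [huμ, zero_smul, add_zero]) h)
  have key : ∀ (ν α : ℂ) (x : Fin (m+1) → ℂ), 1 ≤ ‖ν‖ →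
      mc M x = ν • x + α • u → ∃ c : ℂ, x = c • u := by
    intro ν α x hν hx
    refine ⟨x 0 / u 0, ?_⟩
    have h1 : x - (x 0 / u 0) • u = 0 := by
      refine hk ν μ (α + (x 0 / u 0) * (ν - μ)) u _ hν hμ1 huμ ?_ ?_
      · rw [mc_sub, mc_smul, huμ, hx]
        funext j
        simp only [Pi.sub_apply, Pi.add_apply, Pi.smul_apply, smul_eq_mul]
        ring
      · simp only [Pi.sub_apply, Pi.smul_apply, smul_eq_mul]
        field_simp
        ring
    exact sub_eq_zero.1 h1
  have hothers : ∀ ν : ℂ, (M.charpoly.map (Int.castRingHom ℂ)).IsRoot ν → 1 ≤ ‖ν‖ → ν = μ := by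
    intro ν hν hν1
    obtain ⟨w, hw, hwν⟩ := eig (M.map (Int.cast : ℤ → ℂ)) ν (by rw [charpoly_cast]; exact hν)
    change mc M w = ν • w at hwν
    obtain ⟨c, hc⟩ := key ν 0 w hν1 (by rw [hwν, zero_smul, add_zero])
    have hc0 : c ≠ 0 := by
      rintro rfl
      rw [zero_smul] at hc
      exact hw hc
    have h1 : c • μ • u = ν • c • u := by
      rw [← hc, ← hwν, hc, mc_smul, huμ]
    have h2 := congrFun h1 0
    simp only [Pi.smul_apply, smul_eq_mul] at h2
    have h3 : c * u 0 * (μ - ν) = 0 := by linear_combination h2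
    rcases mul_eq_zero.1 h3 with h4 | h4
    · exact absurd h4 (mul_ne_zero hc0 hu0)
    · exact (sub_eq_zero.1 h4).symm
  have hsimple : (M.charpoly.map (Int.castRingHom ℂ)).rootMultiplicity μ ≤ 1 := by
    rw [← charpoly_cast]
    refine simple_root _ μ u fun x hx => ?_
    obtain ⟨α, hα⟩ := hx
    exact key μ α x hμ1 hα
  -- the root is real
  have hconj : (M.charpoly.map (Int.castRingHom ℂ)).IsRoot ((starRingEnd ℂ) μ) := by
    rw [Polynomial.IsRoot, Polynomial.eval_map] at hμ ⊢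
    have h1 := Polynomial.hom_eval₂ M.charpoly (Int.castRingHom ℂ) (starRingEnd ℂ) μ
    rw [hμ, map_zero] at h1
    have h2 : (starRingEnd ℂ).comp (Int.castRingHom ℂ) = Int.castRingHom ℂ := RingHom.ext_int _ _
    rw [h2] at h1
    exact h1.symm
  have hreal : (starRingEnd ℂ) μ = μ := hothers _ hconj (by rw [RCLike.norm_conj]; exact hμ1)
  obtain ⟨lam, hlam⟩ := Complex.conj_eq_iff_real.1 hreal
  -- a real eigenvector
  have hrootl : (M.map (Int.cast : ℤ → ℂ)).charpoly.IsRoot (lam : ℂ) := by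
    rw [charpoly_cast, ← hlam]; exact hμ
  obtain ⟨y, hy0, hy⟩ := LPD_right M lam ((LPD_root M lam).mp hrootl)
  have hcy : mc M (cr y) = μ • cr y := by
    funext i
    have h1 := hy i
    simp only [mc, cr, Matrix.mulVec, dotProduct, Matrix.map_apply, Pi.smul_apply, smul_eq_mul]
    rw [hlam, ← Complex.ofReal_mul, ← h1]
    simp
  obtain ⟨c, hc⟩ := key μ 0 (cr y) hμ1 (by rw [hcy, zero_smul, add_zero])
  have hc0 : c ≠ 0 := by
    rintro rfl
    apply hy0
    funext i
    have h1 := congrFun hc i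
    simp only [cr, zero_smul, Pi.zero_apply] at h1
    exact_mod_cast h1
  have hyne : y 0 ≠ 0 := by
    intro h
    have h1 := congrFun hc 0
    simp only [cr, Pi.smul_apply, smul_eq_mul, h, Complex.ofReal_zero] at h1
    exact mul_ne_zero hc0 hu0 h1.symm
  have hlam1 : 1 ≤ |lam| := by
    rw [hlam, Complex.norm_real, Real.norm_eq_abs] at hμ1
    exact hμ1
  have hlam2 : 1 < lam := by
    rcases lt_or_gt_of_ne hyne with h | h
    · have h1 : cr (-y) = (-1 : ℂ) • cr y := by
        funext i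
        simp [cr]
      refine hr lam (-y) hlam1 ?_ (by simpa using h)
      rw [h1, mc_smul, hcy, smul_comm, hlam]
    · exact hr lam y hlam1 (by rw [hcy, hlam]) h
  refine ⟨?_, lam, hlam2, hrootl, ?_⟩
  · rw [charpoly_castQ]
    have h1 := irr_of_simple M.charpoly hmonic hdeg h0 μ hothers hsimple
    exact (hmonic.irreducible_iff_irreducible_map_fraction_map (K := ℚ)).1 h1
  · intro ν hν hne
    refine ⟨?_, ?_⟩
    · rw [norm_pos_iff]
      rintro rfl
      have h6 : (((M).map (Int.cast : ℤ → ℂ)).charpoly).eval 0 = 0 := hν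
      rw [charpoly_cast, ← Polynomial.coeff_zero_eq_eval_zero, Polynomial.coeff_map] at h6
      have h7 : M.charpoly.coeff 0 = 0 := by
        rw [eq_intCast] at h6
        exact_mod_cast h6
      exact h0 h7
    · by_contra hcon
      push Not at hcon
      apply hne
      rw [← hlam]
      exact hothers ν (by rw [← charpoly_cast]; exact hν) hcon

end Pool.Agent.Helper65K9.PSC
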