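import Pool.Agent.Helper65K9.PSC.Free
import Pool.Agent.Helper65K9.PSC.PisAbs

/-!
Matrices of companion substitutions.
-/

set_option autoImplicit false

namespace Pool.Agent.Helper65K9.PSC
open Pool.Agent.H812R2.PI Pool.Agent.Y316.Pisot
open scoped BigOperators

variable {m : ℕ}

theorem Cmp.inc_succ {t : Fin (m+1) → List (Fin (m+1))} {a : Fin (m+1) → ℕ} (h : Cmp t a)
    {j : Fin (m+1)} (hj : j ≠ Fin.last m) (i : Fin (m+1)) :
    inc t (j + 1) i = if i = j then 1 else 0 := by
  simp only [inc]
  have hj0 := succ_ne_zero hj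
  by_cases hi : i = Fin.last m
  · rw [hi, h.last, List.count_singleton]
    have h2 : ¬ ((0 : Fin (m+1)) == j + 1) = true := by
      simp only [beq_iff_eq]; exact fun h => hj0 h.symm
    rw [if_neg h2, if_neg (fun h => hj h.symm)]
    rfl
  · obtain ⟨p, q, -, h2⟩ := h.form i hi
    rw [h2, List.count_append, List.count_replicate, List.count_cons, List.count_replicate]
    have h3 : ¬ ((0 : Fin (m+1)) == j + 1) = true := by
      simp only [beq_iff_eq]; exact fun h => hj0 h.symm
    rw [if_neg h3, if_neg h3]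
    by_cases hij : i = j
    · rw [hij]; simp
    · have h4 : ¬ ((i + 1) == j + 1) = true := by
        simp only [beq_iff_eq]; exact fun h => hij (succ_inj h)
      rw [if_neg h4, if_neg hij]
      rfl

theorem Cmp.inc_zero {t : Fin (m+1) → List (Fin (m+1))} {a : Fin (m+1) → ℕ} (h : Cmp t a)
    (ha : a (Fin.last m) = 1) (i : Fin (m+1)) : inc t 0 i = a i := by
  simp only [inc]
  by_cases hi : i = Fin.last m
  · rw [hi, h.last, ha]; simp
  · obtain ⟨p, q, hpq, h2⟩ := h.form i hi
    have h3 := succ_ne_zero hi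
    rw [h2, List.count_append, List.count_replicate_self, List.count_cons_of_ne h3,
      List.count_replicate_self, ← hpq]

theorem Cmp.cm_succ {t : Fin (m+1) → List (Fin (m+1))} {a : Fin (m+1) → ℕ} (h : Cmp t a)
    {j : Fin (m+1)} (hj : j ≠ Fin.last m) (x : Fin (m+1) → ℂ) : cm t x (j + 1) = x j := by
  simp only [cm, Matrix.mulVec, dotProduct, Matrix.map_apply, h.inc_succ hj]
  simp

theorem Cmp.cm_zero {t : Fin (m+1) → List (Fin (m+1))} {a : Fin (m+1) → ℕ} (h : Cmp t a)
    (ha : a (Fin.last m) = 1) (x : Fin (m+1) → ℂ) : cm t x 0 = ∑ j, (a j : ℂ) * x j := by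
  simp only [cm, Matrix.mulVec, dotProduct, Matrix.map_apply, h.inc_zero ha]
  simp

/-- every index is `0` or a successor -/
theorem zero_or_succ (j : Fin (m+1)) : j = 0 ∨ ∃ j' : Fin (m+1), j' ≠ Fin.last m ∧ j = j' + 1 ∧
    (j' : ℕ) + 1 = j := by
  by_cases hj : j = 0
  · exact Or.inl hj
  · right
    have hj1 : 1 ≤ (j : ℕ) := by
      rcases Nat.eq_zero_or_pos (j : ℕ) with h | h
      · exact absurd (Fin.ext h) hj
      · exact h
    have hj2 := j.2
    refine ⟨⟨(j : ℕ) - 1, by omega⟩, ?_, ?_, ?_⟩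
    · intro h
      have := congrArg Fin.val h
      simp at this
      omega
    · apply Fin.ext
      rw [Fin.val_add_one_of_lt (Fin.lt_last_iff_ne_last.2 ?_)]
      · simp; omega
      · intro h
        have := congrArg Fin.val h
        simp at this
        omega
    · simp; omega

theorem Cmp.det {t : Fin (m+1) → List (Fin (m+1))} {a : Fin (m+1) → ℕ} (h : Cmp t a)
    (ha : a (Fin.last m) = 1) : IsUnit (inc t).det := by
  have hs : Function.Surjective (inc t).mulVec := by
    intro r'
    refine ⟨fun j => if j = Fin.last m then r' 0 - ∑ i ∈ Finset.univ.erase (Fin.last m),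
      (a i : ℤ) * r' (i + 1) else r' (j + 1), ?_⟩
    obtain ⟨r, hr⟩ : ∃ r : Fin (m+1) → ℤ, r = fun j => if j = Fin.last m then r' 0 -
      ∑ i ∈ Finset.univ.erase (Fin.last m), (a i : ℤ) * r' (i + 1) else r' (j + 1) := ⟨_, rfl⟩
    rw [← hr]
    funext j
    rcases zero_or_succ j with h1 | ⟨j', h1, h2, -⟩
    · rw [h1]
      simp only [Matrix.mulVec, dotProduct, h.inc_zero ha]
      rw [← Finset.add_sum_erase _ _ (Finset.mem_univ (Fin.last m)), ha, hr]
      simp only [if_true]
      have h3 : ∑ x ∈ Finset.univ.erase (Fin.last m), (a x : ℤ) *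
          (if x = Fin.last m then r' 0 - ∑ i ∈ Finset.univ.erase (Fin.last m),
            (a i : ℤ) * r' (i + 1) else r' (x + 1)) =
          ∑ i ∈ Finset.univ.erase (Fin.last m), (a i : ℤ) * r' (i + 1) := by
        refine Finset.sum_congr rfl fun x hx => ?_
        rw [if_neg (Finset.ne_of_mem_erase hx)]
      rw [h3]
      push_cast
      ring
    · rw [h2]
      have h3 : (inc t).mulVec r (j' + 1) = r j' := by
        simp only [Matrix.mulVec, dotProduct, h.inc_succ h1]
        simp
      rw [h3, hr]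
      simp only [if_neg h1]
  rw [← Matrix.isUnit_iff_isUnit_det]
  exact Matrix.mulVec_surjective_iff_isUnit.1 hs

end Pool.Agent.Helper65K9.PSC
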