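import Pool.Agent.Y316.Pisot.Search
import Pool.Agent.Y316.Pisot.Power
import Pool.Agent.Y316.Pisot.Chain

/-!
Near and far moves for overlapping pairs of edges `0`.
-/

set_option autoImplicit false

namespace Pool.Agent.Helper65K9.PSC
open Pool.Agent.H812R2.PI Pool.Agent.Y316.Pisot
open scoped BigOperators

variable {m : ℕ}

/-- The paths of `S 0` from `0` and from `M v` (`M` the incidence matrix of `S`) share an edge. -/
def Co (S : Fin (m+1) → List (Fin (m+1))) (v : Fin (m+1) → ℤ) : Prop :=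
  ∃ e, e ∈ edges 0 (S 0) ∧ e ∈ edges ((inc S).mulVec v) (S 0)

theorem Co.neg {S : Fin (m+1) → List (Fin (m+1))} {v : Fin (m+1) → ℤ} (h : Co S v) :
    Co S (-v) := by
  obtain ⟨e, h1, h2⟩ := h
  refine ⟨(e.1 - (inc S).mulVec v, e.2), ?_, ?_⟩
  · have := JComp_mem_translate (t := -(inc S).mulVec v) h2
    rw [← sub_eq_add_neg, ← sub_eq_add_neg, sub_self] at this
    exact this
  · have := JComp_mem_translate (t := -(inc S).mulVec v) h1
    rw [zero_add, ← sub_eq_add_neg] at this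
    rw [Matrix.mulVec_neg]
    exact this

theorem Co.neg_iff {S : Fin (m+1) → List (Fin (m+1))} {v : Fin (m+1) → ℤ} :
    Co S (-v) ↔ Co S v := ⟨fun h => by simpa using h.neg, Co.neg⟩

theorem co_zero {S : Fin (m+1) → List (Fin (m+1))} (h : S 0 ≠ []) : Co S 0 := by
  obtain ⟨a, w, hw⟩ := List.exists_cons_of_ne_nil h
  refine ⟨(0, a), ?_, ?_⟩
  · rw [hw]; exact List.mem_cons_self ..
  · rw [Matrix.mulVec_zero, hw]; exact List.mem_cons_self ..

/-- a common edge of the images of two children -/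
theorem co_child {S t : Fin (m+1) → List (Fin (m+1))} {v x y : Fin (m+1) → ℤ}
    (hx : (x, (0 : Fin (m+1))) ∈ edges 0 (t 0))
    (hy : (y, (0 : Fin (m+1))) ∈ edges ((inc t).mulVec v) (t 0))
    (h : Co S (y - x)) : Co (comp S t) v := by
  obtain ⟨e, h1, h2⟩ := h
  refine ⟨(e.1 + (inc S).mulVec x, e.2), ?_, ?_⟩
  · exact JComp_mem0 (S := S) (T := t) (g := (x, 0)) hx (h := e) h1
  · exact JComp_mem1 (S := S) (T := t) (g := (x, 0)) (f := (y, 0)) hy (h := e) h2

/-- `t 0` is `0 ... 0 b 0 ... 0` -/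
def Blk (t : Fin (m+1) → List (Fin (m+1))) (p q : ℕ) : Prop :=
  ∃ b : Fin (m+1), t 0 = List.replicate p 0 ++ b :: List.replicate q 0

theorem Blk.left {t : Fin (m+1) → List (Fin (m+1))} {p q : ℕ} (h : Blk t p q)
    (z : Fin (m+1) → ℤ) (i : ℕ) (hi : i < p) :
    (z + (i : ℤ) • ev 0, (0 : Fin (m+1))) ∈ edges z (t 0) := by
  obtain ⟨b, hb⟩ := h
  have := run_edge z [] (b :: List.replicate q 0) p i hi
  rw [ab_nil, add_zero] at this
  rw [hb]
  simpa using this

theorem Blk.right {t : Fin (m+1) → List (Fin (m+1))} {p q : ℕ} (h : Blk t p q)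
    (z : Fin (m+1) → ℤ) (i : ℕ) (hi : 1 ≤ i) (hiq : i ≤ q) :
    (z + (inc t).mulVec (ev 0) - (i : ℤ) • ev 0, (0 : Fin (m+1))) ∈ edges z (t 0) := by
  obtain ⟨b, hb⟩ := h
  have h1 := run_edge z (List.replicate p 0 ++ [b]) [] q (q - i) (by omega)
  rw [← ab_subst, hb]
  have h2 : z + ab (List.replicate p 0 ++ b :: List.replicate q (0 : Fin (m+1))) -
      (i : ℤ) • ev 0 = z + ab (List.replicate p 0 ++ [b]) + ((q - i : ℕ) : ℤ) • ev 0 := by
    have h3 : (((q - i : ℕ) : ℤ)) = (q : ℤ) - i := by omega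
    rw [h3, ab_append, ab_append, ab_cons, ab_single, ab_replicate, ab_replicate, sub_smul]
    abel
  rw [h2]
  simpa using h1

/-- near move -/
theorem near {S t : Fin (m+1) → List (Fin (m+1))} {p q : ℕ} (hb : Blk t p q)
    {v : Fin (m+1) → ℤ} {k : ℤ} (hk : |k| < max (p : ℤ) q)
    (h : Co S ((inc t).mulVec v - k • ev 0)) : Co (comp S t) v := by
  rcases le_total q p with hpq | hpq
  · have h1 : |k| < p := by
      rw [max_eq_left (by exact_mod_cast hpq)] at hk; exact hk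
    obtain ⟨i, j, hi, hj, hij⟩ : ∃ i j : ℕ, i < p ∧ j < p ∧ (i : ℤ) - j = k := by
      have h2 := abs_lt.1 h1
      rcases le_total 0 k with h3 | h3
      · exact ⟨k.toNat, 0, by omega, by omega, by omega⟩
      · exact ⟨0, (-k).toNat, by omega, by omega, by omega⟩
    refine co_child (hb.left 0 i hi) (hb.left ((inc t).mulVec v) j hj) ?_
    have : (inc t).mulVec v + (j : ℤ) • (ev 0 : Fin (m+1) → ℤ) - (0 + (i : ℤ) • ev 0) =
        (inc t).mulVec v - k • ev 0 := by
      rw [← hij, sub_smul]; abel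
    rw [this]; exact h
  · have h1 : |k| < q := by
      rw [max_eq_right (by exact_mod_cast hpq)] at hk; exact hk
    obtain ⟨i, j, hi1, hi, hj1, hj, hij⟩ : ∃ i j : ℕ, 1 ≤ i ∧ i ≤ q ∧ 1 ≤ j ∧ j ≤ q ∧
        (j : ℤ) - i = k := by
      have h2 := abs_lt.1 h1
      rcases le_total 0 k with h3 | h3
      · exact ⟨1, k.toNat + 1, by omega, by omega, by omega, by omega, by omega⟩
      · exact ⟨(-k).toNat + 1, 1, by omega, by omega, by omega, by omega, by omega⟩
    refine co_child (hb.right 0 i hi1 hi) (hb.right ((inc t).mulVec v) j hj1 hj) ?_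
    have : (inc t).mulVec v + (inc t).mulVec (ev 0) - (j : ℤ) • (ev 0 : Fin (m+1) → ℤ) -
        (0 + (inc t).mulVec (ev 0) - (i : ℤ) • ev 0) =
        (inc t).mulVec v - k • ev 0 := by
      rw [← hij, sub_smul]; abel
    rw [this]; exact h

/-- far move -/
theorem far {S t : Fin (m+1) → List (Fin (m+1))} {p q : ℕ} (hb : Blk t p q) (hp : 1 ≤ p)
    (hq : 1 ≤ q) {r : Fin (m+1) → ℤ} {k : ℤ} (hk : 1 ≤ k) (hk2 : k ≤ p + q - 1)
    (h : Co S ((inc t).mulVec r - k • ev 0)) : Co (comp S t) (r - ev 0) := by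
  obtain ⟨i, j, hi, hj1, hj, hij⟩ : ∃ i j : ℕ, i < p ∧ 1 ≤ j ∧ j ≤ q ∧ (i : ℤ) + j = k := by
    rcases le_total k q with h3 | h3
    · exact ⟨0, k.toNat, by omega, by omega, by omega, by omega⟩
    · exact ⟨(k - q).toNat, q, by omega, by omega, by omega, by omega⟩
  refine co_child (hb.left 0 i hi) (hb.right ((inc t).mulVec (r - ev 0)) j hj1 hj) ?_
  have : (inc t).mulVec (r - ev 0) + (inc t).mulVec (ev 0) - (j : ℤ) • (ev 0 : Fin (m+1) → ℤ) -
      (0 + (i : ℤ) • ev 0) = (inc t).mulVec r - k • ev 0 := by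
    rw [← hij, add_smul, Matrix.mulVec_sub]; abel
  rw [this]; exact h

end Pool.Agent.Helper65K9.PSC
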