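import Pool.Agent.Helper65K9.PSC.Free

/-!
The form of the images from the incidence matrix.
-/

set_option autoImplicit false

namespace Pool.Agent.Helper65K9.PSC
open Pool.Agent.H812R2.PI Pool.Agent.Y316.Pisot
open scoped BigOperators

variable {m : ℕ}

/-- the incidence matrix of `τ` is the companion matrix of `a`: column `j` is
`a_j e_0 + e_{j+1}` for `j < m` and `a_m e_0` for `j = m` -/
def IsCompanion (a : Fin (m+1) → ℕ) (τ : Fin (m+1) → List (Fin (m+1))) : Prop :=
  ∀ i j : Fin (m+1), inc τ i j =
    (if i = 0 then (a j : ℤ) else 0) + (if j ≠ Fin.last m ∧ i = j + 1 then 1 else 0)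

theorem IsCompanion.cmp {a : Fin (m+1) → ℕ} {τ : Fin (m+1) → List (Fin (m+1))}
    (h : IsCompanion a τ) (ha : a (Fin.last m) = 1) : Cmp τ a := by
  refine ⟨?_, fun j hj => ?_⟩
  · have h1 : ∀ x ∈ τ (Fin.last m), x = 0 := by
      intro x hx
      by_contra hx0
      have h2 := h x (Fin.last m)
      simp only [inc, if_neg hx0, ne_eq, not_true_eq_false, false_and, if_false, add_zero] at h2
      have h3 : 0 < (τ (Fin.last m)).count x := List.count_pos_iff.2 hx
      omega
    have h2 := h 0 (Fin.last m)
    simp only [inc, if_true, ne_eq, not_true_eq_false, false_and, if_false, add_zero, ha] at h2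
    have h3 := List.eq_replicate_of_mem h1
    rw [h3, List.count_replicate_self] at h2
    have h4 : (τ (Fin.last m)).length = 1 := by exact_mod_cast h2
    rw [h4] at h3
    exact h3
  · have hj0 := succ_ne_zero hj
    have h1 : (τ j).count (j + 1) = 1 := by
      have h2 := h (j + 1) j
      simp only [inc, if_neg hj0, ne_eq, hj, not_false_eq_true, true_and, if_true, zero_add] at h2
      exact_mod_cast h2
    have h2 : (τ j).count 0 = a j := by
      have h2 := h 0 j
      have h3 : ¬ (0 : Fin (m+1)) = j + 1 := fun h => hj0 h.symm
      simp only [inc, if_true, h3, and_false, if_false, add_zero] at h2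
      exact_mod_cast h2
    have h3 : ∀ x ∈ τ j, x = 0 ∨ x = j + 1 := by
      intro x hx
      by_contra hcon
      push Not at hcon
      have h4 := h x j
      simp only [inc, if_neg hcon.1, hcon.2, and_false, if_false, add_zero] at h4
      have h5 : 0 < (τ j).count x := List.count_pos_iff.2 hx
      omega
    obtain ⟨u, v, h4, h5⟩ := List.eq_append_cons_of_mem (List.count_pos_iff.1
      (show 0 < (τ j).count (j + 1) by omega))
    have h6 : (j + 1) ∉ v := by
      intro hv
      have h7 : 0 < v.count (j + 1) := List.count_pos_iff.2 hv
      rw [h4, List.count_append, List.count_cons_self] at h1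
      omega
    have hu : u = List.replicate u.length 0 := List.eq_replicate_of_mem fun x hx => by
      rcases h3 x (by rw [h4]; simp [hx]) with h | h
      · exact h
      · exact absurd (h ▸ hx) h5
    have hv : v = List.replicate v.length 0 := List.eq_replicate_of_mem fun x hx => by
      rcases h3 x (by rw [h4]; simp [hx]) with h | h
      · exact h
      · exact absurd (h ▸ hx) h6
    refine ⟨u.length, v.length, ?_, ?_⟩
    · rw [← h2, h4, List.count_append, List.count_cons_of_ne hj0]
      conv_rhs => rw [hu, hv]
      rw [List.count_replicate_self, List.count_replicate_self]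
    · rw [← hu, ← hv]
      exact h4

end Pool.Agent.Helper65K9.PSC
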