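import Pool.Agent.Helper65K9.PSC.Tok
import Pool.Agent.Helper65K9.PSC.CmpMat
import Pool.Agent.Helper65K9.PSC.Form

/-!
The companion matrix of a vector with nonincreasing entries.
-/

set_option autoImplicit false

namespace Pool.Agent.Helper65K9.PSC
open Pool.Agent.H812R2.PI Pool.Agent.Y316.Pisot
open scoped BigOperators

variable {m : ℕ}

/-- the companion matrix of `a` -/
def cMat (a : Fin (m+1) → ℕ) : Matrix (Fin (m+1)) (Fin (m+1)) ℤ := fun i j =>
  (if i = 0 then (a j : ℤ) else 0) + (if j ≠ Fin.last m ∧ i = j + 1 then 1 else 0)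

theorem IsCompanion.inc {a : Fin (m+1) → ℕ} {τ : Fin (m+1) → List (Fin (m+1))}
    (h : IsCompanion a τ) : Pool.Agent.H812R2.PI.inc τ = cMat a := by
  funext i j
  exact h i j

/-- the entries with natural indices -/
def An (a : Fin (m+1) → ℕ) (j : ℕ) : ℕ := if h : j < m + 1 then a ⟨j, h⟩ else 0

theorem An_big (a : Fin (m+1) → ℕ) {j : ℕ} (h : m < j) : An a j = 0 := by
  unfold An
  rw [dif_neg (by omega)]

theorem An_fin (a : Fin (m+1) → ℕ) (j : Fin (m+1)) : An a j = a j := by
  unfold An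
  rw [dif_pos j.2]

theorem En_fin (j : Fin (m+1)) : En m (j : ℕ) = ev j := by
  unfold En
  rw [dif_pos j.2]

theorem cMat_mulE (a : Fin (m+1) → ℕ) (j : ℕ) :
    (cMat a).mulVec (En m j) = (An a j : ℤ) • ev 0 + En m (j + 1) := by
  by_cases hj : j < m + 1
  · obtain ⟨j', rfl⟩ : ∃ j' : Fin (m+1), (j' : ℕ) = j := ⟨⟨j, hj⟩, rfl⟩
    rw [En_fin, An_fin]
    funext i
    have h1 : (cMat a).mulVec (ev j') i = cMat a i j' := by
      simp [Matrix.mulVec, dotProduct, ev]
    rw [h1]
    simp only [cMat, Pi.add_apply, Pi.smul_apply, smul_eq_mul, ev]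
    congr 1
    · split_ifs <;> simp
    · unfold En
      by_cases hl : j' = Fin.last m
      · rw [if_neg (by simp [hl]), dif_neg (by rw [hl]; simp)]
        rfl
      · have h2 : (j' : ℕ) + 1 < m + 1 := by
          have h3 : (j' : ℕ) ≠ m := fun h => hl (Fin.ext (by simpa using h))
          have := j'.2
          omega
        rw [dif_pos h2]
        simp only [ev]
        have h3 : (j' + 1 : Fin (m+1)) = ⟨(j' : ℕ) + 1, h2⟩ := by
          apply Fin.ext
          rw [Fin.val_add_one_of_lt (Fin.lt_last_iff_ne_last.2 hl)]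
        rw [h3]
        simp [hl]
  · rw [En_big (by omega), En_big (by omega), An_big a (by omega), Matrix.mulVec_zero]
    simp

/-- the height of the `j`-th unit vector in terms of `y = 1 / β` -/
noncomputable def ee (a : Fin (m+1) → ℕ) (y : ℝ) (j : ℕ) : ℝ :=
  ∑ i ∈ Finset.range (m+1), (An a (j+i) : ℝ) * y^(i+1)

theorem ee_rec (a : Fin (m+1) → ℕ) (y : ℝ) (j : ℕ) :
    ee a y j = y * (An a j + ee a y (j + 1)) := by
  unfold ee
  rw [Finset.sum_range_succ', Finset.sum_range_succ (f := fun i => (An a (j+1+i) : ℝ) * y^(i+1)),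
    An_big a (show m < j + 1 + m by omega), mul_add, mul_add, Finset.mul_sum]
  have h1 : ∀ i ∈ Finset.range m, (An a (j + (i + 1)) : ℝ) * y ^ (i + 1 + 1) =
      y * ((An a (j + 1 + i) : ℝ) * y ^ (i + 1)) := by
    intro i _
    have h2 : j + (i + 1) = j + 1 + i := by omega
    rw [h2]
    ring
  rw [Finset.sum_congr rfl h1]
  simp only [Nat.cast_zero, zero_mul, mul_zero, add_zero, zero_add, pow_one]
  ring

theorem ee_pos (a : Fin (m+1) → ℕ) (ha : ∀ j, 1 ≤ a j) {y : ℝ} (hy : 0 < y) {j : ℕ} (hj : j ≤ m) :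
    0 < ee a y j := by
  unfold ee
  refine Finset.sum_pos' (fun i _ => by positivity) ⟨0, Finset.mem_range.2 (Nat.succ_pos m), ?_⟩
  have h1 : 1 ≤ An a (j + 0) := by
    rw [add_zero]
    unfold An
    rw [dif_pos (by omega)]
    exact ha _
  have h2 : (1 : ℝ) ≤ An a (j + 0) := by exact_mod_cast h1
  exact mul_pos (by linarith) (pow_pos hy _)

theorem exists_root (a : Fin (m+1) → ℕ) (h0 : 2 ≤ a 0) : ∃ y : ℝ, 0 < y ∧ y < 1 ∧ ee a y 0 = 1 := by
  have hc : Continuous fun y : ℝ => ee a y 0 := by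
    unfold ee
    exact continuous_finsetSum _ fun i _ => continuous_const.mul (continuous_pow _)
  have hf0 : ee a 0 0 = 0 := by
    unfold ee
    exact Finset.sum_eq_zero fun i _ => by simp
  have hf1 : 2 ≤ ee a 1 0 := by
    have h1 := ee_rec a 1 0
    have h2 : 0 ≤ ee a 1 (0 + 1) := by
      unfold ee
      exact Finset.sum_nonneg fun i _ => by positivity
    have h3 : (2 : ℝ) ≤ An a 0 := by
      have := An_fin a 0
      simp only [Fin.val_zero] at this
      rw [this]
      exact_mod_cast h0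
    rw [h1]
    linarith
  obtain ⟨y, hy, hy1⟩ := intermediate_value_Icc (zero_le_one) hc.continuousOn
    (show (1 : ℝ) ∈ Set.Icc (ee a 0 0) (ee a 1 0) from ⟨by rw [hf0]; exact zero_le_one,
      by linarith⟩)
  refine ⟨y, ?_, ?_, hy1⟩
  · rcases hy.1.lt_or_eq with h | h
    · exact h
    · rw [← h] at hy1
      simp only [hf0] at hy1
      norm_num at hy1
  · rcases hy.2.lt_or_eq with h | h
    · exact h
    · rw [h] at hy1
      simp only at hy1
      linarith

theorem hh_mulVec_gen (φ : Fin (m+1) → ℝ) (M : Matrix (Fin (m+1)) (Fin (m+1)) ℤ)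
    (v : Fin (m+1) → ℤ) : hh φ (M.mulVec v) = ∑ j, hh φ (M.mulVec (ev j)) * (v j : ℝ) := by
  have h1 : ∀ i j, M.mulVec (ev j) i = M i j := by
    intro i j
    simp [Matrix.mulVec, dotProduct, ev]
  simp only [hh, h1, Finset.sum_mul]
  rw [Finset.sum_comm]
  refine Finset.sum_congr rfl fun i _ => ?_
  simp only [Matrix.mulVec, dotProduct]
  push_cast
  rw [Finset.mul_sum]
  exact Finset.sum_congr rfl fun j _ => by ring

/-- the conditions -/
structure DC (a : Fin (m+1) → ℕ) : Prop where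
  hm : 1 ≤ m
  last : a (Fin.last m) = 1
  anti : ∀ i j : Fin (m+1), 1 ≤ i → i ≤ j → a j ≤ a i
  five : 5 ≤ a 0
  gap : ∀ j : Fin (m+1), 1 ≤ j → a j + 3 ≤ a 0

theorem DC.pos {a : Fin (m+1) → ℕ} (h : DC a) (j : Fin (m+1)) : 1 ≤ a j := by
  rcases Nat.eq_zero_or_pos (j : ℕ) with h1 | h1
  · have h2 : j = 0 := Fin.ext h1
    rw [h2]; have := h.five; omega
  · have := h.anti j (Fin.last m) (by
      rw [Fin.le_def, Fin.val_one']
      have := Nat.mod_le 1 (m+1)
      omega) (Fin.le_last j)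
    rw [h.last] at this
    exact this

theorem one_le_fin {j : Fin (m+1)} (h : 1 ≤ (j : ℕ)) : 1 ≤ j := by
  rw [Fin.le_def, Fin.val_one']
  have := Nat.mod_le 1 (m+1)
  omega

theorem DC.An_pos {a : Fin (m+1) → ℕ} (h : DC a) {j : ℕ} (hj : j ≤ m) : 1 ≤ An a j := by
  unfold An
  rw [dif_pos (by omega)]
  exact h.pos _

theorem DC.An_anti {a : Fin (m+1) → ℕ} (h : DC a) (j : ℕ) : An a (j + 1) ≤ An a j := by
  unfold An
  by_cases h1 : j + 1 < m + 1
  · rw [dif_pos h1, dif_pos (by omega)]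
    rcases Nat.eq_zero_or_pos j with h2 | h2
    · subst h2
      have h3 := h.gap ⟨0 + 1, h1⟩ (one_le_fin (by simp))
      have h4 : a ⟨0, by omega⟩ = a 0 := rfl
      rw [h4]
      omega
    · exact h.anti ⟨j, by omega⟩ ⟨j + 1, h1⟩ (one_le_fin h2) (by rw [Fin.le_def]; simp)
  · rw [dif_neg h1]
    exact Nat.zero_le _

theorem DC.An_gap {a : Fin (m+1) → ℕ} (h : DC a) : An a 1 + 3 ≤ An a 0 := by
  unfold An
  have h1 : 1 < m + 1 := by have := h.hm; omega
  rw [dif_pos h1, dif_pos (by omega)]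
  exact h.gap ⟨1, h1⟩ (one_le_fin (by simp))

/-- the data of the companion matrix -/
theorem DC.exists_ctx {a : Fin (m+1) → ℕ} (h : DC a) : ∃ C : Ctx m, C.M = cMat a ∧ C.A = An a := by
  obtain ⟨y, hy0, hy1, hy⟩ := exists_root a (by have := h.five; omega)
  have hrec : ∀ j, y⁻¹ * ee a y j = An a j + ee a y (j + 1) := by
    intro j
    rw [ee_rec, ← mul_assoc, inv_mul_cancel₀ hy0.ne', one_mul]
  have hEn : ∀ j, hh (fun i : Fin (m+1) => ee a y i) (En m j) = ee a y j := by
    intro j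
    unfold En
    split_ifs with hj
    · rw [hh_ev]
    · rw [hh_zero]
      unfold ee
      symm
      refine Finset.sum_eq_zero fun i _ => ?_
      rw [An_big a (by omega)]
      simp
  refine ⟨{ M := cMat a, A := An a, e := fun i => ee a y i, β := y⁻¹, β_gt := ?_, e_pos := ?_,
            e_zero := ?_, mulE := cMat_mulE a, hM := ?_, anti := h.An_anti,
            A_zero := fun j hj => An_big a hj, A_pos := fun j hj => h.An_pos hj,
            gap := h.An_gap }, rfl, rfl⟩
  · exact (one_lt_inv₀ hy0).2 hy1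
  · intro i
    exact ee_pos a h.pos hy0 (by have := i.2; omega)
  · simpa using hy
  · intro v
    rw [hh_mulVec_gen]
    have h1 : ∀ j : Fin (m+1), hh (fun i : Fin (m+1) => ee a y i) ((cMat a).mulVec (ev j)) =
        y⁻¹ * ee a y j := by
      intro j
      rw [← En_fin, cMat_mulE, hh_add, hh_smul_int, hh_ev, hEn, hrec]
      simp only [Fin.val_zero, hy, mul_one]
      push_cast
      ring
    have h2 : ∀ j ∈ (Finset.univ : Finset (Fin (m+1))),
        hh (fun i : Fin (m+1) => ee a y i) ((cMat a).mulVec (ev j)) * (v j : ℝ) =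
        y⁻¹ * (ee a y j * (v j : ℝ)) := by
      intro j _
      rw [h1 j]; ring
    rw [Finset.sum_congr rfl h2, ← Finset.mul_sum]
    rfl

end Pool.Agent.Helper65K9.PSC
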