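import Pool.Agent.Helper65K9.PSC.DomMain
import Pool.Agent.Helper65K9.PSC.CmpMat

/-!
Compositions of companion substitutions with a dominating entry are unimodular irreducible Pisot.
-/

set_option autoImplicit false

namespace Pool.Agent.Helper65K9.PSC
open Pool.Agent.H812R2.PI Pool.Agent.Y316.Pisot
open scoped BigOperators

variable {m : ℕ}

/-- the cone -/
def Kn (ρ : ℝ) (x : Fin (m+1) → ℂ) : Prop :=
  ∀ j : Fin (m+1), ‖x j‖ ≤ ρ ^ ((j : ℕ) + 1) * ‖x 0‖

/-- bounded vectors -/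
def Bd (ρ B : ℝ) (x : Fin (m+1) → ℂ) : Prop := ∀ j : Fin (m+1), ‖x j‖ ≤ ρ ^ (j : ℕ) * B

/-- the constant is adapted -/
def Gd (ρ : ℝ) (a : Fin (m+1) → ℕ) : Prop :=
  (∑ j ∈ Finset.univ.erase (0 : Fin (m+1)), (a j : ℝ)) * (ρ ^ (m+1) - 1) ≤ 1 / 2

section step
variable {ρ : ℝ} {t : Fin (m+1) → List (Fin (m+1))} {a : Fin (m+1) → ℕ}

theorem tail_bound (hρ : 1 < ρ) {x : Fin (m+1) → ℂ} (hx : Kn ρ x) :
    ∑ j ∈ Finset.univ.erase (0 : Fin (m+1)), (a j : ℝ) * ‖x j‖ ≤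
      (∑ j ∈ Finset.univ.erase (0 : Fin (m+1)), (a j : ℝ)) * (ρ ^ (m+1) * ‖x 0‖) := by
  rw [Finset.sum_mul]
  refine Finset.sum_le_sum fun j _ => mul_le_mul_of_nonneg_left ?_ (Nat.cast_nonneg _)
  refine (hx j).trans (mul_le_mul_of_nonneg_right ?_ (norm_nonneg _))
  exact pow_le_pow_right₀ hρ.le (by have := j.2; omega)

theorem cone_step (h : Dm t a) (hρ : 1 < ρ) (hg : Gd ρ a) {x : Fin (m+1) → ℂ} (hx : Kn ρ x) :
    3 / 2 * ‖x 0‖ ≤ ‖cm t x 0‖ ∧ Kn ρ (cm t x) := by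
  have h1 : 3 / 2 * ‖x 0‖ ≤ ‖cm t x 0‖ := by
    rw [h.cmp.cm_zero h.last, ← Finset.add_sum_erase _ _ (Finset.mem_univ (0 : Fin (m+1)))]
    have h2 := norm_sub_norm_le ((a 0 : ℂ) * x 0)
      (-∑ j ∈ Finset.univ.erase (0 : Fin (m+1)), (a j : ℂ) * x j)
    rw [sub_neg_eq_add, norm_neg] at h2
    have h3 : ‖(a 0 : ℂ) * x 0‖ = a 0 * ‖x 0‖ := by
      rw [norm_mul, Complex.norm_natCast]
    have h4 : ‖∑ j ∈ Finset.univ.erase (0 : Fin (m+1)), (a j : ℂ) * x j‖ ≤
        ∑ j ∈ Finset.univ.erase (0 : Fin (m+1)), (a j : ℝ) * ‖x j‖ := by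
      refine (norm_sum_le _ _).trans (le_of_eq ?_)
      refine Finset.sum_congr rfl fun j _ => ?_
      rw [norm_mul, Complex.norm_natCast]
    have h5 := tail_bound (a := a) hρ hx
    have h6 := h.domR
    unfold Gd at hg
    obtain ⟨s, hs⟩ : ∃ s, s = ∑ j ∈ Finset.univ.erase (0 : Fin (m+1)), (a j : ℝ) := ⟨_, rfl⟩
    rw [← hs] at h5 h6 hg
    have h7 := norm_nonneg (x 0)
    have h8 : (s + 2) * ‖x 0‖ ≤ a 0 * ‖x 0‖ := mul_le_mul_of_nonneg_right h6 h7
    have h9 : s * (ρ ^ (m+1) - 1) * ‖x 0‖ ≤ 1 / 2 * ‖x 0‖ := mul_le_mul_of_nonneg_right hg h7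
    rw [h3] at h2
    linarith
  refine ⟨h1, fun j => ?_⟩
  have h2 := norm_nonneg (cm t x 0)
  have h2' := norm_nonneg (x 0)
  rcases zero_or_succ j with h3 | ⟨j', h3, h4, h5⟩
  · rw [h3]
    simp only [Fin.val_zero, zero_add, pow_one]
    nlinarith
  · rw [h4, h.cmp.cm_succ h3, ← h4, ← h5]
    refine (hx j').trans ?_
    rw [pow_succ ρ ((j' : ℕ) + 1), mul_assoc]
    refine mul_le_mul_of_nonneg_left ?_ (by positivity)
    nlinarith

theorem decay_step (h : Cmp t a) (hρ : 1 < ρ) {x : Fin (m+1) → ℂ} {B : ℝ}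
    (hx : Bd ρ B x) (hy : ¬ Kn ρ (cm t x)) : Bd ρ (B / ρ) (cm t x) := by
  have hρ0 : 0 < ρ := by linarith
  have hs : ∀ j : Fin (m+1), j ≠ 0 → ‖cm t x j‖ ≤ ρ ^ (j : ℕ) * (B / ρ) := by
    intro j hj
    rcases zero_or_succ j with h3 | ⟨j', h3, h4, h5⟩
    · exact absurd h3 hj
    · rw [h4, h.cm_succ h3, ← h4, ← h5, pow_succ]
      refine (hx j').trans (le_of_eq ?_)
      field_simp
  intro j
  by_cases hj : j = 0
  · unfold Kn at hy
    push Not at hy
    obtain ⟨i, hi⟩ := hy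
    rw [hj]
    simp only [Fin.val_zero, pow_zero, one_mul]
    have h2 := norm_nonneg (cm t x 0)
    by_cases hi0 : i = 0
    · exfalso
      rw [hi0] at hi
      simp only [Fin.val_zero, zero_add, pow_one] at hi
      nlinarith
    · have h3 := hi.trans_le (hs i hi0)
      rw [pow_succ, mul_assoc] at h3
      have h4 := lt_of_mul_lt_mul_left h3 (by positivity)
      nlinarith
  · exact hs j hj

end step

section lists
variable {ρ : ℝ}

/-- the constant is adapted to the list -/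
def GdL (ρ : ℝ) (l : List (Fin (m+1) → List (Fin (m+1)))) : Prop :=
  ∀ t ∈ l, ∃ a, Dm t a ∧ Gd ρ a

theorem GdL.tail {t : Fin (m+1) → List (Fin (m+1))} {l : List (Fin (m+1) → List (Fin (m+1)))}
    (h : GdL ρ (t :: l)) : GdL ρ l := fun t' h' => h t' (List.mem_cons_of_mem _ h')

theorem cone_list (hρ : 1 < ρ) {l : List (Fin (m+1) → List (Fin (m+1)))} (hl : GdL ρ l)
    {x : Fin (m+1) → ℂ} (hx : Kn ρ x) : Kn ρ (cm (compList l) x) := by
  induction l with
  | nil => rw [cm_id]; exact hx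
  | cons t l ih =>
    obtain ⟨a, ha, hg⟩ := hl t (List.mem_cons_self ..)
    rw [cm_cons]
    exact (cone_step ha hρ hg (ih hl.tail)).2

theorem decay_list (hρ : 1 < ρ) {l : List (Fin (m+1) → List (Fin (m+1)))} (hl : GdL ρ l)
    {x : Fin (m+1) → ℂ} {B : ℝ} (hx : Bd ρ B x) :
    Kn ρ (cm (compList l) x) ∨ Bd ρ (B / ρ ^ l.length) (cm (compList l) x) := by
  have hρ0 : 0 < ρ := by linarith
  induction l with
  | nil =>
    right
    rw [cm_id]
    simpa using hx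
  | cons t l ih =>
    obtain ⟨a, ha, hg⟩ := hl t (List.mem_cons_self ..)
    rw [cm_cons]
    rcases ih hl.tail with h | h
    · left; exact (cone_step ha hρ hg h).2
    · by_cases hc : Kn ρ (cm t (cm (compList l) x))
      · exact Or.inl hc
      · right
        have := decay_step ha.cmp hρ (B := B / ρ ^ l.length) h hc
        rwa [div_div, ← pow_succ] at this

theorem Bd.mono (hρ : 1 < ρ) {x : Fin (m+1) → ℂ} {B B' : ℝ} (hx : Bd ρ B x) (hB : B ≤ B') :
    Bd ρ B' x := by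
  intro j
  have hρ0 : 0 < ρ := by linarith
  exact (hx j).trans (mul_le_mul_of_nonneg_left hB (by positivity))

theorem decay_iter (hρ : 1 < ρ) {l : List (Fin (m+1) → List (Fin (m+1)))} (hne : l ≠ [])
    (hl : GdL ρ l) (w : ℕ → Fin (m+1) → ℂ) (hw : ∀ n, cm (compList l) (w (n+1)) = w n) (n : ℕ)
    {B : ℝ} (hB : 0 ≤ B) (hx : Bd ρ B (w n)) : Kn ρ (w 0) ∨ Bd ρ (B / ρ ^ n) (w 0) := by
  have hρ0 : 0 < ρ := by linarith
  have hlen : 1 ≤ l.length := List.length_pos_iff.2 hne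
  induction n generalizing B with
  | zero => right; simpa using hx
  | succ n ih =>
    have h1 := decay_list hρ hl hx
    rw [hw] at h1
    rcases h1 with h | h
    · left
      clear ih hx
      induction n with
      | zero => exact h
      | succ n ih2 =>
        refine ih2 ?_
        rw [← hw]
        exact cone_list hρ hl h
    · have h2 : Bd ρ (B / ρ) (w n) := by
        refine h.mono hρ ?_
        refine div_le_div_of_nonneg_left hB hρ0 ?_
        exact le_self_pow₀ hρ.le (by omega)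
      rcases ih (B := B / ρ) (by positivity) h2 with h3 | h3
      · exact Or.inl h3
      · right
        rwa [div_div, ← pow_succ'] at h3

theorem cone_or_zero (hρ : 1 < ρ) {l : List (Fin (m+1) → List (Fin (m+1)))} (hne : l ≠ [])
    (hl : GdL ρ l) (w : ℕ → Fin (m+1) → ℂ) (hw : ∀ n, cm (compList l) (w (n+1)) = w n)
    {C : ℝ} (hC : 0 ≤ C) (hwC : ∀ n j, ‖w n j‖ ≤ C * (n + 1)) : Kn ρ (w 0) ∨ w 0 = 0 := by
  have hρ0 : 0 < ρ := by linarith
  by_cases hK : Kn ρ (w 0)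
  · exact Or.inl hK
  right
  have h1 : ∀ n : ℕ, Bd ρ (C * (n + 1) / ρ ^ n) (w 0) := by
    intro n
    rcases decay_iter hρ hne hl w hw n (B := C * (n + 1)) (by positivity) (fun j => by
      refine (hwC n j).trans ?_
      have h2 : 1 ≤ ρ ^ (j : ℕ) := one_le_pow₀ hρ.le
      have h3 : 0 ≤ C * ((n : ℝ) + 1) := by positivity
      nlinarith) with h | h
    · exact absurd h hK
    · exact h
  have h2 : Filter.Tendsto (fun n : ℕ => C * ((n : ℝ) + 1) / ρ ^ n) Filter.atTop (nhds 0) := by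
    have h3 := tendsto_pow_const_div_const_pow_of_one_lt 1 hρ
    have h4 := tendsto_pow_const_div_const_pow_of_one_lt 0 hρ
    have h5 := (h3.add h4).const_mul C
    simp only [add_zero, mul_zero] at h5
    refine h5.congr fun n => ?_
    rw [pow_one, pow_zero]
    ring
  funext j
  have h3 : ‖w 0 j‖ ≤ ρ ^ (j : ℕ) * 0 := by
    refine le_of_tendsto_of_tendsto' tendsto_const_nhds (h2.const_mul (ρ ^ (j : ℕ))) fun n => ?_
    exact h1 n j
  rw [mul_zero] at h3
  simpa using le_antisymm h3 (norm_nonneg _)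

/-- the backward orbit of `x` modulo `u` -/
noncomputable def bt (ν μ α : ℂ) : ℕ → ℂ
  | 0 => 0
  | n + 1 => (bt ν μ α n - α * (ν⁻¹) ^ (n + 1)) / μ

theorem bt_bound {ν μ α : ℂ} (hν : 1 ≤ ‖ν‖) (hμ : 1 ≤ ‖μ‖) (n : ℕ) :
    ‖bt ν μ α n‖ ≤ n * ‖α‖ := by
  induction n with
  | zero => simp [bt]
  | succ n ih =>
    simp only [bt]
    rw [norm_div, div_le_iff₀ (by linarith)]
    have h1 : ‖(ν⁻¹) ^ (n + 1)‖ ≤ 1 := by
      rw [norm_pow, norm_inv]
      exact pow_le_one₀ (by positivity) (inv_le_one_of_one_le₀ hν)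
    have h2 : ‖bt ν μ α n - α * (ν⁻¹) ^ (n + 1)‖ ≤ n * ‖α‖ + ‖α‖ := by
      refine (norm_sub_le _ _).trans (add_le_add ih ?_)
      rw [norm_mul]
      exact mul_le_of_le_one_right (norm_nonneg _) h1
    have h3 : 0 ≤ (n : ℝ) * ‖α‖ + ‖α‖ := by positivity
    push_cast
    nlinarith

theorem key_backward {ρ : ℝ} (T : (Fin (m+1) → ℂ) → (Fin (m+1) → ℂ))
    (hadd : ∀ x y, T (x + y) = T x + T y) (hsmul : ∀ (c : ℂ) x, T (c • x) = c • T x)
    (hT : ∀ w : ℕ → Fin (m+1) → ℂ, (∀ n, T (w (n+1)) = w n) → ∀ C : ℝ, 0 ≤ C →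
      (∀ n j, ‖w n j‖ ≤ C * (n + 1)) → Kn ρ (w 0) ∨ w 0 = 0)
    (ν μ α : ℂ) (u x : Fin (m+1) → ℂ) (hν : 1 ≤ ‖ν‖) (hμ : 1 ≤ ‖μ‖) (hu : T u = μ • u)
    (hx : T x = ν • x + α • u) : Kn ρ x ∨ x = 0 := by
  have hν0 : ν ≠ 0 := by
    rintro rfl
    rw [norm_zero] at hν
    linarith
  have hμ0 : μ ≠ 0 := by
    rintro rfl
    rw [norm_zero] at hμ
    linarith
  obtain ⟨C, hC⟩ : ∃ C : ℝ, C = ∑ j, ‖x j‖ + ‖α‖ * ∑ j, ‖u j‖ := ⟨_, rfl⟩
  have hC0 : 0 ≤ C := by rw [hC]; positivity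
  have := hT (fun n => (ν⁻¹) ^ n • x + bt ν μ α n • u) (fun n => ?_) C hC0 (fun n j => ?_)
  · simpa [bt] using this
  · rw [hadd, hsmul, hsmul, hu, hx]
    funext j
    simp only [Pi.add_apply, Pi.smul_apply, smul_eq_mul, bt]
    have h1 : ν * ν⁻¹ = 1 := mul_inv_cancel₀ hν0
    have h2 : ∀ q : ℂ, q / μ * (μ * u j) = q * u j := fun q => by field_simp
    rw [h2, pow_succ]
    linear_combination (ν⁻¹ ^ n * x j) * h1
  · simp only [Pi.add_apply, Pi.smul_apply, smul_eq_mul]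
    have h1 : ‖(ν⁻¹) ^ n‖ ≤ 1 := by
      rw [norm_pow, norm_inv]
      exact pow_le_one₀ (by positivity) (inv_le_one_of_one_le₀ hν)
    have h2 : ‖x j‖ ≤ ∑ j, ‖x j‖ :=
      Finset.single_le_sum (f := fun j => ‖x j‖) (fun _ _ => norm_nonneg _) (Finset.mem_univ j)
    have h3 : ‖u j‖ ≤ ∑ j, ‖u j‖ :=
      Finset.single_le_sum (f := fun j => ‖u j‖) (fun _ _ => norm_nonneg _) (Finset.mem_univ j)
    have h4 := bt_bound (α := α) hν hμ n
    obtain ⟨X, hX⟩ : ∃ X, X = ∑ j, ‖x j‖ := ⟨_, rfl⟩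
    obtain ⟨U, hU⟩ : ∃ U, U = ∑ j, ‖u j‖ := ⟨_, rfl⟩
    rw [← hX] at h2 hC
    rw [← hU] at h3 hC
    have hX0 : 0 ≤ X := (norm_nonneg _).trans h2
    have hU0 : 0 ≤ U := (norm_nonneg _).trans h3
    calc ‖(ν⁻¹) ^ n * x j + bt ν μ α n * u j‖ ≤ ‖(ν⁻¹) ^ n‖ * ‖x j‖ + ‖bt ν μ α n‖ * ‖u j‖ := by
          refine (norm_add_le _ _).trans ?_
          rw [norm_mul, norm_mul]
      _ ≤ 1 * X + n * ‖α‖ * U := by
          refine add_le_add (mul_le_mul h1 h2 (norm_nonneg _) zero_le_one)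
            (mul_le_mul h4 h3 (norm_nonneg _) (by positivity))
      _ ≤ C * (n + 1) := by
          rw [hC]
          have h5 : 0 ≤ (n : ℝ) * X := by positivity
          have h6 : 0 ≤ ‖α‖ * U := by positivity
          nlinarith

end lists

theorem exists_rho (A : ℝ) (m : ℕ) : ∃ ρ : ℝ, 1 < ρ ∧ A * (ρ ^ (m+1) - 1) ≤ 1 / 2 := by
  have h1 : Filter.Tendsto (fun ρ : ℝ => A * (ρ ^ (m+1) - 1)) (nhdsWithin 1 (Set.Ioi 1))
      (nhds 0) := by
    have h2 : Filter.Tendsto (fun ρ : ℝ => A * (ρ ^ (m+1) - 1)) (nhds 1)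
        (nhds (A * (1 ^ (m+1) - 1))) := by
      apply Continuous.tendsto
      fun_prop
    rw [one_pow, sub_self, mul_zero] at h2
    exact h2.mono_left nhdsWithin_le_nhds
  have h2 := h1.eventually (gt_mem_nhds (show (0:ℝ) < 1 / 2 by norm_num))
  obtain ⟨ρ, h3, h4⟩ := (h2.and self_mem_nhdsWithin).exists
  exact ⟨ρ, h4, h3.le⟩

theorem exists_rho_list (l : List (Fin (m+1) → List (Fin (m+1)))) (hl : DmL l) :
    ∃ ρ : ℝ, 1 < ρ ∧ GdL ρ l := by
  obtain ⟨A, hA⟩ : ∃ A : ℝ, ∀ t ∈ l, ∃ a, Dm t a ∧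
      ∑ j ∈ Finset.univ.erase (0 : Fin (m+1)), (a j : ℝ) ≤ A := by
    induction l with
    | nil => exact ⟨0, fun t ht => by simp at ht⟩
    | cons t l ih =>
      obtain ⟨A, hA⟩ := ih fun t' h' => hl t' (List.mem_cons_of_mem _ h')
      obtain ⟨a, ha⟩ := hl t (List.mem_cons_self ..)
      refine ⟨max A (∑ j ∈ Finset.univ.erase (0 : Fin (m+1)), (a j : ℝ)), fun t' h' => ?_⟩
      rcases List.mem_cons.1 h' with h | h
      · rw [h]
        exact ⟨a, ha, le_max_right _ _⟩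
      · obtain ⟨b, hb1, hb2⟩ := hA t' h
        exact ⟨b, hb1, hb2.trans (le_max_left _ _)⟩
  obtain ⟨ρ, hρ, hρA⟩ := exists_rho A m
  refine ⟨ρ, hρ, fun t ht => ?_⟩
  obtain ⟨a, ha1, ha2⟩ := hA t ht
  refine ⟨a, ha1, ?_⟩
  unfold Gd
  have h1 : 1 ≤ ρ ^ (m+1) := one_le_pow₀ hρ.le
  exact (mul_le_mul_of_nonneg_right ha2 (by linarith)).trans hρA

theorem real_list {ρ : ℝ} (hρ : 1 < ρ) {l : List (Fin (m+1) → List (Fin (m+1)))} (hl : GdL ρ l)
    (y : Fin (m+1) → ℝ) (hx : Kn ρ (cr y)) (hy : 0 < y 0) :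
    ∃ y' : Fin (m+1) → ℝ, cm (compList l) (cr y) = cr y' ∧ (3/2) ^ l.length * y 0 ≤ y' 0 := by
  induction l with
  | nil => exact ⟨y, cm_id _, by simp⟩
  | cons t l ih =>
    obtain ⟨a, ha, hg⟩ := hl t (List.mem_cons_self ..)
    obtain ⟨y1, h1, h2⟩ := ih hl.tail
    have h3 := cone_list hρ hl.tail hx
    rw [h1] at h3
    have h4 : 0 < y1 0 := lt_of_lt_of_le (by positivity) h2
    refine ⟨fun i => ∑ j, ((inc t i j : ℤ) : ℝ) * y1 j, ?_, ?_⟩
    · rw [cm_cons, h1]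
      funext i
      simp [cm, cr, Matrix.mulVec, dotProduct]
    · simp only
      have h5 : ∑ j, ((inc t 0 j : ℤ) : ℝ) * y1 j = ∑ j, (a j : ℝ) * y1 j := by
        refine Finset.sum_congr rfl fun j _ => ?_
        rw [ha.cmp.inc_zero ha.last]
        push_cast
        ring
      rw [h5, ← Finset.add_sum_erase _ _ (Finset.mem_univ (0 : Fin (m+1)))]
      have h6 := tail_bound (a := a) hρ h3
      have hn : ∀ j, ‖cr y1 j‖ = |y1 j| := fun j => by
        unfold cr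
        rw [Complex.norm_real, Real.norm_eq_abs]
      simp only [hn] at h6
      rw [abs_of_pos h4] at h6
      have h7 : -∑ j ∈ Finset.univ.erase (0 : Fin (m+1)), (a j : ℝ) * y1 j ≤
          ∑ j ∈ Finset.univ.erase (0 : Fin (m+1)), (a j : ℝ) * |y1 j| := by
        rw [← Finset.sum_neg_distrib]
        refine Finset.sum_le_sum fun j _ => ?_
        rw [← mul_neg]
        exact mul_le_mul_of_nonneg_left (neg_le_abs _) (Nat.cast_nonneg _)
      have h8 := ha.domR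
      unfold Gd at hg
      obtain ⟨s, hs⟩ : ∃ s, s = ∑ j ∈ Finset.univ.erase (0 : Fin (m+1)), (a j : ℝ) := ⟨_, rfl⟩
      rw [← hs] at h6 h8 hg
      have h9 : (s + 2) * y1 0 ≤ a 0 * y1 0 := mul_le_mul_of_nonneg_right h8 h4.le
      have h10 : s * (ρ ^ (m+1) - 1) * y1 0 ≤ 1 / 2 * y1 0 := mul_le_mul_of_nonneg_right hg h4.le
      rw [List.length_cons, pow_succ]
      nlinarith

theorem det_list {l : List (Fin (m+1) → List (Fin (m+1)))} (hl : ∀ t ∈ l, IsUnit (inc t).det) :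
    IsUnit (inc (compList l)).det := by
  induction l with
  | nil =>
    simp only [compList]
    rw [JComp_inc_id, Matrix.det_one]
    exact isUnit_one
  | cons t l ih =>
    simp only [compList]
    rw [inc_comp, Matrix.det_mul]
    exact (hl t (List.mem_cons_self ..)).mul (ih fun t' h' => hl t' (List.mem_cons_of_mem _ h'))

theorem cm_eq_mc (l : List (Fin (m+1) → List (Fin (m+1)))) (x : Fin (m+1) → ℂ) :
    cm (compList l) x = mc (inc (compList l)) x := rfl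

theorem dom_pisot {l : List (Fin (m+1) → List (Fin (m+1)))} (hne : l ≠ []) (hD : DmL l) :
    PisotMat (inc (compList l)) := by
  obtain ⟨ρ, hρ, hG⟩ := exists_rho_list l hD
  have hdetu : IsUnit (inc (compList l)).det := by
    refine det_list fun t ht => ?_
    obtain ⟨a, ha⟩ := hD t ht
    exact ha.cmp.det ha.last
  have hdet : (inc (compList l)).det = 1 ∨ (inc (compList l)).det = -1 := Int.isUnit_iff.1 hdetu
  have hkey : ∀ (ν μ α : ℂ) (u x : Fin (m+1) → ℂ), 1 ≤ ‖ν‖ → 1 ≤ ‖μ‖ →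
      mc (inc (compList l)) u = μ • u → mc (inc (compList l)) x = ν • x + α • u →
      Kn ρ x ∨ x = 0 := by
    intro ν μ α u x hν hμ hu hx
    refine key_backward (mc (inc (compList l))) (mc_add _) (mc_smul _) ?_ ν μ α u x hν hμ hu hx
    intro w hw C hC hwC
    exact cone_or_zero hρ hne hG w hw hC hwC
  obtain ⟨h1, h2⟩ := pisIrr_of_key (inc (compList l)) (by
      rcases hdet with h | h <;> rw [h] <;> norm_num)
    (fun ν μ α u x hν hμ hu hx hx0 => by
      rcases hkey ν μ α u x hν hμ hu hx with h | h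
      · funext j
        have := h j
        rw [hx0, norm_zero, mul_zero] at this
        simpa using le_antisymm this (norm_nonneg _)
      · exact h)
    (fun lam y hlam hy hy0 => by
      have hn : ‖((lam : ℝ) : ℂ)‖ = |lam| := by rw [Complex.norm_real, Real.norm_eq_abs]
      have hK : Kn ρ (cr y) := by
        rcases hkey lam lam 0 (cr y) (cr y) (by rw [hn]; exact hlam) (by rw [hn]; exact hlam) hy
          (by rw [hy, zero_smul, add_zero]) with h | h
        · exact h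
        · exfalso
          have := congrFun h 0
          simp only [cr, Pi.zero_apply] at this
          have h3 : y 0 = 0 := by exact_mod_cast this
          linarith
      obtain ⟨y', h3, h4⟩ := real_list hρ hG y hK hy0
      rw [cm_eq_mc, hy] at h3
      have h5 := congrFun h3 0
      simp only [cr, Pi.smul_apply, smul_eq_mul] at h5
      have h6 : lam * y 0 = y' 0 := by exact_mod_cast h5
      have h7 : (3 / 2 : ℝ) ≤ (3 / 2) ^ l.length := by
        have hlen : l.length ≠ 0 := fun h => hne (List.length_eq_zero_iff.1 h)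
        exact le_self_pow₀ (by norm_num) hlen
      nlinarith)
  exact ⟨h1, hdet, h2⟩

end Pool.Agent.Helper65K9.PSC
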