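import Pool.Agent.Helper65K9.PSC.Dec
import Pool.Agent.Helper65K9.PSC.DomPis

/-!
The companion matrix of a vector with nonincreasing entries is unimodular, irreducible and Pisot.
-/

set_option autoImplicit false

namespace Pool.Agent.Helper65K9.PSC
open Pool.Agent.H812R2.PI Pool.Agent.Y316.Pisot
open scoped BigOperators

variable {m : ℕ}

theorem eq_one_of {ν : ℂ} {s : ℝ} (hν : 1 ≤ ‖ν‖) (hs0 : s < 1)
    (h : ‖ν - (1 - s : ℝ)‖ ≤ s) : ν = 1 := by
  have h1 : 1 ≤ ν.re ^ 2 + ν.im ^ 2 := by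
    have h2 : ‖ν‖ ^ 2 = ν.re ^ 2 + ν.im ^ 2 := by
      rw [← Complex.normSq_eq_norm_sq, Complex.normSq_apply]; ring
    rw [← h2]
    exact one_le_pow₀ hν
  have hs : 0 ≤ s := (norm_nonneg _).trans h
  have h3 : (ν.re - (1 - s)) ^ 2 + ν.im ^ 2 ≤ s ^ 2 := by
    have h2 : ‖ν - (1 - s : ℝ)‖ ^ 2 = (ν.re - (1 - s)) ^ 2 + ν.im ^ 2 := by
      rw [← Complex.normSq_eq_norm_sq, Complex.normSq_apply]
      simp only [Complex.sub_re, Complex.ofReal_re, Complex.sub_im, Complex.ofReal_im, sub_zero]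
      ring
    rw [← h2]
    exact pow_le_pow_left₀ (norm_nonneg _) h 2
  have h4 : 1 ≤ ν.re := by
    have h5 : 0 ≤ (1 - s) * (ν.re - 1) := by nlinarith
    have h6 := nonneg_of_mul_nonneg_right h5 (by linarith)
    linarith
  have h5 : ν.re ≤ 1 := by
    have h6 : (ν.re - (1 - s)) ^ 2 ≤ s ^ 2 := by nlinarith [sq_nonneg ν.im]
    have h7 := abs_le_of_sq_le_sq h6 hs
    linarith [(abs_le.1 h7).2]
  have h6 : ν.re = 1 := le_antisymm h5 h4
  have h7 : ν.im ^ 2 ≤ 0 := by
    rw [h6] at h3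
    nlinarith
  have h8 : ν.im = 0 := by
    have := le_antisymm h7 (sq_nonneg _)
    exact pow_eq_zero_iff (two_ne_zero) |>.1 this
  exact Complex.ext (by simpa using h6) (by simpa using h8)

/-- a version of the theorem of Eneström and Kakeya -/
theorem ek_seq (E : ℕ → ℝ) (m : ℕ) (X : ℕ → ℂ) (ν : ℂ) (hE : ∀ j, E (j+1) ≤ E j) (hE0 : E 0 = 1)
    (hE1 : E 1 < 1) (hEn : ∀ j, 0 ≤ E j) (hEm : E (m+1) = 0) (hν : 1 ≤ ‖ν‖)
    (hX : ∀ j < m, X j = ν * X (j+1))
    (hS : ∑ j ∈ Finset.range (m+1), (E j : ℂ) * X j = 0) : X 0 = 0 := by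
  by_contra h0
  have hnorm : ∀ j, j ≤ m → ‖X j‖ ≤ ‖X 0‖ := by
    intro j
    induction j with
    | zero => intro _; exact le_rfl
    | succ j ih =>
      intro hj
      have h1 := ih (by omega)
      have h2 := hX j (by omega)
      rw [h2, norm_mul] at h1
      have h3 : ‖X (j+1)‖ ≤ ‖ν‖ * ‖X (j+1)‖ := le_mul_of_one_le_left (norm_nonneg _) hν
      linarith
  have h1 : ν * X 0 + ∑ j ∈ Finset.range m, (E (j+1) : ℂ) * X j = 0 := by
    have h2 : ν * ∑ j ∈ Finset.range (m+1), (E j : ℂ) * X j = 0 := by rw [hS, mul_zero]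
    rw [Finset.sum_range_succ', mul_add, hE0, Finset.mul_sum] at h2
    have h3 : ∀ j ∈ Finset.range m, ν * ((E (j+1) : ℂ) * X (j+1)) = (E (j+1) : ℂ) * X j := by
      intro j hj
      rw [hX j (Finset.mem_range.1 hj)]; ring
    rw [Finset.sum_congr rfl h3] at h2
    push_cast at h2
    linear_combination h2
  have h2 : ν * X 0 = ∑ j ∈ Finset.range (m+1), ((E j : ℂ) - E (j+1)) * X j := by
    have h3 : ∑ j ∈ Finset.range (m+1), ((E j : ℂ) - E (j+1)) * X j =
        ∑ j ∈ Finset.range (m+1), (E j : ℂ) * X j -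
        ∑ j ∈ Finset.range (m+1), (E (j+1) : ℂ) * X j := by
      rw [← Finset.sum_sub_distrib]
      exact Finset.sum_congr rfl fun j _ => by ring
    rw [h3, hS, Finset.sum_range_succ, hEm]
    push_cast
    linear_combination h1
  have h3 : (ν - (1 - E 1 : ℝ)) * X 0 =
      ∑ j ∈ Finset.range m, ((E (j+1) : ℂ) - E (j+2)) * X (j+1) := by
    rw [Finset.sum_range_succ', hE0] at h2
    push_cast at h2 ⊢
    linear_combination h2
  have h4 : ‖ν - (1 - E 1 : ℝ)‖ * ‖X 0‖ ≤ E 1 * ‖X 0‖ := by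
    rw [← norm_mul, h3]
    refine (norm_sum_le _ _).trans ?_
    have h5 : ∀ j ∈ Finset.range m, ‖((E (j+1) : ℂ) - E (j+2)) * X (j+1)‖ ≤
        (E (j+1) - E (j+2)) * ‖X 0‖ := by
      intro j hj
      rw [norm_mul]
      have h6 : ‖(E (j+1) : ℂ) - E (j+2)‖ = E (j+1) - E (j+2) := by
        rw [← Complex.ofReal_sub, Complex.norm_real, Real.norm_eq_abs,
          abs_of_nonneg (by linarith [hE (j+1)])]
      rw [h6]
      have := Finset.mem_range.1 hj
      exact mul_le_mul_of_nonneg_left (hnorm (j+1) (by omega)) (by linarith [hE (j+1)])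
    refine (Finset.sum_le_sum h5).trans ?_
    rw [← Finset.sum_mul]
    refine mul_le_mul_of_nonneg_right ?_ (norm_nonneg _)
    have h6 : ∑ j ∈ Finset.range m, (E (j+1) - E (j+2)) = E 1 - E (m+1) := by
      have := Finset.sum_range_sub' (fun j => E (j+1)) m
      simpa using this
    rw [h6, hEm, sub_zero]
  have h5 : ν = 1 := eq_one_of hν hE1 (le_of_mul_le_mul_right h4 (norm_pos_iff.2 h0))
  have h6 : ∀ j, j ≤ m → X j = X 0 := by
    intro j
    induction j with
    | zero => intro _; rfl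
    | succ j ih =>
      intro hj
      rw [← ih (by omega), hX j (by omega), h5, one_mul]
  have h7 : (((∑ j ∈ Finset.range (m+1), E j : ℝ)) : ℂ) * X 0 = 0 := by
    rw [← hS]
    push_cast
    rw [Finset.sum_mul]
    refine Finset.sum_congr rfl fun j hj => ?_
    have := Finset.mem_range.1 hj
    rw [h6 j (by omega)]
  rcases mul_eq_zero.1 h7 with h8 | h8
  · have h9 : ∑ j ∈ Finset.range (m+1), E j = 0 := by exact_mod_cast h8
    have h10 : E 0 ≤ ∑ j ∈ Finset.range (m+1), E j :=
      Finset.single_le_sum (f := E) (fun j _ => hEn j) (Finset.mem_range.2 (Nat.succ_pos m))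
    rw [h9, hE0] at h10
    linarith
  · exact h0 h8

theorem Ctx.El_one_lt (C : Ctx m) : C.El 1 < 1 := by
  have h1 := C.El_rec 1
  have h2 := C.El_le_one 2
  have h3 := C.gap
  have h4 := C.β_ge
  have h5 : (C.A 1 : ℝ) + 3 ≤ C.A 0 := by exact_mod_cast h3
  have h6 : C.β * C.El 1 < C.β * 1 := by
    rw [h1, mul_one]
    linarith
  exact lt_of_mul_lt_mul_left h6 (by linarith [C.β_gt])

theorem Ctx.El_fin (C : Ctx m) (j : Fin (m+1)) : C.El j = C.e j := by
  unfold Ctx.El
  rw [En_fin, hh_ev]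

/-- eigenvectors for eigenvalues different from `β` -/
theorem Ctx.ek (C : Ctx m) {x : Fin (m+1) → ℂ} {ν : ℂ} (hν : 1 ≤ ‖ν‖)
    (hs : ∀ j : Fin (m+1), j ≠ Fin.last m → x j = ν * x (j+1))
    (h0 : ∑ j : Fin (m+1), (C.A j : ℂ) * x j = ν * x 0) (hne : ν ≠ C.β) : x 0 = 0 := by
  obtain ⟨X, hX⟩ : ∃ X : ℕ → ℂ, X = fun j => if h : j < m + 1 then x ⟨j, h⟩ else 0 := ⟨_, rfl⟩
  have hXf : ∀ j : Fin (m+1), X j = x j := by
    intro j
    rw [hX]
    simp only [dif_pos j.2]
  have hX1 : ∀ j < m, X j = ν * X (j+1) := by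
    intro j hj
    have h1 := hs ⟨j, by omega⟩ (by
      intro h
      have := congrArg Fin.val h
      simp at this
      omega)
    have h2 := hXf ⟨j, by omega⟩
    have h3 := hXf (⟨j, by omega⟩ + 1)
    have h4 : (((⟨j, by omega⟩ : Fin (m+1)) + 1 : Fin (m+1)) : ℕ) = j + 1 := by
      rw [Fin.val_add_one_of_lt]
      rw [Fin.lt_def]
      simpa using hj
    rw [h4] at h3
    simp only at h2
    rw [h2, h3, h1]
  have hX0 : ∑ j ∈ Finset.range (m+1), (C.A j : ℂ) * X j = ν * X 0 := by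
    rw [← Fin.sum_univ_eq_sum_range (fun j => (C.A j : ℂ) * X j) (m+1)]
    have h1 := hXf 0
    simp only [Fin.val_zero] at h1
    rw [h1, ← h0]
    exact Finset.sum_congr rfl fun j _ => by rw [hXf]
  obtain ⟨S, hS⟩ : ∃ S, S = ∑ j ∈ Finset.range (m+1), (C.El j : ℂ) * X j := ⟨_, rfl⟩
  have hE0 := C.El_zero
  have hEm : C.El (m+1) = 0 := C.El_big (by omega)
  have h1 : (C.β : ℂ) * S = ν * S := by
    have h2 : (C.β : ℂ) * S = ∑ j ∈ Finset.range (m+1), (C.A j : ℂ) * X j +
        ∑ j ∈ Finset.range (m+1), (C.El (j+1) : ℂ) * X j := by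
      rw [hS, Finset.mul_sum, ← Finset.sum_add_distrib]
      refine Finset.sum_congr rfl fun j _ => ?_
      have h3 := C.El_rec j
      have h4 : (C.β : ℂ) * (C.El j : ℂ) = C.A j + C.El (j+1) := by
        rw [← Complex.ofReal_mul, h3]
        push_cast
        rfl
      rw [← mul_assoc, h4]
      ring
    rw [h2, hX0, Finset.sum_range_succ, hEm, hS, Finset.sum_range_succ', hE0, mul_add,
      Finset.mul_sum]
    have h3 : ∀ j ∈ Finset.range m, ν * ((C.El (j+1) : ℂ) * X (j+1)) =
        (C.El (j+1) : ℂ) * X j := by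
      intro j hj
      rw [hX1 j (Finset.mem_range.1 hj)]; ring
    rw [Finset.sum_congr rfl h3]
    push_cast
    ring
  have h2 : S = 0 := by
    have h3 : ((C.β : ℂ) - ν) * S = 0 := by rw [sub_mul, h1, sub_self]
    rcases mul_eq_zero.1 h3 with h4 | h4
    · exact absurd (sub_eq_zero.1 h4).symm hne
    · exact h4
  have h3 := ek_seq C.El m X ν C.El_anti hE0 C.El_one_lt C.El_nonneg hEm hν hX1 (by
    rw [← hS]; exact h2)
  have h4 := hXf 0
  simp only [Fin.val_zero] at h4
  rw [← h4]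
  exact h3

theorem zero_of_first {x : Fin (m+1) → ℂ} {ν : ℂ} (hν : 1 ≤ ‖ν‖)
    (hs : ∀ j : Fin (m+1), j ≠ Fin.last m → x j = ν * x (j+1)) (h0 : x 0 = 0) : x = 0 := by
  have hν0 : ν ≠ 0 := by
    rintro rfl
    rw [norm_zero] at hν
    linarith
  have h1 : ∀ n : ℕ, ∀ j : Fin (m+1), (j : ℕ) = n → x j = 0 := by
    intro n
    induction n with
    | zero =>
      intro j hj
      have : j = 0 := Fin.ext (by simpa using hj)
      rw [this, h0]
    | succ n ih =>
      intro j hj
      rcases zero_or_succ j with h2 | ⟨j', h3, h4, h5⟩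
      · rw [h2, h0]
      · have h6 := hs j' h3
        rw [ih j' (by omega), ← h4] at h6
        rcases mul_eq_zero.1 h6.symm with h7 | h7
        · exact absurd h7 hν0
        · exact h7
  funext j
  exact h1 _ j rfl

theorem dec_pisIrr {a : Fin (m+1) → ℕ} (h : DC a) {τ : Fin (m+1) → List (Fin (m+1))}
    (hτ : IsCompanion a τ) : PisotMat (inc τ) := by
  obtain ⟨C, hCM, hCA⟩ := h.exists_ctx
  have hcmp : Cmp τ a := hτ.cmp h.last
  have hdetu : IsUnit (inc τ).det := hcmp.det h.last
  have hdet : (inc τ).det = 1 ∨ (inc τ).det = -1 := Int.isUnit_iff.1 hdetu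
  have hsucc : ∀ (x : Fin (m+1) → ℂ) (j : Fin (m+1)), j ≠ Fin.last m →
      mc (inc τ) x (j + 1) = x j := fun x j hj => hcmp.cm_succ hj x
  have hzero : ∀ x : Fin (m+1) → ℂ, mc (inc τ) x 0 = ∑ j : Fin (m+1), (C.A j : ℂ) * x j := by
    intro x
    have h1 : mc (inc τ) x 0 = ∑ j, (a j : ℂ) * x j := hcmp.cm_zero h.last x
    rw [h1]
    refine Finset.sum_congr rfl fun j _ => ?_
    rw [hCA, An_fin]
  -- eigenvectors
  have hek : ∀ (x : Fin (m+1) → ℂ) (ν : ℂ), 1 ≤ ‖ν‖ → mc (inc τ) x = ν • x →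
      ν ≠ C.β → x = 0 := by
    intro x ν hν hx hne
    have hs : ∀ j : Fin (m+1), j ≠ Fin.last m → x j = ν * x (j+1) := by
      intro j hj
      have h1 := hsucc x j hj
      rw [hx] at h1
      simpa using h1.symm
    refine zero_of_first hν hs (C.ek hν hs ?_ hne)
    rw [← hzero, hx]
    simp
  have hek0 : ∀ (x : Fin (m+1) → ℂ) (ν : ℂ), 1 ≤ ‖ν‖ → mc (inc τ) x = ν • x →
      x 0 = 0 → x = 0 := by
    intro x ν hν hx h0
    refine zero_of_first hν (fun j hj => ?_) h0
    have h1 := hsucc x j hj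
    rw [hx] at h1
    simpa using h1.symm
  -- the functional
  obtain ⟨hc, hhc⟩ : ∃ hc : (Fin (m+1) → ℂ) → ℂ, hc = fun x => ∑ i, (C.e i : ℂ) * x i := ⟨_, rfl⟩
  have hcM : ∀ x, hc (mc (inc τ) x) = C.β * hc x := by
    intro x
    have hcol : ∀ j, ∑ i, (C.e i : ℂ) * ((inc τ i j : ℤ) : ℂ) = C.β * C.e j := by
      intro j
      have h1 := C.hM (ev j)
      rw [hCM, ← hτ.inc, hh_ev] at h1
      have h2 : ∀ i, (inc τ).mulVec (ev j) i = inc τ i j := by
        intro i
        simp [Matrix.mulVec, dotProduct, ev]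
      simp only [hh, h2] at h1
      have h3 : ((∑ i, C.e i * ((inc τ i j : ℤ) : ℝ) : ℝ) : ℂ) = ((C.β * C.e j : ℝ) : ℂ) := by
        rw [h1]
      push_cast at h3
      exact h3
    have hmc : ∀ i, mc (inc τ) x i = ∑ j, ((inc τ i j : ℤ) : ℂ) * x j := fun i => rfl
    have hcdef : ∀ x, hc x = ∑ i, (C.e i : ℂ) * x i := fun x => by rw [hhc]
    rw [hcdef, hcdef]
    simp only [hmc, Finset.mul_sum]
    rw [Finset.sum_comm]
    refine Finset.sum_congr rfl fun j _ => ?_
    rw [← mul_assoc, ← hcol j, Finset.sum_mul]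
    exact Finset.sum_congr rfl fun i _ => by ring
  have hcadd : ∀ x y, hc (x + y) = hc x + hc y := by
    intro x y
    rw [hhc]
    simp only [Pi.add_apply, mul_add, Finset.sum_add_distrib]
  have hcsmul : ∀ (c : ℂ) x, hc (c • x) = c * hc x := by
    intro c x
    rw [hhc]
    simp only [Pi.smul_apply, smul_eq_mul, Finset.mul_sum]
    exact Finset.sum_congr rfl fun i _ => by ring
  -- eigenvectors for `β` have nonzero height
  have hβn : 1 ≤ ‖(C.β : ℂ)‖ := by
    rw [Complex.norm_real, Real.norm_eq_abs, abs_of_pos (by linarith [C.β_gt])]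
    exact C.β_gt.le
  have hβh : ∀ u : Fin (m+1) → ℂ, mc (inc τ) u = (C.β : ℂ) • u → hc u = 0 → u = 0 := by
    intro u hu h0
    have hβ0 : (C.β : ℂ) ≠ 0 := by
      have := C.β_gt
      exact_mod_cast (by linarith : C.β ≠ 0)
    have hs : ∀ j : Fin (m+1), j ≠ Fin.last m → u j = C.β * u (j+1) := by
      intro j hj
      have h1 := hsucc u j hj
      rw [hu] at h1
      simpa using h1.symm
    have h1 : ∀ n : ℕ, ∀ j : Fin (m+1), (j : ℕ) = n → u j = ((C.β ^ n)⁻¹ : ℝ) * u 0 := by
      intro n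
      induction n with
      | zero =>
        intro j hj
        have : j = 0 := Fin.ext (by simpa using hj)
        rw [this]; simp
      | succ n ih =>
        intro j hj
        rcases zero_or_succ j with h2 | ⟨j', h3, h4, h5⟩
        · rw [h2] at hj; simp at hj
        · have h6 := hs j' h3
          rw [ih j' (by omega), ← h4] at h6
          push_cast at h6 ⊢
          rw [pow_succ, mul_inv]
          field_simp at h6 ⊢
          linear_combination -h6
    have h2 : (((∑ i : Fin (m+1), C.e i * (C.β ^ (i : ℕ))⁻¹ : ℝ)) : ℂ) * u 0 = 0 := by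
      rw [← h0, hhc]
      push_cast
      rw [Finset.sum_mul]
      refine Finset.sum_congr rfl fun i _ => ?_
      rw [h1 i i rfl]
      push_cast
      ring
    have h3 : 0 < ∑ i : Fin (m+1), C.e i * (C.β ^ (i : ℕ))⁻¹ := by
      refine Finset.sum_pos (fun i _ => mul_pos (C.e_pos i) ?_) ⟨0, Finset.mem_univ _⟩
      exact inv_pos.2 (pow_pos (by linarith [C.β_gt]) _)
    rcases mul_eq_zero.1 h2 with h4 | h4
    · exfalso
      have : ∑ i : Fin (m+1), C.e i * (C.β ^ (i : ℕ))⁻¹ = 0 := by exact_mod_cast h4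
      linarith
    · exact hek0 u _ hβn hu h4
  obtain ⟨h1, h2⟩ := pisIrr_of_key (inc τ) (by rcases hdet with h | h <;> rw [h] <;> norm_num)
    (fun ν μ α u x hν hμ hu hx hx0 => by
      by_cases hu0 : u = 0
      · rw [hu0, smul_zero, add_zero] at hx
        exact hek0 x ν hν hx hx0
      · have hμβ : μ = C.β := by
          by_contra hne
          exact hu0 (hek u μ hμ hu hne)
        by_cases hα : α = 0
        · rw [hα, zero_smul, add_zero] at hx
          exact hek0 x ν hν hx hx0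
        · exfalso
          rw [hμβ] at hu
          have hu1 : hc u ≠ 0 := fun h => hu0 (hβh u hu h)
          have h3 : (C.β : ℂ) * hc x = ν * hc x + α * hc u := by
            rw [← hcM, hx, hcadd, hcsmul, hcsmul]
          by_cases hνβ : ν = C.β
          · rw [hνβ] at h3
            have h4 : α * hc u = 0 := by linear_combination -h3
            rcases mul_eq_zero.1 h4 with h5 | h5
            · exact hα h5
            · exact hu1 h5
          · have hd : ν - C.β ≠ 0 := sub_ne_zero.2 hνβ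
            have h4 : x + (α / (ν - C.β)) • u = 0 := by
              refine hek _ ν hν ?_ hνβ
              rw [mc_add, mc_smul, hx, hu]
              funext j
              simp only [Pi.add_apply, Pi.smul_apply, smul_eq_mul]
              field_simp
              ring
            have h5 := congrFun h4 0
            simp only [Pi.add_apply, Pi.smul_apply, smul_eq_mul, Pi.zero_apply, hx0, zero_add] at h5
            rcases mul_eq_zero.1 h5 with h6 | h6
            · rcases div_eq_zero_iff.1 h6 with h7 | h7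
              · exact hα h7
              · exact hd h7
            · exact hu0 (hek0 u _ hβn hu h6))
    (fun lam y hlam hy hy0 => by
      have hn : ‖((lam : ℝ) : ℂ)‖ = |lam| := by rw [Complex.norm_real, Real.norm_eq_abs]
      by_contra hcon
      have h3 : (lam : ℂ) ≠ C.β := by
        intro h
        have h4 : lam = C.β := by exact_mod_cast h
        rw [h4] at hcon
        exact hcon C.β_gt
      have h4 := hek (cr y) lam (by rw [hn]; exact hlam) hy h3
      have h5 := congrFun h4 0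
      simp only [cr, Pi.zero_apply] at h5
      have h6 : y 0 = 0 := by exact_mod_cast h5
      linarith)
  exact ⟨h1, hdet, h2⟩

end Pool.Agent.Helper65K9.PSC
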