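import Pool.Agent.Helper65K9.PSC.Main

/-!
Compositions of companion substitutions with a dominating entry.
-/

set_option autoImplicit false

namespace Pool.Agent.Helper65K9.PSC
open Pool.Agent.H812R2.PI Pool.Agent.Y316.Pisot
open scoped BigOperators

variable {m : ℕ}

/-- the value at the next letter -/
def nx (φ : Fin (m+1) → ℝ) (j : Fin (m+1)) : ℝ := if j = Fin.last m then 0 else φ (j + 1)

/-- the sum of the values at the letters different from `0` -/
def sg (φ : Fin (m+1) → ℝ) : ℝ := ∑ i ∈ Finset.univ.erase (0 : Fin (m+1)), φ i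

theorem sg_add (φ : Fin (m+1) → ℝ) : φ 0 + sg φ = ∑ i, φ i :=
  Finset.add_sum_erase _ _ (Finset.mem_univ _)

theorem sum_succ_eq {M : Type*} [AddCommMonoid M] (f : Fin (m+1) → M) (g : Fin (m+1) → M)
    (h : ∀ j : Fin (m+1), j ≠ Fin.last m → g j = f (j + 1)) (h0 : g (Fin.last m) = 0) :
    ∑ j, g j = ∑ i ∈ Finset.univ.erase (0 : Fin (m+1)), f i := by
  have h1 : ∑ j, g j = ∑ j : Fin m, f j.succ := by
    rw [Fin.sum_univ_castSucc, h0, add_zero]
    refine Finset.sum_congr rfl fun j _ => ?_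
    rw [h _ (Fin.castSucc_lt_last j).ne]
    congr 1
    exact Fin.coeSucc_eq_succ
  have h2 : ∑ i ∈ Finset.univ.erase (0 : Fin (m+1)), f i = ∑ j : Fin m, f j.succ := by
    have h3 : (Finset.univ.erase (0 : Fin (m+1))) = Finset.univ.map (Fin.succEmb m) := by
      ext i
      simp only [Finset.mem_erase, Finset.mem_univ, and_true, Finset.mem_map, Fin.coe_succEmb,
        true_and]
      constructor
      · intro hi
        exact ⟨i.pred hi, Fin.succ_pred i hi⟩
      · rintro ⟨j, rfl⟩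
        exact Fin.succ_ne_zero j
    rw [h3, Finset.sum_map]
    rfl
  rw [h1, h2]

theorem sum_nx (φ : Fin (m+1) → ℝ) : ∑ j, nx φ j = sg φ := by
  refine sum_succ_eq φ (nx φ) (fun j hj => ?_) ?_
  · simp [nx, hj]
  · simp [nx]

theorem sg_nx (φ : Fin (m+1) → ℝ) : sg (nx φ) = sg φ - nx φ 0 := by
  have := sg_add (nx φ)
  rw [sum_nx] at this
  linarith

theorem nx_nonneg {φ : Fin (m+1) → ℝ} (hφ : ∀ i, 0 < φ i) (j : Fin (m+1)) : 0 ≤ nx φ j := by
  unfold nx
  split_ifs
  · exact le_rfl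
  · exact (hφ _).le

theorem Cmp.pull {t : Fin (m+1) → List (Fin (m+1))} {a : Fin (m+1) → ℕ} (h : Cmp t a)
    (ha : a (Fin.last m) = 1) (φ : Fin (m+1) → ℝ) (j : Fin (m+1)) :
    pull φ t j = a j * φ 0 + nx φ j := by
  change hh φ (ab (t j)) = _
  by_cases hj : j = Fin.last m
  · subst hj
    rw [h.last, ab_single, hh_ev, ha]
    simp [nx]
  · obtain ⟨p, q, hpq, h1⟩ := h.form j hj
    rw [h1, ab_append, ab_cons, hh_add, hh_add, hh_ev, hh_replicate, hh_replicate, ← hpq]
    simp only [nx, if_neg hj]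
    push_cast
    ring

/-- dominated companion substitutions -/
structure Dm (t : Fin (m+1) → List (Fin (m+1))) (a : Fin (m+1) → ℕ) : Prop where
  cmp : Cmp t a
  last : a (Fin.last m) = 1
  five : 5 ≤ a 0
  dom : ∑ j ∈ Finset.univ.erase (0 : Fin (m+1)), a j + 2 ≤ a 0

theorem Cmp.lv {t : Fin (m+1) → List (Fin (m+1))} {a : Fin (m+1) → ℕ} (h : Cmp t a)
    (hm : 1 ≤ m) : ∃ p q, p + q = a 0 ∧ Lv t p q := by
  have h0 : (0 : Fin (m+1)) ≠ Fin.last m := by
    intro h
    have := congrArg Fin.val h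
    simp at this
    omega
  obtain ⟨p, q, hpq, h1⟩ := h.form 0 h0
  refine ⟨p, q, hpq, ⟨0 + 1, succ_ne_zero h0, h1⟩, fun j => ?_⟩
  by_cases hj : j = Fin.last m
  · rw [hj, h.last]; simp
  · obtain ⟨p', q', -, h2⟩ := h.form j hj
    rw [h2]; simp

theorem sg_pull {t : Fin (m+1) → List (Fin (m+1))} {a : Fin (m+1) → ℕ} (h : Cmp t a)
    (ha : a (Fin.last m) = 1) (φ : Fin (m+1) → ℝ) :
    sg (pull φ t) = (∑ j ∈ Finset.univ.erase (0 : Fin (m+1)), (a j : ℝ)) * φ 0 +
      (sg φ - nx φ 0) := by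
  rw [← sg_nx]
  unfold sg
  rw [Finset.sum_mul, ← Finset.sum_add_distrib]
  exact Finset.sum_congr rfl fun j _ => h.pull ha φ j

theorem Dm.domR {t : Fin (m+1) → List (Fin (m+1))} {a : Fin (m+1) → ℕ} (h : Dm t a) :
    (∑ j ∈ Finset.univ.erase (0 : Fin (m+1)), (a j : ℝ)) + 2 ≤ a 0 := by
  exact_mod_cast h.dom

theorem Dm.sum_nonneg (a : Fin (m+1) → ℕ) :
    0 ≤ ∑ j ∈ Finset.univ.erase (0 : Fin (m+1)), (a j : ℝ) :=
  Finset.sum_nonneg fun _ _ => by positivity

theorem Dm.step {t : Fin (m+1) → List (Fin (m+1))} {a : Fin (m+1) → ℕ} (h : Dm t a)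
    {φ : Fin (m+1) → ℝ} (hφ : ∀ i, 0 < φ i) {R : ℝ} (hR : 1 ≤ R) (hs : sg φ ≤ R * φ 0) :
    sg (Y316.Pisot.pull φ t) < R * Y316.Pisot.pull φ t 0 := by
  rw [sg_pull h.cmp h.last, h.cmp.pull h.last]
  have h0 := hφ 0
  have h1 := nx_nonneg hφ 0
  have h2 := h.domR
  have h3 := Dm.sum_nonneg a
  obtain ⟨s, hs'⟩ : ∃ s, s = ∑ j ∈ Finset.univ.erase (0 : Fin (m+1)), (a j : ℝ) := ⟨_, rfl⟩
  rw [← hs'] at h2 h3 ⊢
  have h4 : s * φ 0 ≤ R * (s * φ 0) := by
    have : 0 ≤ s * φ 0 := mul_nonneg h3 h0.le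
    nlinarith
  have h5 : R * ((s + 2) * φ 0) ≤ R * (a 0 * φ 0) :=
    mul_le_mul_of_nonneg_left (mul_le_mul_of_nonneg_right h2 h0.le) (by linarith)
  have h6 : 0 ≤ R * nx φ 0 := mul_nonneg (by linarith) h1
  have h7 : 0 < R * φ 0 := mul_pos (by linarith) h0
  nlinarith

/-- all members are dominated companion substitutions -/
def DmL (l : List (Fin (m+1) → List (Fin (m+1)))) : Prop := ∀ t ∈ l, ∃ a, Dm t a

theorem DmL.lv {l : List (Fin (m+1) → List (Fin (m+1)))} (h : DmL l) (hm : 1 ≤ m) : LvL l := by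
  intro t ht
  obtain ⟨a, ha⟩ := h t ht
  obtain ⟨p, q, h1, h2⟩ := ha.cmp.lv hm
  exact ⟨p, q, h2, by have := ha.five; omega⟩

theorem DmL.le {l : List (Fin (m+1) → List (Fin (m+1)))} (h : DmL l) (hm : 1 ≤ m)
    {φ : Fin (m+1) → ℝ} (hφ : ∀ i, 0 < φ i) {R : ℝ} (hR : 1 ≤ R) (hs : sg φ ≤ R * φ 0) :
    sg (pull φ (compList l)) ≤ R * pull φ (compList l) 0 ∧
      (l ≠ [] → sg (pull φ (compList l)) < R * pull φ (compList l) 0) := by
  induction l using List.reverseRecOn with
  | nil =>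
    refine ⟨?_, fun h => absurd rfl h⟩
    have : pull φ (compList []) = φ := by
      funext j
      simp [pull, compList, ab_single, hh_ev]
    rw [this]
    exact hs
  | append_singleton l t ih =>
    have hl : DmL l := fun t' h' => h t' (by simp [h'])
    obtain ⟨a, ha⟩ := h t (by simp)
    obtain ⟨h1, -⟩ := ih hl
    have h2 := ha.step ((hl.lv hm).pos hφ) hR h1
    rw [← pull_snoc] at h2
    exact ⟨h2.le, fun _ => h2⟩

theorem le_of_sg {φ : Fin (m+1) → ℝ} (hφ : ∀ i, 0 < φ i) (h : sg φ ≤ φ 0) (i : Fin (m+1)) :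
    φ i ≤ φ 0 := by
  by_cases hi : i = 0
  · rw [hi]
  · refine le_trans ?_ h
    exact Finset.single_le_sum (f := φ) (fun j _ => (hφ j).le)
      (Finset.mem_erase.2 ⟨hi, Finset.mem_univ _⟩)

theorem DmL.ell {l : List (Fin (m+1) → List (Fin (m+1)))} (h : DmL l) (hm : 1 ≤ m)
    (hne : l ≠ []) (P : PD (inc (compList l))) : sg P.ell < P.ell 0 := by
  have h0 := P.ell_pos 0
  have hlam : 0 < P.lam := lt_trans one_pos P.lam_gt
  obtain ⟨R, hR⟩ : ∃ R, R = max 1 (sg P.ell / P.ell 0) := ⟨_, rfl⟩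
  have hR1 : 1 ≤ R := by rw [hR]; exact le_max_left _ _
  have hRs : sg P.ell ≤ R * P.ell 0 := by
    have : sg P.ell / P.ell 0 ≤ R := by rw [hR]; exact le_max_right _ _
    rwa [div_le_iff₀ h0] at this
  have h1 := (h.le hm P.ell_pos hR1 hRs).2 hne
  have hpull : pull P.ell (compList l) = fun j => P.lam * P.ell j := by
    funext j
    rw [← P.ell_M j]
    rfl
  rw [hpull] at h1
  have h2 : sg (fun j => P.lam * P.ell j) = P.lam * sg P.ell := by
    unfold sg; rw [Finset.mul_sum]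
  rw [h2] at h1
  have h3 : P.lam * sg P.ell < P.lam * (R * P.ell 0) := by linarith
  have h4 := lt_of_mul_lt_mul_left h3 hlam.le
  rcases max_cases 1 (sg P.ell / P.ell 0) with ⟨h5, -⟩ | ⟨h5, h6⟩
  · rw [hR, h5, one_mul] at h4
    exact h4
  · exfalso
    rw [hR, h5] at h4
    rw [div_mul_cancel₀ _ h0.ne'] at h4
    exact lt_irrefl _ h4

/-- rounding -/
theorem rounding {c S thr : ℝ} {U : ℕ} (hc : 0 < c) (h1 : c ≤ 2 * thr) (h2 : thr ≤ c)
    (h3 : |S| < U * c) (h4 : thr < c → |S| + (c - thr) ≤ U * c) :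
    ∃ u : ℤ, |u| + 1 ≤ U ∧ |u * c + S| ≤ thr := by
  have main : ∀ S : ℝ, 0 ≤ S → |S| < U * c → (thr < c → |S| + (c - thr) ≤ U * c) →
      ∃ u : ℤ, |u| + 1 ≤ U ∧ |u * c + S| ≤ thr := by
    intro S hS h3 h4
    rw [abs_of_nonneg hS] at h3 h4
    obtain ⟨k, hk⟩ : ∃ k, k = ⌊S / c⌋ := ⟨_, rfl⟩
    have hk1 : (k : ℝ) * c ≤ S := by
      have := Int.floor_le (S / c)
      rw [← hk, le_div_iff₀ hc] at this
      exact this
    have hk2 : S < (k + 1) * c := by
      have := Int.lt_floor_add_one (S / c)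
      rw [← hk, div_lt_iff₀ hc] at this
      exact this
    have hk0 : 0 ≤ k := by
      rw [hk]; exact Int.floor_nonneg.2 (div_nonneg hS hc.le)
    by_cases hf : S - k * c ≤ thr
    · refine ⟨-k, ?_, ?_⟩
      · rw [abs_neg, abs_of_nonneg hk0]
        have : k < (U : ℤ) := by
          refine int_lt_of hc ?_
          push_cast
          linarith
        omega
      · rw [abs_of_nonneg]
        · push_cast; linarith
        · push_cast; linarith
    · push Not at hf
      have hlt : thr < c := by nlinarith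
      refine ⟨-(k + 1), ?_, ?_⟩
      · rw [abs_neg, abs_of_nonneg (by omega)]
        have : k + 1 < (U : ℤ) := by
          refine int_lt_of hc ?_
          push_cast
          linarith [h4 hlt]
        omega
      · rw [abs_of_nonpos]
        · push_cast; linarith
        · push_cast; linarith
  rcases le_total 0 S with h | h
  · exact main S h h3 h4
  · obtain ⟨u, hu1, hu2⟩ := main (-S) (by linarith) (by rwa [abs_neg]) (by rwa [abs_neg])
    refine ⟨-u, by rwa [abs_neg], ?_⟩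
    rw [← abs_neg]
    have : -(((-u : ℤ) : ℝ) * c + S) = u * c + -S := by push_cast; ring
    rw [this]
    exact hu2

/-- entries of the product with the incidence matrix -/
theorem Cmp.mulVec_succ {t : Fin (m+1) → List (Fin (m+1))} {a : Fin (m+1) → ℕ} (h : Cmp t a)
    (r : Fin (m+1) → ℤ) (j : Fin (m+1)) (hj : j ≠ Fin.last m) :
    (inc t).mulVec r (j + 1) = r j := by
  have h1 : ∀ i, inc t (j + 1) i = if i = j then 1 else 0 := by
    intro i
    simp only [inc]
    have hj0 := succ_ne_zero hj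
    by_cases hi : i = Fin.last m
    · rw [hi, h.last, List.count_singleton]
      have h2 : ¬ ((0 : Fin (m+1)) == j + 1) = true := by
        simp only [beq_iff_eq]; exact fun h => hj0 h.symm
      rw [if_neg h2, if_neg (fun h => hj h.symm)]
      rfl
    · obtain ⟨p, q, -, h2⟩ := h.form i hi
      rw [h2, List.count_append, List.count_replicate, List.count_cons, List.count_replicate]
      have h3 : ¬ ((0 : Fin (m+1)) == j + 1) = true := by
        simp only [beq_iff_eq]; exact fun h => hj0 h.symm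
      rw [if_neg h3, if_neg h3]
      by_cases hij : i = j
      · rw [hij]; simp
      · have h4 : ¬ ((i + 1) == j + 1) = true := by
          simp only [beq_iff_eq]; exact fun h => hij (succ_inj h)
        rw [if_neg h4, if_neg hij]
        rfl
  simp only [Matrix.mulVec, dotProduct, h1]
  simp

/-- the potential -/
def Pt (n : ℕ) (r : Fin (m+1) → ℤ) : Prop :=
  ∃ U i : ℕ, i ≤ m ∧ (m + 1) * U ≤ n + i ∧ (∀ j, |r j| ≤ U) ∧
    ∀ j : Fin (m+1), (j : ℕ) < i → |r j| + 1 ≤ U

theorem Pt.zero {r : Fin (m+1) → ℤ} (h : Pt 0 r) : r = 0 := by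
  obtain ⟨U, i, h1, h2, h3, h4⟩ := h
  have hU : U = 0 := by
    by_contra hU
    have : m + 1 ≤ (m + 1) * U := Nat.le_mul_of_pos_right _ (by omega)
    omega
  funext j
  have := h3 j
  rw [hU] at this
  simpa using this

theorem Pt.step {t : Fin (m+1) → List (Fin (m+1))} {a : Fin (m+1) → ℕ} (h : Cmp t a)
    {n : ℕ} {r : Fin (m+1) → ℤ} (hp : Pt (n+1) r) (hr : r ≠ 0) :
    ∃ U : ℕ, (∀ j, |r j| ≤ U) ∧ 1 ≤ U ∧ ∀ k : ℤ,
      |((inc t).mulVec r - k • (ev 0 : Fin (m+1) → ℤ)) 0| + 1 ≤ U →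
        Pt n ((inc t).mulVec r - k • ev 0) := by
  obtain ⟨U, i, h1, h2, h3, h4⟩ := hp
  have hU : 1 ≤ U := by
    by_contra hU
    apply hr
    funext j
    have h5 := h3 j
    have h6 : U = 0 := by omega
    rw [h6] at h5
    simpa using h5
  refine ⟨U, h3, hU, fun k hk => ?_⟩
  obtain ⟨r', hr'⟩ : ∃ r', r' = (inc t).mulVec r - k • ev 0 := ⟨_, rfl⟩
  rw [← hr'] at hk ⊢
  have hsucc : ∀ j : Fin (m+1), j ≠ Fin.last m → r' (j + 1) = r j := by
    intro j hj
    rw [hr', Pi.sub_apply, h.mulVec_succ r j hj]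
    have : ev 0 (j + 1) = 0 := by
      simp [ev, succ_ne_zero hj]
    rw [Pi.smul_apply, this]
    simp
  have hcase : ∀ j : Fin (m+1), j ≠ 0 → ∃ j' : Fin (m+1), j' ≠ Fin.last m ∧ j = j' + 1 ∧
      (j' : ℕ) + 1 = j := by
    intro j hj
    have hj1 : 1 ≤ (j : ℕ) := by
      rcases Nat.eq_zero_or_pos (j : ℕ) with h | h
      · exact absurd (Fin.ext h) hj
      · exact h
    have hj2 := j.2
    refine ⟨⟨(j : ℕ) - 1, by omega⟩, ?_, ?_, ?_⟩
    · intro h
      have := congrArg Fin.val h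
      simp at this
      omega
    · apply Fin.ext
      rw [Fin.val_add_one_of_lt (Fin.lt_last_iff_ne_last.2 ?_)]
      · simp; omega
      · intro h
        have := congrArg Fin.val h
        simp at this
        omega
    · simp; omega
  have hall : ∀ j, |r' j| ≤ U := by
    intro j
    by_cases hj : j = 0
    · rw [hj]; omega
    · obtain ⟨j', h5, h6, -⟩ := hcase j hj
      rw [h6, hsucc j' h5]
      exact h3 j'
  have hlow : ∀ j : Fin (m+1), (j : ℕ) < i + 1 → |r' j| + 1 ≤ U := by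
    intro j hji
    by_cases hj : j = 0
    · rw [hj]; exact hk
    · obtain ⟨j', h5, h6, h7⟩ := hcase j hj
      rw [h6, hsucc j' h5]
      exact h4 j' (by omega)
  rcases Nat.lt_or_ge i m with h5 | h5
  · exact ⟨U, i + 1, by omega, by omega, hall, hlow⟩
  · refine ⟨U - 1, 0, by omega, ?_, fun j => ?_, fun j hj => absurd hj (Nat.not_lt_zero _)⟩
    · rw [Nat.mul_sub, mul_one]
      omega
    · have h6 := hlow j (by have := j.2; omega)
      push_cast [hU]
      omega

theorem exA {φ : Fin (m+1) → ℝ} (hm : 1 ≤ m) (hφ : ∀ i, 0 < φ i) (hs : sg φ < φ 0)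
    (L : List (Fin (m+1) → List (Fin (m+1)))) (hL : DmL L) :
    ∀ r, Pt L.length r → (∀ l' t, L = l' ++ [t] → |hh (pull φ (compList L)) r| ≤
      (((inc t 0 0 : ℤ) : ℝ) - 1) * pull φ (compList l') 0) → Ex φ L r := by
  induction L using List.reverseRecOn with
  | nil =>
    intro r hr _
    rw [Pt.zero hr]
    exact Ex.zero _
  | append_singleton l t ih =>
    intro r hr hb
    have hl : DmL l := fun t' h' => hL t' (by simp [h'])
    obtain ⟨a, ha⟩ := hL t (by simp)
    have hb := hb l t rfl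
    by_cases hr0 : r = 0
    · rw [hr0]; exact Ex.zero _
    rw [List.length_append, List.length_singleton] at hr
    obtain ⟨U, hU, hU1, hstep⟩ := Pt.step ha.cmp hr hr0
    have hU1r : (1 : ℝ) ≤ U := by exact_mod_cast hU1
    obtain ⟨ψ, hψ⟩ : ∃ ψ, ψ = pull φ (compList l) := ⟨_, rfl⟩
    have hpos : ∀ i, 0 < ψ i := by rw [hψ]; exact (hl.lv hm).pos hφ
    have hsg : sg ψ < ψ 0 := by
      by_cases hle : l = []
      · rw [hψ, hle]
        have : pull φ (compList []) = φ := by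
          funext j
          simp [pull, compList, ab_single, hh_ev]
        rw [this]
        exact hs
      · have := (hl.le hm hφ (R := 1) le_rfl (by linarith)).2 hle
        rw [← hψ, one_mul] at this
        exact this
    have h0 := hpos 0
    have hsg0 : 0 ≤ sg ψ := Finset.sum_nonneg fun j _ => (hpos j).le
    -- the sum over the other letters
    obtain ⟨S, hS⟩ : ∃ S : ℝ, S = ∑ j, nx ψ j * (r j : ℝ) := ⟨_, rfl⟩
    have hSb : |S| ≤ U * sg ψ := by
      rw [hS, ← sum_nx, Finset.mul_sum]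
      refine (Finset.abs_sum_le_sum_abs _ _).trans (Finset.sum_le_sum fun j _ => ?_)
      rw [abs_mul, abs_of_nonneg (nx_nonneg hpos j), mul_comm]
      refine mul_le_mul_of_nonneg_right ?_ (nx_nonneg hpos j)
      exact_mod_cast hU j
    have hSU : |S| < U * ψ 0 :=
      lt_of_le_of_lt hSb (mul_lt_mul_of_pos_left hsg (by linarith))
    -- heights of the possible children
    have hheight : ∀ u : ℤ, ∃ k : ℤ, ((inc t).mulVec r - k • (ev 0 : Fin (m+1) → ℤ)) 0 = u ∧
        hh ψ ((inc t).mulVec r - k • ev 0) = u * ψ 0 + S := by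
      intro u
      have h1 : ((inc t).mulVec r - ((inc t).mulVec r 0 - u) • (ev 0 : Fin (m+1) → ℤ)) 0 = u := by
        simp [ev]
      refine ⟨(inc t).mulVec r 0 - u, h1, ?_⟩
      obtain ⟨r', hr'⟩ : ∃ r', r' = (inc t).mulVec r - ((inc t).mulVec r 0 - u) • ev 0 :=
        ⟨_, rfl⟩
      rw [← hr'] at h1 ⊢
      unfold hh
      rw [← Finset.add_sum_erase _ _ (Finset.mem_univ (0 : Fin (m+1))), h1, hS, mul_comm]
      congr 1
      symm
      refine sum_succ_eq (fun i => ψ i * (r' i : ℝ)) (fun j => nx ψ j * (r j : ℝ))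
        (fun j hj => ?_) (by simp [nx])
      have h2 : r' (j + 1) = r j := by
        rw [hr', Pi.sub_apply, ha.cmp.mulVec_succ r j hj]
        have : ev 0 (j + 1) = 0 := by simp [ev, succ_ne_zero hj]
        rw [Pi.smul_apply, this]
        simp
      simp only [nx, if_neg hj, h2]
    by_cases hle : l = []
    · obtain ⟨u, hu1, hu2⟩ := rounding (thr := ψ 0) h0 (by linarith) le_rfl hSU
        (fun h => absurd h (lt_irrefl _))
      obtain ⟨k, hk1, hk2⟩ := hheight u
      refine Ex.step l t r k hb (ih hl _ (hstep k (by rw [hk1]; exact hu1)) ?_)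
      intro l' t' hl'
      rw [hle] at hl'
      simp at hl'
    · obtain ⟨l', t', hlt⟩ : ∃ l' t', l = l' ++ [t'] :=
        ⟨l.dropLast, l.getLast hle, (List.dropLast_append_getLast hle).symm⟩
      obtain ⟨a', ha'⟩ := hl t' (by rw [hlt]; simp)
      have hl' : DmL l' := fun t'' h' => hl t'' (by rw [hlt]; simp [h'])
      obtain ⟨ψ', hψ'⟩ : ∃ ψ', ψ' = pull φ (compList l') := ⟨_, rfl⟩
      have hpos' : ∀ i, 0 < ψ' i := by rw [hψ']; exact (hl'.lv hm).pos hφ
      have h0' := hpos' 0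
      have hsg' : sg ψ' ≤ ψ' 0 := by
        have := (hl'.le hm hφ (R := 1) le_rfl (by linarith)).1
        rw [← hψ', one_mul] at this
        exact this
      have hψψ : ψ = pull ψ' t' := by rw [hψ, hlt, pull_snoc, hψ']
      have e1 : ψ 0 = a' 0 * ψ' 0 + nx ψ' 0 := by rw [hψψ]; exact ha'.cmp.pull ha'.last ψ' 0
      have e2 := sg_pull ha'.cmp ha'.last ψ'
      rw [← hψψ] at e2
      have e3 := ha'.domR
      have e4 := Dm.sum_nonneg a'
      have e5 := nx_nonneg hpos' 0
      have e6 : nx ψ' 0 ≤ ψ' 0 := by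
        refine le_trans ?_ hsg'
        rw [← sum_nx]
        exact Finset.single_le_sum (f := nx ψ') (fun j _ => nx_nonneg hpos' j)
          (Finset.mem_univ _)
      have e7 : (5 : ℝ) ≤ a' 0 := by exact_mod_cast ha'.five
      obtain ⟨s, hs'⟩ : ∃ s, s = ∑ j ∈ Finset.univ.erase (0 : Fin (m+1)), (a' j : ℝ) := ⟨_, rfl⟩
      rw [← hs'] at e2 e3 e4
      obtain ⟨u, hu1, hu2⟩ := rounding (thr := (a' 0 - 1) * ψ' 0) h0
        (by rw [e1]; nlinarith) (by rw [e1]; nlinarith) hSU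
        (by
          intro _
          have e8 : sg ψ + (ψ' 0 + nx ψ' 0) ≤ ψ 0 := by
            rw [e2, e1]; nlinarith
          have e9 : 0 ≤ ψ 0 - sg ψ := by linarith
          have e10 : (ψ 0 - sg ψ) ≤ U * (ψ 0 - sg ψ) := by nlinarith
          have e11 : ψ 0 - (a' 0 - 1) * ψ' 0 = ψ' 0 + nx ψ' 0 := by rw [e1]; ring
          rw [e11]
          nlinarith)
      obtain ⟨k, hk1, hk2⟩ := hheight u
      refine Ex.step l t r k hb (ih hl _ (hstep k (by rw [hk1]; exact hu1)) ?_)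
      intro l'' t'' hl''
      rw [hlt] at hl''
      obtain ⟨h5, h6⟩ := List.append_inj' hl'' rfl
      rw [List.cons.injEq] at h6
      rw [← hψ, hk2, ← h5, ← h6.1, ← hψ']
      have e12 : (((inc t' 0 0 : ℤ) : ℝ)) = a' 0 := by
        obtain ⟨p, q, h7, h8⟩ := ha'.cmp.lv hm
        rw [h8.inc00, ← h7]; push_cast; ring
      rw [e12]
      exact hu2

end Pool.Agent.Helper65K9.PSC
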