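import Pool.Agent.Helper65K9.PSC.Path

/-!
Finite expansions for companion matrices with nonincreasing entries.
-/

set_option autoImplicit false

namespace Pool.Agent.Helper65K9.PSC
open Pool.Agent.H812R2.PI Pool.Agent.Y316.Pisot
open scoped BigOperators

variable {m : ℕ}

/-- unit vectors with natural indices, zero for large indices -/
def En (m : ℕ) (j : ℕ) : Fin (m+1) → ℤ := if h : j < m + 1 then ev ⟨j, h⟩ else 0

theorem En_zero : En m 0 = ev 0 := by
  unfold En
  rw [dif_pos (Nat.succ_pos m)]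
  rfl

theorem En_big {j : ℕ} (h : m < j) : En m j = 0 := by
  unfold En
  rw [dif_neg (by omega)]

/-- companion data -/
structure Ctx (m : ℕ) where
  M : Matrix (Fin (m+1)) (Fin (m+1)) ℤ
  A : ℕ → ℕ
  e : Fin (m+1) → ℝ
  β : ℝ
  β_gt : 1 < β
  e_pos : ∀ i, 0 < e i
  e_zero : e 0 = 1
  mulE : ∀ j, M.mulVec (En m j) = (A j : ℤ) • ev 0 + En m (j + 1)
  hM : ∀ v, hh e (M.mulVec v) = β * hh e v
  anti : ∀ j, A (j + 1) ≤ A j
  A_zero : ∀ j, m < j → A j = 0
  A_pos : ∀ j, j ≤ m → 1 ≤ A j
  gap : A 1 + 3 ≤ A 0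

variable (C : Ctx m)

/-- the heights of the unit vectors -/
noncomputable def Ctx.El (j : ℕ) : ℝ := hh C.e (En m j)

theorem hh_smul_int (φ : Fin (m+1) → ℝ) (k : ℤ) (v : Fin (m+1) → ℤ) :
    hh φ (k • v) = k * hh φ v := by
  simp only [hh, Finset.mul_sum]
  refine Finset.sum_congr rfl fun i _ => ?_
  rw [Pi.smul_apply, smul_eq_mul]
  push_cast
  ring

theorem Ctx.El_zero : C.El 0 = 1 := by
  unfold Ctx.El
  rw [En_zero, hh_ev, C.e_zero]

theorem Ctx.hh_ev_zero : hh C.e (ev 0) = 1 := by rw [hh_ev, C.e_zero]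

theorem Ctx.El_rec (j : ℕ) : C.β * C.El j = C.A j + C.El (j + 1) := by
  have h := C.hM (En m j)
  rw [C.mulE, hh_add, hh_smul_int, C.hh_ev_zero] at h
  unfold Ctx.El
  push_cast at h
  linarith

theorem Ctx.El_nonneg (j : ℕ) : 0 ≤ C.El j := by
  unfold Ctx.El En
  split_ifs with h
  · rw [hh_ev]; exact (C.e_pos _).le
  · rw [hh_zero]

theorem Ctx.El_pos {j : ℕ} (h : j ≤ m) : 0 < C.El j := by
  unfold Ctx.El En
  rw [dif_pos (by omega), hh_ev]
  exact C.e_pos _

theorem Ctx.El_big {j : ℕ} (h : m < j) : C.El j = 0 := by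
  unfold Ctx.El
  rw [En_big h, hh_zero]

theorem Ctx.El_anti (j : ℕ) : C.El (j + 1) ≤ C.El j := by
  have key : ∀ k j : ℕ, m < j + k → C.El (j + 1) ≤ C.El j := by
    intro k
    induction k with
    | zero =>
      intro j hj
      rw [C.El_big (show m < j + 1 by omega)]
      exact C.El_nonneg j
    | succ k ih =>
      intro j hj
      have h1 := ih (j + 1) (by omega)
      have h2 := C.El_rec j
      have h3 := C.El_rec (j + 1)
      have h4 : (C.A (j + 1) : ℝ) ≤ C.A j := by exact_mod_cast C.anti j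
      have h5 : C.β * C.El (j + 1) ≤ C.β * C.El j := by linarith
      exact le_of_mul_le_mul_left h5 (by linarith [C.β_gt])
  exact key (m + 1) j (by omega)

theorem Ctx.El_anti' {i j : ℕ} (h : i ≤ j) : C.El j ≤ C.El i :=
  antitone_nat_of_succ_le C.El_anti h

theorem Ctx.A_anti' {i j : ℕ} (h : i ≤ j) : C.A j ≤ C.A i :=
  antitone_nat_of_succ_le C.anti h

theorem Ctx.El_le_one (j : ℕ) : C.El j ≤ 1 := by
  rw [← C.El_zero]
  exact C.El_anti' (Nat.zero_le j)

theorem Ctx.β_ge : (C.A 0 : ℝ) ≤ C.β := by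
  have h := C.El_rec 0
  rw [C.El_zero] at h
  linarith [C.El_nonneg 1]

/-- `z` has an expansion with nonnegative digits of length `n` and weight at most `w` -/
def Ctx.Rp : ℕ → ℕ → (Fin (m+1) → ℤ) → Prop
  | 0, _, z => z = 0
  | n + 1, w, z => ∃ x : ℕ, x ≤ w ∧ Ctx.Rp n (w - x) (C.M.mulVec z - (x : ℤ) • ev 0)

theorem Ctx.Rp_mono_w (n : ℕ) : ∀ {w w' : ℕ} {z : Fin (m+1) → ℤ}, C.Rp n w z → w ≤ w' →
    C.Rp n w' z := by
  induction n with
  | zero => intro w w' z h _; exact h
  | succ n ih =>
    intro w w' z ⟨x, hx, h⟩ hw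
    exact ⟨x, hx.trans hw, ih h (by omega)⟩

theorem Ctx.Rp_zero (n w : ℕ) : C.Rp n w 0 := by
  induction n with
  | zero => rfl
  | succ n ih => exact ⟨0, Nat.zero_le _, by simpa using ih⟩

theorem Ctx.Rp_succ (n : ℕ) : ∀ {w : ℕ} {z : Fin (m+1) → ℤ}, C.Rp n w z → C.Rp (n + 1) w z := by
  induction n with
  | zero =>
    intro w z h
    have hz : z = 0 := h
    rw [hz]
    exact C.Rp_zero _ _
  | succ n ih =>
    intro w z ⟨x, hx, h⟩
    exact ⟨x, hx, ih h⟩

theorem Ctx.Rp_mono_n {n n' : ℕ} (h : n ≤ n') {w : ℕ} {z : Fin (m+1) → ℤ} (hz : C.Rp n w z) :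
    C.Rp n' w z := by
  induction n', h using Nat.le_induction with
  | base => exact hz
  | succ k _ ih => exact C.Rp_succ k ih

theorem Ctx.Rp_add (n : ℕ) : ∀ {w w' : ℕ} {z z' : Fin (m+1) → ℤ}, C.Rp n w z → C.Rp n w' z' →
    C.Rp n (w + w') (z + z') := by
  induction n with
  | zero =>
    intro w w' z z' h h'
    have h1 : z = 0 := h
    have h2 : z' = 0 := h'
    change z + z' = 0
    rw [h1, h2, add_zero]
  | succ n ih =>
    intro w w' z z' ⟨x, hx, h⟩ ⟨x', hx', h'⟩
    refine ⟨x + x', by omega, ?_⟩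
    have h1 := ih h h'
    have h2 : C.M.mulVec (z + z') - ((x + x' : ℕ) : ℤ) • (ev 0 : Fin (m+1) → ℤ) =
        C.M.mulVec z - (x : ℤ) • ev 0 + (C.M.mulVec z' - (x' : ℤ) • ev 0) := by
      rw [Matrix.mulVec_add]
      push_cast
      rw [add_smul]
      abel
    rw [h2]
    exact C.Rp_mono_w n h1 (by omega)

theorem Ctx.hchild (z : Fin (m+1) → ℤ) (k : ℤ) :
    hh C.e (C.M.mulVec z - k • ev 0) = C.β * hh C.e z - k := by
  rw [hh_sub, C.hM, hh_smul_int, C.hh_ev_zero, mul_one]

theorem Ctx.Rp_nonneg (n : ℕ) : ∀ {w : ℕ} {z : Fin (m+1) → ℤ}, C.Rp n w z → 0 ≤ hh C.e z := by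
  induction n with
  | zero =>
    intro w z h
    have h1 : z = 0 := h
    rw [h1, hh_zero]
  | succ n ih =>
    intro w z ⟨x, hx, h⟩
    have h1 := ih h
    rw [C.hchild] at h1
    have h2 : (0 : ℝ) ≤ x := Nat.cast_nonneg x
    have h3 : 0 ≤ C.β * hh C.e z := by push_cast at h1; linarith
    exact nonneg_of_mul_nonneg_right h3 (by linarith [C.β_gt])

/-- partial sums of the entries -/
def Ctx.Sm (j : ℕ) : ℕ := ∑ i ∈ Finset.range j, C.A i

theorem Ctx.Sm_succ (j : ℕ) : C.Sm (j + 1) = C.Sm j + C.A j := Finset.sum_range_succ _ _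

theorem Ctx.Sm_mono {i j : ℕ} (h : i ≤ j) : C.Sm i ≤ C.Sm j := by
  induction j, h using Nat.le_induction with
  | base => exact le_rfl
  | succ k _ ih => rw [C.Sm_succ]; omega

/-- differences of unit vectors have nonnegative expansions -/
theorem Ctx.Rp_diff (n : ℕ) : ∀ {i k : ℕ}, i ≤ k → m + 1 = i + n ∨ (m < i ∧ n = 0) →
    C.Rp n (C.Sm k - C.Sm i) (En m i - En m k) := by
  induction n with
  | zero =>
    intro i k hik h
    change En m i - En m k = 0
    rw [En_big (by omega), En_big (by omega), sub_zero]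
  | succ n ih =>
    intro i k hik h
    have hi : m + 1 = i + (n + 1) := by
      rcases h with h | h
      · exact h
      · omega
    have h1 := C.A_anti' hik
    have h2 := ih (i := i + 1) (k := k + 1) (by omega) (by
      left; omega)
    have h3 : C.M.mulVec (En m i - En m k) - ((C.A i - C.A k : ℕ) : ℤ) • (ev 0 : Fin (m+1) → ℤ) =
        En m (i + 1) - En m (k + 1) := by
      rw [Matrix.mulVec_sub, C.mulE, C.mulE]
      push_cast [h1]
      rw [sub_smul]
      abel
    have h4 := C.Sm_succ i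
    have h5 := C.Sm_succ k
    have h6 := C.Sm_mono hik
    have h7 : C.Sm (i + 1) ≤ C.Sm (k + 1) := C.Sm_mono (by omega)
    refine ⟨C.A i - C.A k, ?_, ?_⟩
    · -- `A i - A k ≤ S k - S i`
      rcases eq_or_lt_of_le hik with h | h
      · rw [h]; omega
      · have := C.Sm_mono (show i + 1 ≤ k by omega)
        omega
    · rw [h3]
      refine C.Rp_mono_w n h2 ?_
      rw [h4, h5]
      omega

theorem Ctx.A0_pos : 1 ≤ C.A 0 := by have := C.gap; omega

/-- subtraction of unit vectors -/
theorem Ctx.sub_unit (w : ℕ) : ∀ (n : ℕ) (z : Fin (m+1) → ℤ) (j : ℕ), C.Rp n w z →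
    C.El j ≤ hh C.e z → ∃ n' w', w' + 1 ≤ w + C.Sm j ∧ C.Rp n' w' (z - En m j) := by
  induction w using Nat.strong_induction_on with
  | _ w ihw =>
    intro n
    induction n with
    | zero =>
      intro z j h hj
      have h1 : z = 0 := h
      rw [h1, hh_zero] at hj
      have h2 : m < j := by
        by_contra hcon
        push Not at hcon
        linarith [C.El_pos hcon]
      refine ⟨0, w, ?_, ?_⟩
      · have := C.Sm_mono (show 1 ≤ j by omega)
        have h3 := C.A0_pos
        have h4 : C.Sm 1 = C.A 0 := by simp [Ctx.Sm]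
        omega
      · change z - En m j = 0
        rw [h1, En_big h2, sub_zero]
    | succ n ihn =>
      intro z j hR hj
      obtain ⟨x, hx, h⟩ := hR
      obtain ⟨z', hz'⟩ : ∃ z', z' = C.M.mulVec z - (x : ℤ) • (ev 0 : Fin (m+1) → ℤ) := ⟨_, rfl⟩
      rw [← hz'] at h
      have hhz : hh C.e z' = C.β * hh C.e z - x := by
        rw [hz', C.hchild]; push_cast; ring
      have hβ : C.β * C.El j ≤ C.β * hh C.e z :=
        mul_le_mul_of_nonneg_left hj (by linarith [C.β_gt])
      rw [C.El_rec] at hβ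
      have hS := C.Sm_succ j
      rcases lt_trichotomy x (C.A j) with hxa | hxa | hxa
      · -- `x < A j`
        obtain ⟨q, hq⟩ : ∃ q, C.A j = x + q := ⟨C.A j - x, by omega⟩
        have hq1 : 1 ≤ q := by omega
        -- subtract `e_0` several times
        have hstep : ∀ s : ℕ, s ≤ q → ∃ n' w', w' + s ≤ w - x ∧
            C.Rp n' w' (z' - (s : ℤ) • ev 0) ∧ (s = 0 → n' = n ∧ w' = w - x) := by
          intro s
          induction s with
          | zero =>
            intro _
            exact ⟨n, w - x, by omega, by simpa using h, fun _ => ⟨rfl, rfl⟩⟩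
          | succ s ihs =>
            intro hs
            obtain ⟨n', w', h1, h2, h3⟩ := ihs (by omega)
            have h4 : C.El 0 ≤ hh C.e (z' - (s : ℤ) • ev 0) := by
              rw [hh_sub, hh_smul_int, C.hh_ev_zero, hhz, C.El_zero]
              have h5 : (C.A j : ℝ) = x + q := by rw [hq]; push_cast; ring
              have h6 : ((s : ℝ) + 1) ≤ q := by exact_mod_cast hs
              have h7 := C.El_nonneg (j + 1)
              push_cast
              linarith
            have h5 : ∃ n'' w'', w'' + 1 ≤ w' + C.Sm 0 ∧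
                C.Rp n'' w'' (z' - (s : ℤ) • ev 0 - En m 0) := by
              rcases Nat.eq_zero_or_pos s with h6 | h6
              · -- first subtraction
                obtain ⟨h7, h8⟩ := h3 h6
                rw [h7, h8] at h2
                rw [h8]
                rcases Nat.eq_zero_or_pos x with h9 | h9
                · rw [h9, Nat.sub_zero] at h2 ⊢
                  exact ihn _ 0 h2 h4
                · exact ihw (w - x) (by omega) n _ 0 h2 h4
              · exact ihw w' (by omega) n' _ 0 h2 h4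
            obtain ⟨n'', w'', h6, h7⟩ := h5
            have h8 : C.Sm 0 = 0 := by simp [Ctx.Sm]
            refine ⟨n'', w'', by omega, ?_, fun h => by omega⟩
            have h9 : z' - ((s + 1 : ℕ) : ℤ) • (ev 0 : Fin (m+1) → ℤ) =
                z' - (s : ℤ) • ev 0 - En m 0 := by
              rw [En_zero]
              push_cast
              rw [add_smul, one_smul]
              abel
            rw [h9]
            exact h7
        obtain ⟨n', w', h1, h2, -⟩ := hstep q le_rfl
        have h4 : C.El (j + 1) ≤ hh C.e (z' - (q : ℤ) • ev 0) := by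
          rw [hh_sub, hh_smul_int, C.hh_ev_zero, hhz]
          have h5 : (C.A j : ℝ) = x + q := by rw [hq]; push_cast; ring
          push_cast
          linarith
        obtain ⟨n'', w'', h5, h6⟩ := ihw w' (by omega) n' _ (j + 1) h2 h4
        refine ⟨n'' + 1, w'', by omega, 0, Nat.zero_le _, ?_⟩
        have h7 : C.M.mulVec (z - En m j) - ((0 : ℕ) : ℤ) • (ev 0 : Fin (m+1) → ℤ) =
            z' - (q : ℤ) • ev 0 - En m (j + 1) := by
          rw [Matrix.mulVec_sub, C.mulE, hz', hq]
          push_cast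
          rw [add_smul, zero_smul]
          abel
        rw [h7, Nat.sub_zero]
        exact h6
      · -- `x = A j`
        have h4 : C.El (j + 1) ≤ hh C.e z' := by
          rw [hhz, hxa]; linarith
        have h5 : ∃ n'' w'', w'' + 1 ≤ (w - x) + C.Sm (j + 1) ∧ C.Rp n'' w'' (z' - En m (j + 1)) := by
          rcases Nat.eq_zero_or_pos x with h9 | h9
          · rw [h9, Nat.sub_zero] at h ⊢
            exact ihn _ (j + 1) h h4
          · exact ihw (w - x) (by omega) n _ (j + 1) h h4
        obtain ⟨n'', w'', h5, h6⟩ := h5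
        refine ⟨n'' + 1, w'', by omega, 0, Nat.zero_le _, ?_⟩
        have h7 : C.M.mulVec (z - En m j) - ((0 : ℕ) : ℤ) • (ev 0 : Fin (m+1) → ℤ) =
            z' - En m (j + 1) := by
          rw [Matrix.mulVec_sub, C.mulE, hz', hxa]
          push_cast
          rw [zero_smul]
          abel
        rw [h7, Nat.sub_zero]
        exact h6
      · -- `A j < x`
        have h1 := C.Rp_diff (m + 1) (i := 0) (k := j + 1) (Nat.zero_le _) (Or.inl (by omega))
        have h2 : C.Sm 0 = 0 := by simp [Ctx.Sm]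
        rw [h2, Nat.sub_zero] at h1
        have h3 := C.Rp_add (max n (m+1)) (C.Rp_mono_n (le_max_left _ _) h)
          (C.Rp_mono_n (le_max_right _ _) h1)
        refine ⟨max n (m+1) + 1, w + C.Sm j - 1, by omega, x - C.A j - 1, by omega, ?_⟩
        have h7 : C.M.mulVec (z - En m j) - ((x - C.A j - 1 : ℕ) : ℤ) • (ev 0 : Fin (m+1) → ℤ) =
            z' + (En m 0 - En m (j + 1)) := by
          have h8 : ((x - C.A j - 1 : ℕ) : ℤ) = (x : ℤ) - C.A j - 1 := by omega
          rw [Matrix.mulVec_sub, C.mulE, hz', h8, En_zero, sub_smul, sub_smul, one_smul]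
          abel
        rw [h7]
        exact C.Rp_mono_w _ h3 (by omega)

/-- the greedy map -/
noncomputable def Ctx.Gr (z : Fin (m+1) → ℤ) : Fin (m+1) → ℤ :=
  C.M.mulVec z - ⌊C.β * hh C.e z⌋ • ev 0

/-- the greedy expansion is finite -/
inductive Ctx.Fi : (Fin (m+1) → ℤ) → Prop
  | zero : Ctx.Fi 0
  | step (z : Fin (m+1) → ℤ) : Ctx.Fi (C.Gr z) → Ctx.Fi z

theorem Ctx.hGr (z : Fin (m+1) → ℤ) : 0 ≤ hh C.e (C.Gr z) ∧ hh C.e (C.Gr z) < 1 := by
  unfold Ctx.Gr
  rw [C.hchild]
  exact ⟨by linarith [Int.floor_le (C.β * hh C.e z)],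
    by linarith [Int.lt_floor_add_one (C.β * hh C.e z)]⟩

theorem Ctx.fi_of_rp (w : ℕ) : ∀ (n : ℕ) (z : Fin (m+1) → ℤ), C.Rp n w z → C.Fi z := by
  induction w using Nat.strong_induction_on with
  | _ w ihw =>
    intro n
    induction n with
    | zero =>
      intro z h
      have h1 : z = 0 := h
      rw [h1]
      exact Ctx.Fi.zero
    | succ n ihn =>
      intro z hR
      obtain ⟨x, hx, h⟩ := hR
      refine Ctx.Fi.step z ?_
      obtain ⟨z', hz'⟩ : ∃ z', z' = C.M.mulVec z - (x : ℤ) • (ev 0 : Fin (m+1) → ℤ) := ⟨_, rfl⟩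
      rw [← hz'] at h
      have hhz : hh C.e z' = C.β * hh C.e z - x := by
        rw [hz', C.hchild]; push_cast; ring
      have hn := C.Rp_nonneg n h
      have hfl : (x : ℤ) ≤ ⌊C.β * hh C.e z⌋ := by
        rw [Int.le_floor]
        push_cast
        linarith
      obtain ⟨q, hq⟩ : ∃ q : ℕ, ⌊C.β * hh C.e z⌋ = x + q :=
        ⟨(⌊C.β * hh C.e z⌋ - x).toNat, by omega⟩
      have hq' : (x : ℝ) + q ≤ C.β * hh C.e z := by
        have := Int.floor_le (C.β * hh C.e z)
        rw [hq] at this
        push_cast at this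
        exact this
      have hG : C.Gr z = z' - (q : ℤ) • ev 0 := by
        unfold Ctx.Gr
        rw [hz', hq, add_smul]
        abel
      have hstep : ∀ s : ℕ, s ≤ q → ∃ n' w', w' + s ≤ w - x ∧
          C.Rp n' w' (z' - (s : ℤ) • ev 0) ∧ (s = 0 → n' = n ∧ w' = w - x) := by
        intro s
        induction s with
        | zero =>
          intro _
          exact ⟨n, w - x, by omega, by simpa using h, fun _ => ⟨rfl, rfl⟩⟩
        | succ s ihs =>
          intro hs
          obtain ⟨n', w', h1, h2, h3⟩ := ihs (by omega)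
          have h4 : C.El 0 ≤ hh C.e (z' - (s : ℤ) • ev 0) := by
            rw [hh_sub, hh_smul_int, C.hh_ev_zero, hhz, C.El_zero]
            have h6 : ((s : ℝ) + 1) ≤ q := by exact_mod_cast hs
            push_cast
            linarith
          obtain ⟨n'', w'', h6, h7⟩ := C.sub_unit w' n' _ 0 h2 h4
          have h8 : C.Sm 0 = 0 := by simp [Ctx.Sm]
          refine ⟨n'', w'', by omega, ?_, fun h => by omega⟩
          have h9 : z' - ((s + 1 : ℕ) : ℤ) • (ev 0 : Fin (m+1) → ℤ) =
              z' - (s : ℤ) • ev 0 - En m 0 := by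
            rw [En_zero]
            push_cast
            rw [add_smul, one_smul]
            abel
          rw [h9]
          exact h7
      obtain ⟨n', w', h1, h2, h3⟩ := hstep q le_rfl
      rw [hG]
      rcases Nat.eq_zero_or_pos q with h4 | h4
      · obtain ⟨h5, h6⟩ := h3 h4
        rw [h5, h6] at h2
        rcases Nat.eq_zero_or_pos x with h7 | h7
        · rw [h7, Nat.sub_zero] at h2
          exact ihn _ h2
        · exact ihw (w - x) (by omega) n _ h2
      · exact ihw w' (by omega) n' _ h2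

end Pool.Agent.Helper65K9.PSC
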