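import Pool.Agent.Helper65K9.PSC.Path

/-!
Factors without the letter `0`; overlapping pairs of edges `0` with small offset in long paths.
-/

set_option autoImplicit false

namespace Pool.Agent.Helper65K9.PSC
open Pool.Agent.H812R2.PI Pool.Agent.Y316.Pisot
open scoped BigOperators

variable {m : ℕ}

/-- the factors of `w` without the letter `0` have height at most `H` -/
def ZF (φ : Fin (m+1) → ℝ) (H : ℝ) (w : List (Fin (m+1))) : Prop :=
  ∀ f, f <:+: w → (∀ x ∈ f, x ≠ 0) → hh φ (ab f) ≤ H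

theorem ZF.fac {φ : Fin (m+1) → ℝ} {H : ℝ} {w w' : List (Fin (m+1))} (h : ZF φ H w)
    (hw : w' <:+: w) : ZF φ H w' := fun f hf => h f (hf.trans hw)

theorem ZF.next {φ : Fin (m+1) → ℝ} {H : ℝ} {w : List (Fin (m+1))} (h : ZF φ H w)
    (hw : H < hh φ (ab w)) : ∃ z r, w = z ++ 0 :: r ∧ hh φ (ab z) ≤ H := by
  have h0 : (0 : Fin (m+1)) ∈ w := by
    by_contra hcon
    have := h w List.infix_rfl (fun x hx hx0 => hcon (hx0 ▸ hx))
    linarith
  obtain ⟨z, r, h1, h2⟩ := List.eq_append_cons_of_mem h0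
  refine ⟨z, r, h1, h z ⟨[], 0 :: r, by simp [h1]⟩ fun x hx hx0 => h2 (hx0 ▸ hx)⟩

/-- the edge `0` after the edge over the height `P` -/
theorem next_edge {φ : Fin (m+1) → ℝ} (hφ : ∀ i, 0 < φ i) (hle : ∀ i, φ i ≤ φ 0) {H : ℝ}
    {w : List (Fin (m+1))} (h : ZF φ H w) (y : Fin (m+1) → ℤ) (P : ℝ) (hP : hh φ y ≤ P)
    (hQ : P + φ 0 + H < hh φ y + hh φ (ab w)) :
    ∃ z r, w = z ++ 0 :: r ∧ P < hh φ y + hh φ (ab z) ∧ hh φ y + hh φ (ab z) ≤ P + φ 0 + H := by
  have h0 := hφ 0
  have hH : 0 ≤ H := by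
    have := h [] (List.nil_infix) (by simp)
    rwa [ab_nil, hh_zero] at this
  obtain ⟨s, a, t, h1, h2, h3⟩ := cover (φ := φ) w (P - hh φ y) (by linarith) (by linarith)
  have ha := hle a
  have hsum : hh φ (ab w) = hh φ (ab s) + φ a + hh φ (ab t) := by
    rw [h1, ab_append, ab_cons, hh_add, hh_add, hh_ev]; ring
  have ht : ZF φ H t := h.fac ⟨s ++ [a], [], by simp [h1]⟩
  obtain ⟨z, r, h4, h5⟩ := ht.next (by linarith)
  have h6 := hh_ab_nonneg hφ z
  have hsum2 : hh φ (ab (s ++ a :: z)) = hh φ (ab s) + φ a + hh φ (ab z) := by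
    rw [ab_append, ab_cons, hh_add, hh_add, hh_ev]; ring
  refine ⟨s ++ a :: z, r, by simp [h1, h4], ?_, ?_⟩
  · rw [hsum2]; linarith
  · rw [hsum2]; linarith

theorem three_zeros {t : Fin (m+1) → List (Fin (m+1))} {p q : ℕ} (ht : Lv t p q)
    (hpq : 3 ≤ max p q) : ∃ u v, t 0 = u ++ List.replicate 3 0 ++ v := by
  obtain ⟨b, -, hb⟩ := ht.form
  rcases le_max_iff.1 hpq with h | h
  · refine ⟨List.replicate (p - 3) 0, b :: List.replicate q 0, ?_⟩
    rw [hb, List.replicate_append_replicate]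
    congr 2
    omega
  · refine ⟨List.replicate p 0 ++ b :: List.replicate (q - 3) 0, [], ?_⟩
    rw [hb, List.append_nil, List.append_assoc, List.cons_append,
      List.replicate_append_replicate]
    congr 3
    omega

/-- long overlapping paths contain edges `0` with a small offset -/
theorem search3 {φ : Fin (m+1) → ℝ} (hφ : ∀ i, 0 < φ i) (hle : ∀ i, φ i ≤ φ 0)
    {t : Fin (m+1) → List (Fin (m+1))} {p q : ℕ} (ht : Lv t p q) (hpq : 3 ≤ max p q)
    (hle' : ∀ i, pull φ t i ≤ pull φ t 0) {H H' : ℝ} (hH : H < 2 * φ 0)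
    (hH' : H' < 2 * pull φ t 0) {x' y : Fin (m+1) → ℤ} {W V : List (Fin (m+1))}
    (hW : ZF (pull φ t) H' W) (hV : ZF φ H V) (P : ℝ)
    (hPx : hh (pull φ t) x' ≤ P) (hPy : hh φ y ≤ P)
    (hQx : P + 4 * pull φ t 0 ≤ hh (pull φ t) x' + hh (pull φ t) (ab W))
    (hQy : P + 4 * pull φ t 0 ≤ hh φ y + hh φ (ab V)) :
    ∃ e ∈ edges ((inc t).mulVec x') (ext t W), ∃ f ∈ edges y V, e.2 = 0 ∧ f.2 = 0 ∧
      2 * |hh φ (f.1 - e.1)| ≤ φ 0 := by
  have h0 := hφ 0
  have hψ : ∀ i, 0 < pull φ t i := fun i => pull_pos' ht.ne hφ i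
  obtain ⟨u, v, huv⟩ := three_zeros ht hpq
  have hψ0 : pull φ t 0 = hh φ (ab u) + 3 * φ 0 + hh φ (ab v) := by
    change hh φ (ab (t 0)) = _
    rw [huv, ab_append, ab_append, hh_add, hh_add, hh_replicate]
    push_cast
    ring
  have hu0 := hh_ab_nonneg hφ u
  have hv0 := hh_ab_nonneg hφ v
  -- a full image of the letter `0`
  obtain ⟨z, r, h1, h2, h3⟩ := next_edge hψ hle' hW x' (P + φ 0 / 2) (by linarith) (by linarith)
  have hzext : hh φ (ab (ext t z)) = hh (pull φ t) (ab z) := by rw [ab_ext, hh_mulVec]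
  have hx : hh φ ((inc t).mulVec x') = hh (pull φ t) x' := hh_mulVec _ _ _
  -- the start of the block
  obtain ⟨x1, hx1⟩ : ∃ x1, x1 = (inc t).mulVec x' + ab (ext t z ++ u) := ⟨_, rfl⟩
  have hx1h : hh φ x1 = hh (pull φ t) x' + hh (pull φ t) (ab z) + hh φ (ab u) := by
    rw [hx1, ab_append, hh_add, hh_add, hx, hzext]; ring
  have hW' : ext t W = (ext t z ++ u) ++ List.replicate 3 0 ++ (v ++ ext t r) := by
    rw [h1, ext_append, ext_cons, huv]
    simp
  have hblock : ∀ i : ℕ, i < 3 → (x1 + (i : ℤ) • ev 0, (0 : Fin (m+1))) ∈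
      edges ((inc t).mulVec x') (ext t W) := by
    intro i hi
    have := run_edge ((inc t).mulVec x') (ext t z ++ u) (v ++ ext t r) 3 i hi
    rw [hW', hx1]
    exact this
  have hheight : ∀ i : ℕ, hh φ (x1 + (i : ℤ) • ev 0) = hh φ x1 + i * φ 0 := by
    intro i
    rw [hh_add]
    congr 1
    simp [hh, ev, mul_comm]
  -- the edge of the other path
  obtain ⟨z2, r2, h4, h5, h6⟩ := next_edge hφ hle hV y (hh φ x1 - φ 0 / 2) (by linarith)
    (by linarith)
  obtain ⟨y1, hy1⟩ : ∃ y1, y1 = y + ab z2 := ⟨_, rfl⟩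
  have hy1h : hh φ y1 = hh φ y + hh φ (ab z2) := by rw [hy1, hh_add]
  have hf : (y1, (0 : Fin (m+1))) ∈ edges y V := by
    rw [h4, hy1]
    exact edge_mem y z2 0 r2
  rw [← hy1h] at h5 h6
  obtain ⟨i, hi, hi2⟩ : ∃ i : ℕ, i < 3 ∧ 2 * |hh φ y1 - (hh φ x1 + i * φ 0)| ≤ φ 0 := by
    rcases le_total (hh φ y1) (hh φ x1 + φ 0 / 2) with h7 | h7
    · refine ⟨0, by norm_num, ?_⟩
      refine (le_div_iff₀' (by norm_num : (0 : ℝ) < 2)).1 ?_
      rw [abs_le]
      push_cast
      constructor <;> linarith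
    · rcases le_total (hh φ y1) (hh φ x1 + 3 * φ 0 / 2) with h8 | h8
      · refine ⟨1, by norm_num, ?_⟩
        refine (le_div_iff₀' (by norm_num : (0 : ℝ) < 2)).1 ?_
        rw [abs_le]
        push_cast
        constructor <;> linarith
      · refine ⟨2, by norm_num, ?_⟩
        refine (le_div_iff₀' (by norm_num : (0 : ℝ) < 2)).1 ?_
        rw [abs_le]
        push_cast
        constructor <;> linarith
  refine ⟨_, hblock i hi, _, hf, rfl, rfl, ?_⟩
  simp only
  rw [hh_sub, hheight]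
  exact hi2

/-! ### companion substitutions -/

/-- `t j = 0 ... 0 (j+1) 0 ... 0` with `a j` letters `0`, and `t m = 0` -/
structure Cmp (t : Fin (m+1) → List (Fin (m+1))) (a : Fin (m+1) → ℕ) : Prop where
  last : t (Fin.last m) = [0]
  form : ∀ j, j ≠ Fin.last m → ∃ p q, p + q = a j ∧
    t j = List.replicate p 0 ++ (j + 1) :: List.replicate q 0

theorem succ_ne_zero {j : Fin (m+1)} (hj : j ≠ Fin.last m) : j + 1 ≠ 0 := by
  intro h
  have h1 := Fin.val_add_one_of_lt (Fin.lt_last_iff_ne_last.2 hj)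
  rw [h] at h1
  simp at h1

theorem succ_inj {i j : Fin (m+1)} (h : i + 1 = j + 1) : i = j := add_right_cancel h

theorem ext_split {t : Fin (m+1) → List (Fin (m+1))} {x : Fin (m+1)}
    (W : List (Fin (m+1))) : ∀ (s r : List (Fin (m+1))), ext t W = s ++ x :: r →
    ∃ W1 c W2 u v, W = W1 ++ c :: W2 ∧ t c = u ++ x :: v ∧ s = ext t W1 ++ u ∧
      r = v ++ ext t W2 := by
  induction W with
  | nil =>
    intro s r h
    simp [ext] at h
  | cons c W ih =>
    intro s r h
    rw [ext_cons, List.append_eq_append_iff] at h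
    rcases h with ⟨a', h1, h2⟩ | ⟨c', h1, h2⟩
    · obtain ⟨W1, c1, W2, u, v, h3, h4, h5, h6⟩ := ih a' r h2
      refine ⟨c :: W1, c1, W2, u, v, by rw [h3]; rfl, h4, ?_, h6⟩
      rw [h1, h5, ext_cons, List.append_assoc]
    · cases c' with
      | nil =>
        rw [List.nil_append] at h2
        obtain ⟨W1, c1, W2, u, v, h3, h4, h5, h6⟩ := ih [] r h2.symm
        refine ⟨c :: W1, c1, W2, u, v, by rw [h3]; rfl, h4, ?_, h6⟩
        rw [ext_cons, List.append_assoc, ← h5, List.append_nil, h1, List.append_nil]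
      | cons y v =>
        rw [List.cons_append, List.cons.injEq] at h2
        refine ⟨[], c, W, s, v, rfl, ?_, ?_, h2.2⟩
        · rw [h1, h2.1]
        · simp [ext]

/-- position of a nonzero letter in an image -/
theorem Cmp.letter {t : Fin (m+1) → List (Fin (m+1))} {a : Fin (m+1) → ℕ} (h : Cmp t a)
    {c x : Fin (m+1)} {u v : List (Fin (m+1))} (hx : x ≠ 0) (hc : t c = u ++ x :: v) :
    c ≠ Fin.last m ∧ x = c + 1 ∧ (∀ z ∈ u, z = 0) ∧ (∀ z ∈ v, z = 0) ∧
      u.length + v.length = a c := by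
  have hcl : c ≠ Fin.last m := by
    rintro rfl
    rw [h.last] at hc
    have h1 : x ∈ [(0 : Fin (m+1))] := by rw [hc]; simp
    rw [List.mem_singleton] at h1
    exact hx h1
  obtain ⟨p, q, hpq, h1⟩ := h.form c hcl
  rw [h1] at hc
  have h2 : List.replicate p (0 : Fin (m+1)) = u ∧ (c + 1) :: List.replicate q 0 = x :: v := by
    rw [List.append_eq_append_iff] at hc
    rcases hc with ⟨a', h3, h4⟩ | ⟨c', h3, h4⟩
    · cases a' with
      | nil => exact ⟨by rw [h3, List.append_nil], by simpa using h4⟩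
      | cons b a' =>
        exfalso
        rw [List.cons_append, List.cons.injEq] at h4
        have h5 : x ∈ List.replicate q (0 : Fin (m+1)) := by rw [h4.2]; simp
        exact hx (List.eq_of_mem_replicate h5)
    · cases c' with
      | nil => exact ⟨by rw [h3, List.append_nil], by simpa using h4.symm⟩
      | cons b c' =>
        exfalso
        rw [List.cons_append, List.cons.injEq] at h4
        have h5 : x ∈ List.replicate p (0 : Fin (m+1)) := by rw [h3, h4.1]; simp
        exact hx (List.eq_of_mem_replicate h5)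
  rw [List.cons.injEq] at h2
  obtain ⟨h3, h4, h5⟩ := h2
  refine ⟨hcl, h4.symm, ?_, ?_, ?_⟩
  · intro z hz
    rw [← h3] at hz
    exact List.eq_of_mem_replicate hz
  · intro z hz
    rw [← h5] at hz
    exact List.eq_of_mem_replicate hz
  · rw [← h3, ← h5, List.length_replicate, List.length_replicate, hpq]

theorem Cmp.zero_mem {t : Fin (m+1) → List (Fin (m+1))} {a : Fin (m+1) → ℕ} (h : Cmp t a)
    {c : Fin (m+1)} (hc : c = Fin.last m ∨ 1 ≤ a c) : (0 : Fin (m+1)) ∈ t c := by
  by_cases hcl : c = Fin.last m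
  · rw [hcl, h.last]; simp
  · obtain ⟨p, q, hpq, h1⟩ := h.form c hcl
    have h2 : 1 ≤ a c := by
      rcases hc with h | h
      · exact absurd h hcl
      · exact h
    rw [h1]
    rcases Nat.eq_zero_or_pos p with h3 | h3
    · have : 0 < q := by omega
      simp [this.ne']
    · simp [h3.ne']

/-- between two occurrences of a nonzero letter there is a letter `0` -/
def NR (W : List (Fin (m+1))) : Prop :=
  ∀ x, x ≠ 0 → ∀ mid, (∀ y ∈ mid, y ≠ 0) → ¬ (x :: (mid ++ [x]) <:+: W)

theorem Cmp.nr {t : Fin (m+1) → List (Fin (m+1))} {a : Fin (m+1) → ℕ} (h : Cmp t a)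
    (ha : 1 ≤ a 0) {W : List (Fin (m+1))} (hW : NR W) : NR (ext t W) := by
  intro x hx mid hmid ⟨s, r, hsr⟩
  have h1 : ext t W = s ++ x :: (mid ++ x :: r) := by
    rw [← hsr]; simp
  obtain ⟨W1, c, W2, u, v, h2, h3, h4, h5⟩ := ext_split W s _ h1
  obtain ⟨hc, hxc, hu, hv, huv⟩ := h.letter hx h3
  -- `v = []`
  have hv0 : v = [] := by
    cases v with
    | nil => rfl
    | cons b v =>
      exfalso
      have hb : b = 0 := hv b (List.mem_cons_self ..)
      cases mid with
      | nil =>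
        rw [List.nil_append, List.cons_append, List.cons.injEq] at h5
        exact hx (h5.1.trans hb)
      | cons y mid =>
        rw [List.cons_append, List.cons_append, List.cons.injEq] at h5
        exact hmid y (List.mem_cons_self ..) (h5.1.trans hb)
  rw [hv0, List.nil_append] at h5
  obtain ⟨W3, c', W4, u', v', h6, h7, h8, h9⟩ := ext_split W2 mid r h5.symm
  obtain ⟨hc', hxc', hu', hv', huv'⟩ := h.letter hx h7
  have hcc : c = c' := succ_inj (hxc.symm.trans hxc')
  have hu0 : u' = [] := by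
    cases u' with
    | nil => rfl
    | cons b u' =>
      exfalso
      have hb : b = 0 := hu' b (List.mem_cons_self ..)
      refine hmid b ?_ hb
      rw [h8]
      simp
  rw [hu0, List.append_nil] at h8
  rw [← hcc, hu0] at h7
  rw [hv0] at h3
  by_cases hc0 : c = 0
  · -- both blocks of zeros are empty
    rw [hv0] at huv
    have h10 : t c = u ++ [x] := h3
    rw [h7, List.nil_append] at h10
    cases u with
    | nil =>
      rw [hc0] at huv
      simp at huv
      omega
    | cons b u =>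
      rw [List.cons_append, List.cons.injEq] at h10
      exact hx (h10.1.trans (hu b (List.mem_cons_self ..)))
  · refine hW c hc0 W3 ?_ ⟨W1, W4, ?_⟩
    · intro y hy hy0
      have h10 : (0 : Fin (m+1)) ∈ ext t W3 := by
        unfold ext
        rw [List.mem_flatMap]
        exact ⟨0, hy0 ▸ hy, h.zero_mem (Or.inr ha)⟩
      rw [← h8] at h10
      exact hmid 0 h10 rfl
    · rw [h2, h6, ← hcc]; simp

theorem nr_compList {l : List (Fin (m+1) → List (Fin (m+1)))}
    (hl : ∀ t ∈ l, ∃ a, Cmp t a ∧ 1 ≤ a 0) (c : Fin (m+1)) : NR (compList l c) := by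
  induction l with
  | nil =>
    intro x hx mid hmid hin
    have h1 := hin.length_le
    simp [compList] at h1
  | cons t l ih =>
    obtain ⟨a, h1, h2⟩ := hl t (List.mem_cons_self ..)
    exact h1.nr h2 (ih fun t' h' => hl t' (List.mem_cons_of_mem _ h'))

theorem NR.zf {W : List (Fin (m+1))} (h : NR W) {φ : Fin (m+1) → ℝ} (hφ : ∀ i, 0 < φ i) :
    ZF φ (∑ i ∈ Finset.univ.erase (0 : Fin (m+1)), φ i) W := by
  intro f hf hf0
  have h1 : ∀ x, f.count x ≤ 1 := by
    intro x
    by_contra hcon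
    push Not at hcon
    have hx : x ∈ f := List.count_pos_iff.1 (by omega)
    obtain ⟨s1, s2, h2, h3⟩ := List.eq_append_cons_of_mem hx
    have h4 : s1.count x = 0 := List.count_eq_zero.2 h3
    rw [h2, List.count_append, List.count_cons_self, h4] at hcon
    obtain ⟨s3, s4, h5⟩ := List.append_of_mem (List.count_pos_iff.1 (show 0 < s2.count x by omega))
    refine h x (hf0 x hx) s3 ?_ (List.IsInfix.trans ⟨s1, s4, ?_⟩ hf)
    · intro y hy
      refine hf0 y ?_
      rw [h2, h5]
      simp [hy]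
    · rw [h2, h5]; simp
  unfold hh
  rw [← Finset.add_sum_erase _ _ (Finset.mem_univ (0 : Fin (m+1)))]
  have h2 : ab f 0 = 0 := by
    simp only [ab]
    have : f.count 0 = 0 := List.count_eq_zero.2 fun h0 => hf0 0 h0 rfl
    rw [this]; rfl
  rw [h2]
  simp only [Int.cast_zero, mul_zero, zero_add]
  refine Finset.sum_le_sum fun i _ => ?_
  have h3 : ((ab f i : ℤ) : ℝ) ≤ 1 := by
    simp only [ab]
    exact_mod_cast h1 i
  nlinarith [hφ i]

/-- if all `a j ≥ 1` the factors without `0` have at most two letters -/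
theorem Cmp.two {t : Fin (m+1) → List (Fin (m+1))} {a : Fin (m+1) → ℕ} (h : Cmp t a)
    (ha : ∀ j, 1 ≤ a j) {W : List (Fin (m+1))} {x y z : Fin (m+1)} (hx : x ≠ 0) (hy : y ≠ 0)
    (hz : z ≠ 0) : ¬ ([x, y, z] <:+: ext t W) := by
  rintro ⟨s, r, hsr⟩
  have h1 : ext t W = s ++ x :: (y :: z :: r) := by rw [← hsr]; simp
  obtain ⟨W1, c, W2, u, v, h2, h3, h4, h5⟩ := ext_split W s _ h1
  obtain ⟨hc, hxc, hu, hv, huv⟩ := h.letter hx h3
  have hv0 : v = [] := by
    cases v with
    | nil => rfl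
    | cons b v =>
      exfalso
      rw [List.cons_append, List.cons.injEq] at h5
      exact hy (h5.1.trans (hv b (List.mem_cons_self ..)))
  rw [hv0, List.nil_append] at h5
  have h6 : ext t W2 = [] ++ y :: (z :: r) := by rw [← h5]; rfl
  obtain ⟨W3, c', W4, u', v', h7, h8, h9, h10⟩ := ext_split W2 [] _ h6
  obtain ⟨hc', hyc', hu', hv', huv'⟩ := h.letter hy h8
  have hu0 : u' = [] := (List.append_eq_nil_iff.1 h9.symm).2
  have hlen : 1 ≤ v'.length := by
    have := ha c'
    rw [hu0] at huv'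
    simp at huv'
    omega
  cases v' with
  | nil => simp at hlen
  | cons b v' =>
    rw [List.cons_append, List.cons.injEq] at h10
    exact hz (h10.1.trans (hv' b (List.mem_cons_self ..)))

end Pool.Agent.Helper65K9.PSC
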