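import Pool.Agent.Helper65K9.PSC.Free
import Pool.Agent.Y316.Pisot.Main

/-!
From good expansions to the conclusion of the Pisot conjecture.
-/

set_option autoImplicit false

namespace Pool.Agent.Helper65K9.PSC
open Pool.Agent.H812R2.PI Pool.Agent.Y316.Pisot
open scoped BigOperators

variable {m : ℕ}

theorem iter_add' (S : Fin (m+1) → List (Fin (m+1))) (k n : ℕ) :
    iter S (k + n) = comp (iter S k) (iter S n) := by
  funext a
  rw [iter_add]; rfl

theorem iter_ne {S : Fin (m+1) → List (Fin (m+1))} (hne : ∀ j, S j ≠ []) (n : ℕ) :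
    ∀ j, iter S n j ≠ [] := by
  induction n with
  | zero => intro j; simp [iter_zero]
  | succ n ih =>
    intro j
    rw [iter_succ]
    obtain ⟨a, w, hw⟩ := List.exists_cons_of_ne_nil (ih j)
    rw [hw, ext_cons]
    intro hcon
    exact hne a (List.append_eq_nil_iff.1 hcon).1

/-- a common edge of the `n`-th images -/
def Cm (S : Fin (m+1) → List (Fin (m+1))) (n : ℕ) (a b : Fin (m+1)) (v : Fin (m+1) → ℤ) : Prop :=
  ∃ e, e ∈ edges 0 (iter S n a) ∧ e ∈ edges ((inc (iter S n)).mulVec v) (iter S n b)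

theorem Cm.add {S : Fin (m+1) → List (Fin (m+1))} (hne : ∀ j, S j ≠ []) {n : ℕ}
    {a b : Fin (m+1)} {v : Fin (m+1) → ℤ} (h : Cm S n a b v) (k : ℕ) : Cm S (k + n) a b v := by
  obtain ⟨e, h1, h2⟩ := h
  obtain ⟨c, w, hw⟩ := List.exists_cons_of_ne_nil (iter_ne hne k e.2)
  have h3 : ((inc (iter S k)).mulVec e.1, c) ∈
      edges ((inc (iter S k)).mulVec e.1) (iter S k e.2) := by
    rw [hw]; exact List.mem_cons_self ..
  refine ⟨((inc (iter S k)).mulVec e.1, c), ?_, ?_⟩
  · have := JComp_mem (S := iter S k) h1 h3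
    rw [Matrix.mulVec_zero] at this
    rw [iter_add']
    exact this
  · have := JComp_mem (S := iter S k) h2 h3
    rw [Matrix.mulVec_mulVec, ← inc_comp] at this
    rw [iter_add']
    exact this

theorem semi_of_cm {S : Fin (m+1) → List (Fin (m+1))} (hne : ∀ j, S j ≠ []) (P : PD (inc S))
    (hdet : IsUnit (inc S).det)
    (h : ∀ a b v, 0 < P.OV (0, a) (v, b) → ∃ n, Cm S n a b v) : SemiConjToral S := by
  classical
  refine semi_of_hit P hdet fun D => ?_
  have hfin := Pool.Agent.TH100.Pisot.pairs_finite P D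
  have h1 : ∀ t : Fin (m+1) × Fin (m+1) × (Fin (m+1) → ℤ), ∃ n : ℕ,
      0 < P.OV (0, t.1) (t.2.2, t.2.1) → Cm S n t.1 t.2.1 t.2.2 := by
    intro t
    by_cases ht : 0 < P.OV (0, t.1) (t.2.2, t.2.1)
    · obtain ⟨n, hn⟩ := h _ _ _ ht
      exact ⟨n, fun _ => hn⟩
    · exact ⟨0, fun h => absurd h ht⟩
  choose f hf using h1
  obtain ⟨n₀, hn₀⟩ : ∃ n₀ : ℕ, ∀ t ∈ {t : Fin (m+1) × Fin (m+1) × (Fin (m+1) → ℤ) |
      P.N (rv t.2.2) ≤ D ∧ 0 < P.OV (0, t.1) (t.2.2, t.2.1)}, f t ≤ n₀ := by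
    obtain ⟨K, hK⟩ := (hfin.image f).bddAbove
    exact ⟨K, fun t ht => hK ⟨t, ht, rfl⟩⟩
  refine ⟨n₀, fun n hn a b v hv hov => ?_⟩
  have h2 := hn₀ (a, b, v) ⟨hv, hov⟩
  have h3 := (hf (a, b, v) hov).add hne (n - f (a, b, v))
  rw [Nat.sub_add_cancel (h2.trans hn)] at h3
  exact h3

theorem flatten_succ {α : Type*} (l : List α) (n : ℕ) :
    (List.replicate (n+1) l).flatten = l ++ (List.replicate n l).flatten := by
  rw [List.replicate_succ, List.flatten_cons]

theorem flatten_succ' {α : Type*} (l : List α) (n : ℕ) :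
    (List.replicate (n+1) l).flatten = (List.replicate n l).flatten ++ l := by
  rw [List.replicate_succ', List.flatten_append]
  simp

theorem mem_flatten_replicate {α : Type*} {l : List α} {n : ℕ} {x : α}
    (h : x ∈ (List.replicate n l).flatten) : x ∈ l := by
  rw [List.mem_flatten] at h
  obtain ⟨l', h1, h2⟩ := h
  rw [List.mem_replicate] at h1
  rwa [h1.2] at h2

/-- the functional pulled back by the powers -/
theorem pull_iter {S : Fin (m+1) → List (Fin (m+1))} (P : PD (inc S)) (n : ℕ) (j : Fin (m+1)) :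
    pull P.ell (iter S n) j = P.lam ^ n * P.ell j := by
  change hh P.ell (ab (iter S n j)) = _
  rw [ab_subst, inc_iter]
  have := ht_pow_mulVec P n (ev j)
  rw [ht_eq, ht_eq, hh_ev] at this
  exact this

theorem hh_smul_fun (c : ℝ) (φ : Fin (m+1) → ℝ) (v : Fin (m+1) → ℤ) :
    hh (fun j => c * φ j) v = c * hh φ v := by
  simp only [hh, Finset.mul_sum]
  exact Finset.sum_congr rfl fun i _ => by ring

theorem pull_smul_fun (c : ℝ) (φ : Fin (m+1) → ℝ) (t : Fin (m+1) → List (Fin (m+1))) :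
    pull (fun j => c * φ j) t = fun j => c * pull φ t j := by
  funext j
  exact hh_smul_fun c φ _

/-- the abstract theorem: `l = t₀ :: l₀ = l₁ ++ [t₁]` -/
theorem abstract {l l₀ l₁ : List (Fin (m+1) → List (Fin (m+1)))}
    {t₀ t₁ : Fin (m+1) → List (Fin (m+1))} (h₀ : l = t₀ :: l₀) (h₁ : l = l₁ ++ [t₁])
    (hl : LvL l) {p₀ q₀ p₁ q₁ : ℕ} (ht₀ : Lv t₀ p₀ q₀) (hpq₀ : 3 ≤ max p₀ q₀)
    (ht₁ : Lv t₁ p₁ q₁) (hpq₁ : 3 ≤ max p₁ q₁)
    (P : PD (inc (compList l))) (hdet : IsUnit (inc (compList l)).det)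
    (hle : ∀ i, P.ell i ≤ P.ell 0) (hle₀ : ∀ i, pull P.ell t₀ i ≤ pull P.ell t₀ 0)
    (hle₁ : ∀ i, pull P.ell (compList l₁) i ≤ pull P.ell (compList l₁) 0)
    (hzf : ∃ H < 2 * P.ell 0, ∀ n b, ZF P.ell H (compList ((List.replicate (n+1) l).flatten) b))
    (hzf₀ : ∃ H < 2 * pull P.ell t₀ 0, ∀ n a,
      ZF (pull P.ell t₀) H (compList (l₀ ++ (List.replicate (n+1) l).flatten) a))
    (hex : ∀ r, P.lam * |hh P.ell r| ≤ (((inc t₁ 0 0 : ℤ) : ℝ) - 1) * pull P.ell (compList l₁) 0 →
      ∃ n₀, ∀ n ≥ n₀, Ex P.ell ((List.replicate n l).flatten) r) :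
    SemiConjToral (compList l) := by
  have hne := hl.ne
  have hlam : 0 < P.lam := lt_trans one_pos P.lam_gt
  refine semi_of_cm hne P hdet fun a b v hov => ?_
  -- the overlap
  obtain ⟨δ, hδ, P0, hP0, hP1, hP2, hP3⟩ : ∃ δ : ℝ, 0 < δ ∧ ∃ P0 : ℝ, 0 ≤ P0 ∧ hh P.ell v ≤ P0 ∧
      P0 + δ ≤ P.ell a ∧ P0 + δ ≤ hh P.ell v + P.ell b := by
    unfold PD.OV ovl at hov
    simp only [ht_zero, zero_add] at hov
    rw [ht_eq] at hov
    rcases lt_max_iff.1 hov with h | h
    · exact absurd h (lt_irrefl _)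
    · refine ⟨_, h, max 0 (hh P.ell v), le_max_left _ _, le_max_right _ _, ?_, ?_⟩
      · have := min_le_left (P.ell a) (hh P.ell v + P.ell b)
        linarith
      · have := min_le_right (P.ell a) (hh P.ell v + P.ell b)
        linarith
  obtain ⟨n2, hn2⟩ : ∃ n2 : ℕ, 4 * pull P.ell t₀ 0 ≤ P.lam ^ n2 * δ := by
    have h2 : Filter.Tendsto (fun n : ℕ => P.lam ^ n * δ) Filter.atTop Filter.atTop :=
      (tendsto_pow_atTop_atTop_of_one_lt P.lam_gt).atTop_mul_const hδ
    exact (h2.eventually (Filter.eventually_ge_atTop (4 * pull P.ell t₀ 0))).exists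
  obtain ⟨n, hn⟩ : ∃ n, n = n2 + 2 := ⟨_, rfl⟩
  have hn3 : 4 * pull P.ell t₀ 0 ≤ P.lam ^ n * δ := by
    refine hn2.trans (mul_le_mul_of_nonneg_right ?_ hδ.le)
    exact pow_le_pow_right₀ P.lam_gt.le (by omega)
  -- the list
  have hsplit : (List.replicate n l).flatten = t₀ :: (l₀ ++ (List.replicate (n2+1) l).flatten) := by
    rw [hn, flatten_succ]
    conv_lhs => rw [h₀]
    rw [List.cons_append, ← h₀]
  obtain ⟨W, hW⟩ : ∃ W, W = compList (l₀ ++ (List.replicate (n2+1) l).flatten) := ⟨_, rfl⟩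
  have hcomp : iter (compList l) n = comp t₀ W := by
    rw [← compList_flatten, hsplit, hW]; rfl
  have hψ : ∀ v, hh (pull P.ell t₀) ((inc W).mulVec v) = P.lam ^ n * hh P.ell v := by
    intro v
    rw [← hh_mulVec, Matrix.mulVec_mulVec, ← inc_comp, ← hcomp, inc_iter]
    have := ht_pow_mulVec P n v
    rw [ht_eq, ht_eq] at this
    exact this
  have hψa : ∀ c, hh (pull P.ell t₀) (ab (W c)) = P.lam ^ n * P.ell c := by
    intro c
    rw [ab_subst, hψ, hh_ev]
  obtain ⟨H, hH, hzf⟩ := hzf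
  obtain ⟨H', hH', hzf₀⟩ := hzf₀
  have hlamn : 0 < P.lam ^ n := pow_pos hlam n
  have hV : ZF P.ell H (iter (compList l) n b) := by
    have := hzf (n2 + 1) b
    rw [compList_flatten] at this
    rw [hn]
    exact this
  have hVh : ∀ v, hh P.ell ((inc (iter (compList l) n)).mulVec v) = P.lam ^ n * hh P.ell v := by
    intro v
    rw [inc_iter]
    have := ht_pow_mulVec P n v
    rw [ht_eq, ht_eq] at this
    exact this
  have hVab : ∀ c, hh P.ell (ab (iter (compList l) n c)) = P.lam ^ n * P.ell c := by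
    intro c
    rw [ab_subst, hVh, hh_ev]
  obtain ⟨e, he, f, hf, he2, hf2, hef⟩ := search3 P.ell_pos hle ht₀ hpq₀ hle₀ hH hH'
    (x' := 0) (y := (inc (iter (compList l) n)).mulVec v) (W := W a)
    (V := iter (compList l) n b) (by rw [hW]; exact hzf₀ n2 a) hV (P.lam ^ n * P0)
    (by rw [hh_zero]; exact mul_nonneg hlamn.le hP0)
    (by rw [hVh]; exact mul_le_mul_of_nonneg_left hP1 hlamn.le)
    (by
      rw [hh_zero, hψa, zero_add]
      have := mul_le_mul_of_nonneg_left hP2 hlamn.le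
      linarith)
    (by
      rw [hVh, hVab]
      have := mul_le_mul_of_nonneg_left hP3 hlamn.le
      linarith)
  -- the second part
  obtain ⟨y, hy⟩ : ∃ y, y = f.1 - e.1 := ⟨_, rfl⟩
  rw [← hy] at hef
  obtain ⟨n1, hn1⟩ : ∃ n1 : ℕ, Co (iter (compList l) n1) y := by
    have hT : ∀ r, ∃ n₀ : ℕ, P.lam * |hh P.ell r| ≤
        (((inc t₁ 0 0 : ℤ) : ℝ) - 1) * pull P.ell (compList l₁) 0 →
        ∀ n ≥ n₀, Ex P.ell ((List.replicate n l).flatten) r := by
      intro r
      by_cases hr : P.lam * |hh P.ell r| ≤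
        (((inc t₁ 0 0 : ℤ) : ℝ) - 1) * pull P.ell (compList l₁) 0
      · obtain ⟨n₀, h⟩ := hex r hr
        exact ⟨n₀, fun _ => h⟩
      · exact ⟨0, fun h => absurd h hr⟩
    choose g hg using hT
    obtain ⟨N, hN⟩ : ∃ N, N = g y + g (-y) + g (y - ev 0) + g (-y - ev 0) := ⟨_, rfl⟩
    refine ⟨N + 1, ?_⟩
    have hsplit1 : (List.replicate (N+1) l).flatten =
        ((List.replicate N l).flatten ++ l₁) ++ [t₁] := by
      rw [flatten_succ', List.append_assoc, ← h₁]
    have hpull1 : ∀ i, pull P.ell (compList ((List.replicate N l).flatten ++ l₁)) i =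
        P.lam ^ N * pull P.ell (compList l₁) i := by
      intro i
      rw [compList_append, pull_comp, compList_flatten]
      have : pull P.ell (iter (compList l) N) = fun j => P.lam ^ N * P.ell j := by
        funext j; exact pull_iter P N j
      rw [this, pull_smul_fun]
    have hpull2 : pull P.ell (compList (((List.replicate N l).flatten ++ l₁) ++ [t₁])) =
        fun j => P.lam ^ (N+1) * P.ell j := by
      rw [← hsplit1, compList_flatten]
      funext j; exact pull_iter P (N+1) j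
    have hlamN : 0 < P.lam ^ N := pow_pos hlam N
    have hlv : LvL ((List.replicate N l).flatten ++ l₁) := by
      intro t ht
      rw [List.mem_append] at ht
      rcases ht with h | h
      · exact hl t (mem_flatten_replicate h)
      · exact hl t (by rw [h₁]; simp [h])
    have := start (φ := P.ell) P.ell_pos (l := (List.replicate N l).flatten ++ l₁) (t := t₁) hlv
      ht₁ hpq₁
      (by
        intro i
        rw [hpull1, hpull1]
        exact mul_le_mul_of_nonneg_left (hle₁ i) hlamN.le)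
      (y := y) (fun r => r = y ∨ r = -y ∨ r = y - ev 0 ∨ r = -y - ev 0)
      ⟨by simp, by simp, by simp, by simp⟩
      (by
        intro r hr hb
        rw [hpull1, hpull2, hh_smul_fun, abs_mul, abs_of_pos (pow_pos hlam (N+1))] at hb
        have hb2 : P.lam * |hh P.ell r| ≤
            (((inc t₁ 0 0 : ℤ) : ℝ) - 1) * pull P.ell (compList l₁) 0 := by
          refine le_of_mul_le_mul_left ?_ hlamN
          rw [pow_succ] at hb
          linarith
        rw [← hsplit1]
        refine hg r hb2 (N + 1) ?_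
        rcases hr with h | h | h | h <;> rw [h] <;> omega)
      (by
        rw [hpull2, hh_smul_fun, abs_mul, abs_of_pos (pow_pos hlam (N+1))]
        have := mul_le_mul_of_nonneg_left hef (pow_pos hlam (N+1)).le
        linarith)
    rw [← hsplit1, compList_flatten] at this
    exact this
  obtain ⟨g, hg1, hg2⟩ := hn1
  refine ⟨n1 + n, (g.1 + (inc (iter (compList l) n1)).mulVec e.1, g.2), ?_, ?_⟩
  · rw [iter_add']
    refine JComp_mem0 (S := iter (compList l) n1) (T := iter (compList l) n) (g := e) ?_ (h := g) ?_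
    · have h1 := he
      rw [Matrix.mulVec_zero] at h1
      rw [hcomp]
      exact h1
    · rw [he2]; exact hg1
  · rw [iter_add']
    refine JComp_mem1 (S := iter (compList l) n1) (T := iter (compList l) n) (g := e) (f := f) hf
      (h := g) ?_
    rw [hf2, ← hy]
    exact hg2

end Pool.Agent.Helper65K9.PSC
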