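import Pool.Agent.Helper65K9.PSC.Co

/-!
Good expansions lead to common edges.
-/

set_option autoImplicit false

namespace Pool.Agent.Helper65K9.PSC
open Pool.Agent.H812R2.PI Pool.Agent.Y316.Pisot
open scoped BigOperators

variable {m : ℕ}

/-- far representation -/
def Fa (S : Fin (m+1) → List (Fin (m+1))) (ψ : Fin (m+1) → ℝ) (r : Fin (m+1) → ℤ) : Prop :=
  (0 < hh ψ r ∧ Co S (r - ev 0)) ∨ (hh ψ r < 0 ∧ Co S (r + ev 0))

theorem Fa.neg {S : Fin (m+1) → List (Fin (m+1))} {ψ : Fin (m+1) → ℝ} {r : Fin (m+1) → ℤ}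
    (h : Fa S ψ r) : Fa S ψ (-r) := by
  rcases h with ⟨h1, h2⟩ | ⟨h1, h2⟩
  · right
    refine ⟨by rw [hh_neg]; linarith, ?_⟩
    have := h2.neg
    rwa [neg_sub, sub_eq_neg_add] at this
  · left
    refine ⟨by rw [hh_neg]; linarith, ?_⟩
    have := h2.neg
    rwa [neg_add, ← sub_eq_add_neg] at this

/-- the levels: `t 0 = 0^p b 0^q`, `b ≠ 0`, images are not empty -/
structure Lv (t : Fin (m+1) → List (Fin (m+1))) (p q : ℕ) : Prop where
  form : ∃ b : Fin (m+1), b ≠ 0 ∧ t 0 = List.replicate p 0 ++ b :: List.replicate q 0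
  ne : ∀ j, t j ≠ []

theorem Lv.blk {t : Fin (m+1) → List (Fin (m+1))} {p q : ℕ} (h : Lv t p q) : Blk t p q := by
  obtain ⟨b, -, hb⟩ := h.form
  exact ⟨b, hb⟩

theorem pull_pos' {φ : Fin (m+1) → ℝ} {t : Fin (m+1) → List (Fin (m+1))} (h : ∀ j, t j ≠ [])
    (hφ : ∀ i, 0 < φ i) (j : Fin (m+1)) : 0 < pull φ t j := by
  obtain ⟨a, w, hw⟩ := List.exists_cons_of_ne_nil (h j)
  change 0 < hh φ (ab (t j))
  rw [hw, ab_cons, hh_add, hh_ev]
  linarith [hφ a, hh_ab_nonneg hφ w]

theorem Lv.pull_zero {φ : Fin (m+1) → ℝ} {t : Fin (m+1) → List (Fin (m+1))} {p q : ℕ}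
    (h : Lv t p q) : ∃ b : Fin (m+1), b ≠ 0 ∧ pull φ t 0 = (p + q) * φ 0 + φ b := by
  obtain ⟨b, hb0, hb⟩ := h.form
  refine ⟨b, hb0, ?_⟩
  change hh φ (ab (t 0)) = _
  rw [hb, ab_append, ab_cons, hh_add, hh_add, hh_ev, hh_replicate, hh_replicate]
  ring

section step
variable {S t : Fin (m+1) → List (Fin (m+1))} {ψ : Fin (m+1) → ℝ} {p q : ℕ}

/-- the height of a child -/
theorem hh_child (r : Fin (m+1) → ℤ) (k : ℤ) :
    hh ψ ((inc t).mulVec r - k • ev 0) = hh (pull ψ t) r - k * ψ 0 := by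
  rw [hh_sub, hh_mulVec]
  congr 1
  simp [hh, ev, mul_comm]

theorem int_lt_of {x : ℝ} (hx : 0 < x) {a b : ℤ} (h : (a : ℝ) * x < b * x) : a < b := by
  have := lt_of_mul_lt_mul_right h hx.le
  exact_mod_cast this

/-- one step for positive height -/
theorem step_pos (hL : Lv t p q) (hψ : ∀ i, 0 < ψ i) (hS : S 0 ≠ []) {r : Fin (m+1) → ℤ} {k : ℤ}
    (hr : 0 < hh (pull ψ t) r) (hr2 : hh (pull ψ t) r ≤ (p + q - 1) * ψ 0)
    (hr' : |hh ψ ((inc t).mulVec r - k • ev 0)| < ψ 0)
    (h : (inc t).mulVec r - k • ev 0 = 0 ∨ Co S ((inc t).mulVec r - k • ev 0) ∨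
      Fa S ψ ((inc t).mulVec r - k • ev 0)) :
    ((1 ≤ p ∧ 1 ≤ q) → Fa (comp S t) (pull ψ t) r ∨
      (hh (pull ψ t) r < ψ 0 ∧ Co (comp S t) r)) ∧
    ((p = 0 ∨ q = 0) → Co (comp S t) r) := by
  have h0 := hψ 0
  have hb := hL.blk
  obtain ⟨H, hH⟩ : ∃ H, H = hh (pull ψ t) r := ⟨_, rfl⟩
  obtain ⟨H', hH'⟩ : ∃ H', H' = hh ψ ((inc t).mulVec r - k • ev 0) := ⟨_, rfl⟩
  have hHH : H' = H - k * ψ 0 := by rw [hH', hH, hh_child]
  rw [← hH] at hr hr2 ⊢
  rw [← hH'] at hr'
  have hab := abs_lt.1 hr'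
  -- `0 ≤ k ≤ p + q - 1`
  have hk0 : 0 ≤ k := by
    have : (-1 : ℤ) < k := by
      refine int_lt_of h0 ?_
      push_cast
      linarith [hab.2]
    omega
  have hk1 : k ≤ p + q - 1 := by
    have : k < (p + q : ℤ) := by
      refine int_lt_of h0 ?_
      push_cast
      linarith [hab.1]
    omega
  have hcore : ∃ n : ℤ, Co S ((inc t).mulVec r - n • ev 0) ∧ 0 ≤ n ∧ n ≤ p + q - 1 ∧
      (n = 0 → H < ψ 0) := by
    rcases h with h | h | h
    · refine ⟨k, by rw [h]; exact co_zero hS, hk0, hk1, fun hk => ?_⟩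
      rw [hk] at h hHH
      have h2 : H' = 0 := by rw [hH', hk, h, hh_zero]
      rw [h2] at hHH
      push_cast at hHH
      linarith
    · refine ⟨k, h, hk0, hk1, fun hk => ?_⟩
      rw [hk] at hHH
      push_cast at hHH
      linarith [hab.2]
    · rcases h with ⟨h1, h2⟩ | ⟨h1, h2⟩
      · rw [← hH'] at h1
        refine ⟨k + 1, ?_, by omega, ?_, fun hk => by omega⟩
        · rw [add_smul, one_smul, ← sub_sub]; exact h2
        · have : k < (p + q - 1 : ℤ) := by
            refine int_lt_of h0 ?_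
            push_cast
            linarith
          omega
      · rw [← hH'] at h1
        have hk2 : 0 < k := by
          refine int_lt_of h0 ?_
          push_cast
          linarith
        refine ⟨k - 1, ?_, by omega, by omega, fun hk => ?_⟩
        · rw [sub_smul, one_smul, sub_sub_eq_add_sub, add_sub_right_comm]; exact h2
        · have hk3 : k = 1 := by omega
          rw [hk3] at hHH
          push_cast at hHH
          linarith
  obtain ⟨n, hn, hn0, hn1, hn2⟩ := hcore
  constructor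
  · rintro ⟨hp, hq⟩
    rcases eq_or_lt_of_le hn0 with h1 | h1
    · right
      refine ⟨hn2 h1.symm, near hb (k := n) ?_ hn⟩
      rw [← h1, abs_zero]
      exact lt_max_of_lt_left (by exact_mod_cast hp)
    · left
      left
      rw [← hH]
      exact ⟨hr, far hb hp hq (by omega) hn1 hn⟩
  · intro hpq
    refine near hb (k := n) ?_ hn
    rw [abs_of_nonneg hn0]
    rcases hpq with h1 | h1
    · refine lt_max_of_lt_right ?_
      rw [h1] at hn1
      push_cast at hn1
      omega
    · refine lt_max_of_lt_left ?_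
      rw [h1] at hn1
      push_cast at hn1
      omega

theorem child_neg (r : Fin (m+1) → ℤ) (k : ℤ) :
    (inc t).mulVec (-r) - (-k) • (ev 0 : Fin (m+1) → ℤ) =
      -((inc t).mulVec r - k • ev 0) := by
  rw [Matrix.mulVec_neg, neg_smul]; abel

/-- one step -/
theorem step_all (hL : Lv t p q) (hpq : 1 ≤ p + q) (hψ : ∀ i, 0 < ψ i) (hS : S 0 ≠ [])
    {r : Fin (m+1) → ℤ} {k : ℤ}
    (hr2 : |hh (pull ψ t) r| ≤ (p + q - 1) * ψ 0)
    (hr' : |hh ψ ((inc t).mulVec r - k • ev 0)| < ψ 0)
    (h : (inc t).mulVec r - k • ev 0 = 0 ∨ Co S ((inc t).mulVec r - k • ev 0) ∨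
      Fa S ψ ((inc t).mulVec r - k • ev 0)) :
    ((1 ≤ p ∧ 1 ≤ q) → Fa (comp S t) (pull ψ t) r ∨
      (|hh (pull ψ t) r| < ψ 0 ∧ Co (comp S t) r)) ∧
    ((p = 0 ∨ q = 0) → Co (comp S t) r) := by
  have h0 := hψ 0
  rcases lt_trichotomy (hh (pull ψ t) r) 0 with h1 | h1 | h1
  · have h2 : hh (pull ψ t) (-r) = -hh (pull ψ t) r := hh_neg _ _
    have h3 := step_pos (k := -k) hL hψ hS (r := -r) (by rw [h2]; linarith)
      (by rw [h2]; exact (neg_le_abs _).trans hr2) (by rw [child_neg, hh_neg, abs_neg]; exact hr')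
      (by
        rw [child_neg]
        rcases h with h | h | h
        · left; rw [h, neg_zero]
        · right; left; exact h.neg
        · right; right; exact h.neg)
    refine ⟨fun hpq => ?_, fun hpq => Co.neg_iff.1 (h3.2 hpq)⟩
    rcases h3.1 hpq with h4 | ⟨h4, h5⟩
    · left
      have := h4.neg
      rwa [neg_neg] at this
    · right
      refine ⟨?_, Co.neg_iff.1 h5⟩
      rw [abs_of_neg h1, ← h2]
      exact h4
  · -- height zero
    have hk : k = 0 := by
      rw [hh_child, h1, zero_sub, abs_neg, abs_mul, abs_of_pos h0] at hr'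
      have h3 : |(k : ℝ)| < 1 := by
        refine lt_of_mul_lt_mul_right ?_ h0.le
        linarith
      have h4 : |k| < 1 := by exact_mod_cast h3
      exact Int.abs_lt_one_iff.1 h4
    have hz : hh ψ ((inc t).mulVec r - k • ev 0) = 0 := by
      rw [hh_child, h1, hk]; simp
    have hco : Co S ((inc t).mulVec r - k • ev 0) := by
      rcases h with h | h | h
      · rw [h]; exact co_zero hS
      · exact h
      · rcases h with ⟨h5, -⟩ | ⟨h5, -⟩
        · rw [hz] at h5; exact absurd h5 (lt_irrefl _)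
        · rw [hz] at h5; exact absurd h5 (lt_irrefl _)
    have hc : Co (comp S t) r := by
      refine near hL.blk (k := k) ?_ hco
      rw [hk, abs_zero]
      rcases Nat.eq_zero_or_pos p with h5 | h5
      · exact lt_max_of_lt_right (by omega)
      · exact lt_max_of_lt_left (by omega)
    exact ⟨fun _ => Or.inr ⟨by rw [h1, abs_zero]; exact h0, hc⟩, fun _ => hc⟩
  · have h3 := step_pos hL hψ hS h1 ((le_abs_self _).trans hr2) hr' h
    refine ⟨fun hpq => ?_, h3.2⟩
    rcases h3.1 hpq with h4 | ⟨h4, h5⟩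
    · left; exact h4
    · right
      exact ⟨by rw [abs_of_pos h1]; exact h4, h5⟩

/-- start near `0`: positive height -/
theorem near_start_pos (hL : Lv t p q) (hψ : ∀ i, 0 < ψ i) (hS : S 0 ≠ [])
    {r : Fin (m+1) → ℤ} {k : ℤ} (hr : 0 ≤ hh (pull ψ t) r)
    (hr2 : hh (pull ψ t) r < (max (p : ℝ) q - 1) * ψ 0)
    (hr' : |hh ψ ((inc t).mulVec r - k • ev 0)| < ψ 0)
    (h : (inc t).mulVec r - k • ev 0 = 0 ∨ Co S ((inc t).mulVec r - k • ev 0) ∨
      Fa S ψ ((inc t).mulVec r - k • ev 0)) : Co (comp S t) r := by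
  have h0 := hψ 0
  have hb := hL.blk
  obtain ⟨H, hH⟩ : ∃ H, H = hh (pull ψ t) r := ⟨_, rfl⟩
  obtain ⟨H', hH'⟩ : ∃ H', H' = hh ψ ((inc t).mulVec r - k • ev 0) := ⟨_, rfl⟩
  have hHH : H' = H - k * ψ 0 := by rw [hH', hH, hh_child]
  rw [← hH] at hr hr2
  rw [← hH'] at hr'
  have hab := abs_lt.1 hr'
  have hmax : ((max (p : ℤ) q : ℤ) : ℝ) = max (p : ℝ) q := by push_cast; rfl
  have hk0 : 0 ≤ k := by
    have : (-1 : ℤ) < k := by
      refine int_lt_of h0 ?_
      push_cast
      linarith [hab.2]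
    omega
  have hk1 : k < max (p : ℤ) q := by
    refine int_lt_of h0 ?_
    rw [hmax]
    linarith [hab.1]
  obtain ⟨n, hn, hn1⟩ : ∃ n : ℤ, Co S ((inc t).mulVec r - n • ev 0) ∧ |n| < max (p : ℤ) q := by
    rcases h with h | h | h
    · exact ⟨k, by rw [h]; exact co_zero hS, by rw [abs_of_nonneg hk0]; exact hk1⟩
    · exact ⟨k, h, by rw [abs_of_nonneg hk0]; exact hk1⟩
    · rcases h with ⟨h1, h2⟩ | ⟨h1, h2⟩
      · rw [← hH'] at h1
        refine ⟨k + 1, ?_, ?_⟩
        · rw [add_smul, one_smul, ← sub_sub]; exact h2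
        · have : k < max (p : ℤ) q - 1 := by
            refine int_lt_of h0 ?_
            rw [Int.cast_sub, hmax]
            push_cast
            linarith
          rw [abs_of_nonneg (by omega)]
          omega
      · rw [← hH'] at h1
        have hk2 : 0 < k := by
          refine int_lt_of h0 ?_
          push_cast
          linarith
        refine ⟨k - 1, ?_, ?_⟩
        · rw [sub_smul, one_smul, sub_sub_eq_add_sub, add_sub_right_comm]; exact h2
        · rw [abs_of_nonneg (by omega)]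
          omega
  exact near hb hn1 hn

end step

/-- good expansions along a list of substitutions (the last one is applied first) -/
inductive Ex (φ : Fin (m+1) → ℝ) :
    List (Fin (m+1) → List (Fin (m+1))) → (Fin (m+1) → ℤ) → Prop
  | zero (l : List (Fin (m+1) → List (Fin (m+1)))) : Ex φ l 0
  | step (l : List (Fin (m+1) → List (Fin (m+1)))) (t : Fin (m+1) → List (Fin (m+1)))
      (r : Fin (m+1) → ℤ) (k : ℤ)
      (hb : |hh (pull φ (compList (l ++ [t]))) r| ≤
        (((inc t 0 0 : ℤ) : ℝ) - 1) * pull φ (compList l) 0)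
      (h : Ex φ l ((inc t).mulVec r - k • ev 0)) : Ex φ (l ++ [t]) r

theorem compList_snoc (l : List (Fin (m+1) → List (Fin (m+1))))
    (t : Fin (m+1) → List (Fin (m+1))) : compList (l ++ [t]) = comp (compList l) t := by
  rw [compList_append]
  congr 1
  funext a
  simp [compList, comp, ext]

theorem pull_snoc (φ : Fin (m+1) → ℝ) (l : List (Fin (m+1) → List (Fin (m+1))))
    (t : Fin (m+1) → List (Fin (m+1))) :
    pull φ (compList (l ++ [t])) = pull (pull φ (compList l)) t := by
  rw [compList_snoc, pull_comp]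

/-- the substitutions of the list have the form `Lv` -/
def LvL (L : List (Fin (m+1) → List (Fin (m+1)))) : Prop :=
  ∀ t ∈ L, ∃ p q, Lv t p q ∧ 1 ≤ p + q

theorem LvL.ne {L : List (Fin (m+1) → List (Fin (m+1)))} (h : LvL L) :
    ∀ j, compList L j ≠ [] := by
  induction L with
  | nil => intro j; simp [compList]
  | cons t l ih =>
    intro j
    obtain ⟨p, q, ht, -⟩ := h t (List.mem_cons_self ..)
    have ih := ih fun t' h' => h t' (List.mem_cons_of_mem _ h')
    simp only [compList, comp]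
    obtain ⟨a, w, hw⟩ := List.exists_cons_of_ne_nil (ih j)
    rw [hw, ext_cons]
    intro hcon
    exact ht.ne a (List.append_eq_nil_iff.1 hcon).1

theorem LvL.pos {L : List (Fin (m+1) → List (Fin (m+1)))} (h : LvL L) {φ : Fin (m+1) → ℝ}
    (hφ : ∀ i, 0 < φ i) : ∀ i, 0 < pull φ (compList L) i :=
  fun i => pull_pos' h.ne hφ i

theorem Lv.inc00 {t : Fin (m+1) → List (Fin (m+1))} {p q : ℕ} (h : Lv t p q) :
    ((inc t 0 0 : ℤ) : ℝ) = p + q := by
  obtain ⟨b, hb0, hb⟩ := h.form
  have : (t 0).count 0 = p + q := by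
    rw [hb, List.count_append, List.count_replicate_self, List.count_cons_of_ne (by exact hb0),
      List.count_replicate_self]
  simp only [inc, this]
  push_cast
  ring

theorem Ex.bound {φ : Fin (m+1) → ℝ} (hφ : ∀ i, 0 < φ i)
    {L : List (Fin (m+1) → List (Fin (m+1)))} {r : Fin (m+1) → ℤ} (h : Ex φ L r)
    (hL : LvL L) : |hh (pull φ (compList L)) r| < pull φ (compList L) 0 := by
  cases h with
  | zero => rw [hh_zero, abs_zero]; exact hL.pos hφ 0
  | step l t r k hb h =>
    refine lt_of_le_of_lt hb ?_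
    obtain ⟨p, q, ht, -⟩ := hL t (by simp)
    have hl : LvL l := fun t' h' => hL t' (by simp [h'])
    have hpos := hl.pos hφ
    obtain ⟨b, -, h1⟩ := ht.pull_zero (φ := pull φ (compList l))
    rw [pull_snoc, h1, ht.inc00]
    have h2 := hpos 0
    have h3 := hpos b
    linarith

/-- a vector with a good expansion leads to a common edge -/
theorem path {φ : Fin (m+1) → ℝ} (hφ : ∀ i, 0 < φ i)
    {L : List (Fin (m+1) → List (Fin (m+1)))} {r : Fin (m+1) → ℤ} (h : Ex φ L r)
    (hL : LvL L) : r = 0 ∨ Co (compList L) r ∨ Fa (compList L) (pull φ (compList L)) r := by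
  induction h with
  | zero => exact Or.inl rfl
  | step l t r k hb h ih =>
    obtain ⟨p, q, ht, hpq⟩ := hL t (by simp)
    have hl : LvL l := fun t' h' => hL t' (by simp [h'])
    have ih := ih hl
    have hpos := hl.pos hφ
    have h1 := h.bound hφ hl
    rw [ht.inc00, pull_snoc] at hb
    have h2 := step_all ht hpq hpos (hl.ne 0) hb h1 ih
    rw [pull_snoc, compList_snoc]
    right
    by_cases hcase : 1 ≤ p ∧ 1 ≤ q
    · rcases h2.1 hcase with h3 | h3
      · exact Or.inr h3
      · exact Or.inl h3.2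
    · exact Or.inl (h2.2 (by omega))

/-- overlapping pairs of edges `0` with offset at most half the length of the edge -/
theorem start {φ : Fin (m+1) → ℝ} (hφ : ∀ i, 0 < φ i)
    {l : List (Fin (m+1) → List (Fin (m+1)))} {t : Fin (m+1) → List (Fin (m+1))} (hl : LvL l)
    {p q : ℕ} (ht : Lv t p q) (hpq : 3 ≤ max p q)
    (hle : ∀ i, pull φ (compList l) i ≤ pull φ (compList l) 0)
    {y : Fin (m+1) → ℤ} (T : (Fin (m+1) → ℤ) → Prop)
    (hT : T y ∧ T (-y) ∧ T (y - ev 0) ∧ T (-y - ev 0))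
    (hex : ∀ r, T r → |hh (pull φ (compList (l ++ [t]))) r| ≤
        (((inc t 0 0 : ℤ) : ℝ) - 1) * pull φ (compList l) 0 → Ex φ (l ++ [t]) r)
    (hy : 2 * |hh (pull φ (compList (l ++ [t]))) y| ≤ pull φ (compList (l ++ [t])) 0) :
    Co (compList (l ++ [t])) y := by
  have hpos := hl.pos hφ
  obtain ⟨ψ, hψ⟩ : ∃ ψ, ψ = pull φ (compList l) := ⟨_, rfl⟩
  rw [ht.inc00, pull_snoc, ← hψ] at hex
  rw [pull_snoc, ← hψ] at hy
  rw [compList_snoc]
  rw [← hψ] at hpos hle
  have h0 := hpos 0
  obtain ⟨b, -, hb⟩ := ht.pull_zero (φ := ψ)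
  have hbpos := hpos b
  have hble := hle b
  have hmax : (3 : ℝ) ≤ max (p : ℝ) q := by
    have : ((max p q : ℕ) : ℝ) = max (p : ℝ) q := by push_cast; rfl
    rw [← this]; exact_mod_cast hpq
  have hmax2 : max (p : ℝ) q ≤ p + q :=
    max_le (by linarith [Nat.cast_nonneg (α := ℝ) q]) (by linarith [Nat.cast_nonneg (α := ℝ) p])
  have hSne := hl.ne 0
  -- what an expansion gives
  have key : ∀ r, T r → |hh (pull ψ t) r| ≤ (p + q - 1) * ψ 0 → r = 0 ∨ ∃ k : ℤ,
      |hh ψ ((inc t).mulVec r - k • ev 0)| < ψ 0 ∧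
      ((inc t).mulVec r - k • ev 0 = 0 ∨ Co (compList l) ((inc t).mulVec r - k • ev 0) ∨
        Fa (compList l) ψ ((inc t).mulVec r - k • ev 0)) := by
    intro r hTr hr
    have h1 := hex r hTr hr
    generalize hL : l ++ [t] = L at h1
    cases h1 with
    | zero => exact Or.inl rfl
    | step l' t' r k hb h =>
      obtain ⟨h2, h3⟩ := List.append_inj' hL rfl
      rw [List.cons.injEq] at h3
      subst h2
      obtain ⟨rfl, -⟩ := h3
      right
      refine ⟨k, ?_, ?_⟩
      · rw [hψ]; exact h.bound hφ hl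
      · rw [hψ]; exact path hφ h hl
  have hsmall : ∀ z : Fin (m+1) → ℤ, 2 * |hh (pull ψ t) z| ≤ pull ψ t 0 →
      |hh (pull ψ t) z| ≤ (p + q - 1) * ψ 0 := by
    intro z hz
    rw [hb] at hz
    nlinarith
  by_cases hcase : 1 ≤ p ∧ 1 ≤ q
  · -- reduce to nonnegative height
    have main : ∀ z : Fin (m+1) → ℤ, T z → T (z - ev 0) → 0 ≤ hh (pull ψ t) z →
        2 * |hh (pull ψ t) z| ≤ pull ψ t 0 → Co (comp (compList l) t) z := by
      intro z hTz hTz' hz hz2
      by_cases hnear : hh (pull ψ t) z < (max (p : ℝ) q - 1) * ψ 0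
      · rcases key z hTz (hsmall z hz2) with h1 | ⟨k, h1, h2⟩
        · rw [h1]
          refine co_zero ?_
          rw [← compList_snoc]
          exact LvL.ne (L := l ++ [t]) (fun t' h' => by
            rcases List.mem_append.1 h' with h'' | h''
            · exact hl t' h''
            · rw [List.mem_singleton] at h''
              rw [h'']
              exact ⟨p, q, ht, by omega⟩) 0
        · exact near_start_pos ht hpos hSne hz hnear h1 h2
      · push Not at hnear
        obtain ⟨r, hr⟩ : ∃ r, r = z - ev 0 := ⟨_, rfl⟩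
        have hhr : hh (pull ψ t) r = hh (pull ψ t) z - pull ψ t 0 := by
          rw [hr, hh_sub, hh_ev]
        have hz3 := abs_of_nonneg hz
        rw [hz3] at hz2
        have hP0 : 0 < pull ψ t 0 := by
          rw [hb]; positivity
        have hneg : hh (pull ψ t) r < 0 := by rw [hhr]; linarith
        have hrb : |hh (pull ψ t) r| ≤ (p + q - 1) * ψ 0 := by
          rw [abs_of_neg hneg, hhr, hb]
          nlinarith
        rcases key r (by rw [hr]; exact hTz') hrb with h1 | ⟨k, h1, h2⟩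
        · rw [h1, hh_zero] at hneg
          exact absurd hneg (lt_irrefl _)
        · rcases (step_all ht (by omega) hpos hSne hrb h1 h2).1 hcase with h3 | ⟨h3, -⟩
          · rcases h3 with ⟨h4, -⟩ | ⟨-, h4⟩
            · linarith
            · rwa [hr, sub_add_cancel] at h4
          · exfalso
            rw [abs_of_neg hneg, hhr] at h3
            rw [hb] at h3 hz2
            nlinarith
    rcases le_total 0 (hh (pull ψ t) y) with h1 | h1
    · exact main y hT.1 hT.2.2.1 h1 hy
    · refine Co.neg_iff.1 (main (-y) hT.2.1 hT.2.2.2 (by rw [hh_neg]; linarith) ?_)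
      rw [hh_neg, abs_neg]
      exact hy
  · rcases key y hT.1 (hsmall y hy) with h1 | ⟨k, h1, h2⟩
    · rw [h1]
      refine co_zero ?_
      rw [← compList_snoc]
      exact LvL.ne (L := l ++ [t]) (fun t' h' => by
        rcases List.mem_append.1 h' with h'' | h''
        · exact hl t' h''
        · rw [List.mem_singleton] at h''
          rw [h'']
          exact ⟨p, q, ht, by omega⟩) 0
    · exact (step_all ht (by omega) hpos hSne (hsmall y hy) h1 h2).2 (by omega)

end Pool.Agent.Helper65K9.PSC
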