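import Pool.Agent.Helper65K9.PSC.Fin
import Pool.Agent.Helper65K9.PSC.Main

/-!
From finite greedy expansions to good expansions.
-/

set_option autoImplicit false

namespace Pool.Agent.Helper65K9.PSC
open Pool.Agent.H812R2.PI Pool.Agent.Y316.Pisot
open scoped BigOperators

variable {m : ℕ} (C : Ctx m)

/-! ### existence of representations -/

/-- there is a representation -/
def Ctx.RpE (z : Fin (m+1) → ℤ) : Prop := ∃ n w, C.Rp n w z

theorem Ctx.RpE.add {C : Ctx m} {z z' : Fin (m+1) → ℤ} (h : C.RpE z) (h' : C.RpE z') :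
    C.RpE (z + z') := by
  obtain ⟨n, w, h⟩ := h
  obtain ⟨n', w', h'⟩ := h'
  exact ⟨max n n', w + w', C.Rp_add _ (C.Rp_mono_n (le_max_left _ _) h)
    (C.Rp_mono_n (le_max_right _ _) h')⟩

theorem Ctx.RpE_zero : C.RpE 0 := ⟨0, 0, C.Rp_zero 0 0⟩

theorem Ctx.RpE_ev (i : Fin (m+1)) : C.RpE (ev i) := by
  have h := C.Rp_diff (m + 1 - i) (i := i) (k := m + 1) (by omega) (Or.inl (by omega))
  rw [En_big (Nat.lt_succ_self m), sub_zero] at h
  have h2 : En m (i : ℕ) = ev i := by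
    unfold En
    rw [dif_pos i.2]
  rw [h2] at h
  exact ⟨_, _, h⟩

theorem Ctx.RpE_nsmul {z : Fin (m+1) → ℤ} (h : C.RpE z) (n : ℕ) : C.RpE (n • z) := by
  induction n with
  | zero => rw [zero_smul]; exact C.RpE_zero
  | succ n ih => rw [succ_nsmul]; exact ih.add h

theorem Ctx.RpE_vec {v : Fin (m+1) → ℤ} (hv : ∀ i, 0 ≤ v i) : C.RpE v := by
  classical
  have h1 : v = ∑ i, (v i).toNat • (ev i : Fin (m+1) → ℤ) := by
    funext j
    rw [Finset.sum_apply, Finset.sum_eq_single j]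
    · simp only [Pi.smul_apply, ev, if_true, nsmul_eq_mul, mul_one]
      have := hv j
      omega
    · intro i _ hij
      simp only [Pi.smul_apply, ev, if_neg (Ne.symm hij), smul_zero]
    · intro h; exact absurd (Finset.mem_univ _) h
  rw [h1]
  exact Finset.sum_induction _ C.RpE (fun _ _ => Ctx.RpE.add) C.RpE_zero
    fun i _ => C.RpE_nsmul (C.RpE_ev i) _

theorem Ctx.RpE_pre {z : Fin (m+1) → ℤ} (h : C.RpE (C.M.mulVec z)) : C.RpE z := by
  obtain ⟨n, w, h⟩ := h
  refine ⟨n + 1, w, 0, Nat.zero_le _, ?_⟩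
  simpa using h

theorem Ctx.RpE_pow (n : ℕ) : ∀ {z : Fin (m+1) → ℤ}, C.RpE ((C.M ^ n).mulVec z) → C.RpE z := by
  induction n with
  | zero => intro z h; simpa using h
  | succ n ih =>
    intro z h
    refine C.RpE_pre (ih ?_)
    rw [Matrix.mulVec_mulVec, ← pow_succ]
    exact h

/-- vectors with positive height are eventually nonnegative -/
theorem eventually_nonneg {d : ℕ} {M : Matrix (Fin d) (Fin d) ℤ} (P : PD M) (a : Fin d)
    {z : Fin d → ℤ} (hz : 0 < P.ht z) : ∃ n : ℕ, ∀ i, 0 ≤ (M ^ n).mulVec z i := by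
  classical
  have hL := GGeom_L P a
  obtain ⟨L, hLd⟩ : ∃ L, L = ∑ i, P.ell i * P.u i := ⟨_, rfl⟩
  obtain ⟨n₁, hn₁⟩ := GGeom_sum P a z 1 one_pos
  obtain ⟨n₂, hn₂⟩ := GGeom_rho P (P.c * P.N (rv z)) 1 one_pos
  rw [← hLd] at hL hn₁
  -- a lower bound for `u`
  obtain ⟨δ, hδ, hδu⟩ : ∃ δ : ℝ, 0 < δ ∧ ∀ i, δ ≤ P.u i := by
    obtain ⟨i, -, hi⟩ := Finset.exists_min_image Finset.univ P.u ⟨a, Finset.mem_univ _⟩
    exact ⟨P.u i, P.u_pos i, fun j => hi j (Finset.mem_univ _)⟩
  have hc : 0 < L⁻¹ * P.ht z := mul_pos (inv_pos.2 hL) hz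
  obtain ⟨n₃, hn₃⟩ : ∃ n₃ : ℕ, ∀ n ≥ n₃, 1 / δ + 1 ≤ P.lam ^ n * (L⁻¹ * P.ht z) := by
    have h2 : Filter.Tendsto (fun n : ℕ => P.lam ^ n * (L⁻¹ * P.ht z)) Filter.atTop
        Filter.atTop := (tendsto_pow_atTop_atTop_of_one_lt P.lam_gt).atTop_mul_const hc
    exact Filter.eventually_atTop.1 (h2.eventually (Filter.eventually_ge_atTop (1 / δ + 1)))
  refine ⟨n₁ + n₂ + n₃, fun i => ?_⟩
  have h1 := hn₁ (n₁ + n₂ + n₃) (by omega)
  have h2 := (GGeom_pr P z (n₁ + n₂ + n₃) i).trans (hn₂ (n₁ + n₂ + n₃) (by omega))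
  have h3 := hn₃ (n₁ + n₂ + n₃) (by omega)
  obtain ⟨S, hS⟩ : ∃ S, S = ∑ j, (((M ^ (n₁ + n₂ + n₃)).mulVec z j : ℤ) : ℝ) := ⟨_, rfl⟩
  rw [← hS] at h1 h2
  have h4 := (abs_le.1 h1).1
  have h5 := (abs_le.1 h2).1
  have h6 : 1 / δ ≤ S := by
    have : L⁻¹ * P.lam ^ (n₁ + n₂ + n₃) * P.ht z = P.lam ^ (n₁ + n₂ + n₃) * (L⁻¹ * P.ht z) := by
      ring
    rw [this] at h4
    linarith
  have h7 : 1 ≤ S * P.u i := by
    have h8 : (1 / δ) * δ ≤ S * P.u i := by
      refine mul_le_mul h6 (hδu i) hδ.le ?_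
      exact le_trans (by positivity) h6
    rwa [one_div, inv_mul_cancel₀ hδ.ne'] at h8
  have h8 : (0 : ℝ) ≤ (((M ^ (n₁ + n₂ + n₃)).mulVec z i : ℤ) : ℝ) := by linarith
  exact_mod_cast h8

/-- greedy expansions of vectors of nonnegative height are finite -/
theorem Ctx.fi {M : Matrix (Fin (m+1)) (Fin (m+1)) ℤ} (hM : C.M = M) (Q : PD M)
    (hQ : ∀ i, Q.ell i = Q.ell 0 * C.e i) {z : Fin (m+1) → ℤ}
    (hz : 0 ≤ hh C.e z) : C.Fi z := by
  subst hM
  by_cases h0 : z = 0
  · rw [h0]; exact Ctx.Fi.zero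
  · have h1 : Q.ht z = Q.ell 0 * hh C.e z := by
      simp only [PD.ht, hh, Finset.mul_sum]
      refine Finset.sum_congr rfl fun i _ => ?_
      rw [hQ i]; ring
    have h2 : 0 < Q.ht z := by
      rcases hz.lt_or_eq with h | h
      · rw [h1]; exact mul_pos (Q.ell_pos 0) h
      · exfalso
        apply h0
        apply Q.ell_ind z
        change Q.ht z = 0
        rw [h1, ← h, mul_zero]
    obtain ⟨n, hn⟩ := eventually_nonneg Q 0 h2
    obtain ⟨k, w, h3⟩ := C.RpE_pow n (C.RpE_vec hn)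
    exact C.fi_of_rp w k z h3

/-! ### good expansions -/

/-- good expansions of length `n` -/
def Ctx.Gx : ℕ → (Fin (m+1) → ℤ) → Prop
  | 0, r => r = 0
  | n + 1, r => C.β * |hh C.e r| ≤ C.A 0 - 1 ∧ ∃ k : ℤ, Ctx.Gx n (C.M.mulVec r - k • ev 0)

theorem Ctx.A0_ge : (3 : ℝ) ≤ C.A 0 := by
  have h1 := C.gap
  have h3 : 3 ≤ C.A 0 := by omega
  exact_mod_cast h3

theorem Ctx.β_le : C.β ≤ C.A 0 + C.El 1 := by
  have h := C.El_rec 0
  rw [C.El_zero] at h
  linarith

/-- the bound for tokens -/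
theorem Ctx.tok_bound {i i' : ℕ} (hi : 1 ≤ i) (_ : i < i') (hA : C.A (i' - 1) ≤ 1) :
    C.β * (C.El i + C.El i') ≤ C.A 0 - 1 := by
  have hβ := C.β_gt
  have h1 := C.El_rec i
  have h2 := C.El_rec i'
  have h3 : C.El (i + 1) ≤ C.El 2 := C.El_anti' (by omega)
  have h4 := C.El_rec 2
  have h5 := C.El_rec (i' + 1)
  have h6 := C.El_le_one 3
  have h7 := C.El_le_one (i' + 1 + 1)
  have h8 : C.A 2 ≤ C.A 1 := C.anti 1
  have h9 : C.A (i' + 1) ≤ 1 := (C.A_anti' (by omega)).trans hA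
  have h10 : C.A i' ≤ 1 := (C.A_anti' (by omega)).trans hA
  have h11 : C.A i ≤ C.A 1 := C.A_anti' hi
  have h12 := C.gap
  have h13 := C.β_ge
  have h8' : (C.A 2 : ℝ) ≤ C.A 1 := by exact_mod_cast h8
  have h9' : (C.A (i' + 1) : ℝ) ≤ 1 := by exact_mod_cast h9
  have h10' : (C.A i' : ℝ) ≤ 1 := by exact_mod_cast h10
  have h11' : (C.A i : ℝ) ≤ C.A 1 := by exact_mod_cast h11
  have h12' : (C.A 1 : ℝ) + 3 ≤ C.A 0 := by exact_mod_cast h12
  have h14 : C.β * (C.El 2 + C.El (i' + 1)) ≤ C.β * 1 := by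
    rw [mul_add, h4, h5, mul_one]
    linarith
  have h15 : C.El 2 + C.El (i' + 1) ≤ 1 := le_of_mul_le_mul_left h14 (by linarith)
  rw [mul_add, h1, h2]
  linarith

/-- the token alone -/
theorem Ctx.token_zero (s : ℕ) : ∀ i i' : ℕ, m + 1 ≤ i + s → 1 ≤ i → i < i' →
    C.A (i' - 1) ≤ 1 → C.Gx s (-(En m i + En m i')) := by
  induction s with
  | zero =>
    intro i i' h1 h2 h3 h4
    change -(En m i + En m i') = 0
    rw [En_big (by omega), En_big (by omega), add_zero, neg_zero]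
  | succ s ih =>
    intro i i' h1 h2 h3 h4
    have h5 := ih (i + 1) (i' + 1) (by omega) (by omega) (by omega) (by
      have : i' + 1 - 1 = i' := by omega
      rw [this]
      exact (C.A_anti' (by omega)).trans h4)
    refine ⟨?_, -((C.A i : ℤ) + C.A i'), ?_⟩
    · have h6 := C.tok_bound h2 h3 h4
      rw [hh_neg, abs_neg, hh_add, abs_of_nonneg]
      · exact h6
      · exact add_nonneg (C.El_nonneg i) (C.El_nonneg i')
    · have h6 : C.M.mulVec (-(En m i + En m i')) - (-((C.A i : ℤ) + C.A i')) •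
          (ev 0 : Fin (m+1) → ℤ) = -(En m (i+1) + En m (i'+1)) := by
        rw [Matrix.mulVec_neg, Matrix.mulVec_add, C.mulE, C.mulE, neg_smul, add_smul]
        abel
      rw [h6]
      exact h5

theorem Ctx.token {g : Fin (m+1) → ℤ} (hg : C.Fi g) : 0 ≤ hh C.e g → hh C.e g < 1 →
    ∀ i i' : ℕ, 1 ≤ i → i < i' → C.A (i' - 1) ≤ 1 →
    (C.β * (hh C.e g - (C.El i + C.El i')) ≤ C.A 0 - 1 →
      ∃ n, C.Gx n (g - (En m i + En m i'))) ∧
    (C.β * (C.El i + C.El i') < 1 + C.El 1 →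
      -(C.A 0 - 1 : ℝ) ≤ C.β * (hh C.e g - (C.El i + C.El i') - 1) →
      ∃ n, C.Gx n (g - (En m i + En m i') - ev 0)) := by
  have hβ := C.β_gt
  have hA0 := C.A0_ge
  have hβge := C.β_ge
  have hβle := C.β_le
  have hE1 := C.El_le_one 1
  induction hg with
  | zero =>
    intro _ _ i i' h1 h2 h3
    have hi := C.El_nonneg i
    have hi' := C.El_nonneg i'
    refine ⟨fun _ => ⟨m + 1, ?_⟩, fun h4 h5 => ?_⟩
    · rw [zero_sub]
      exact C.token_zero (m+1) i i' (by omega) h1 h2 h3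
    · exfalso
      rw [hh_zero] at h5
      have : C.β * (0 - (C.El i + C.El i') - 1) ≤ -C.β := by
        have h6 : 0 ≤ C.β * (C.El i + C.El i') := mul_nonneg (by linarith) (by linarith)
        linarith
      linarith
  | step g _ ih =>
    intro hg0 hg1 i i' h1 h2 h3
    obtain ⟨hG0, hG1⟩ := C.hGr g
    have ih := ih hG0 hG1
    have hi := C.El_nonneg i
    have hi' := C.El_nonneg i'
    -- the next token
    have hnext : ∀ j j' : ℕ, 1 ≤ j → j < j' → C.A (j' - 1) ≤ 1 → ∃ κ : ℤ, ∃ n,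
        C.Gx n (C.Gr g - (En m j + En m j') - κ • ev 0) := by
      intro j j' hj hjj hA
      obtain ⟨ih1, ih2⟩ := ih j j' hj hjj hA
      have hj0 := C.El_nonneg j
      have hj0' := C.El_nonneg j'
      rcases le_or_gt (C.β * (hh C.e (C.Gr g) - (C.El j + C.El j'))) (C.A 0 - 1) with h4 | h4
      · obtain ⟨n, hn⟩ := ih1 h4
        exact ⟨0, n, by simpa using hn⟩
      · have h5 : C.β * hh C.e (C.Gr g) < C.β * 1 := mul_lt_mul_of_pos_left hG1 (by linarith)
        obtain ⟨n, hn⟩ := ih2 (by linarith) (by linarith)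
        exact ⟨1, n, by simpa using hn⟩
    obtain ⟨d, hd⟩ : ∃ d, d = ⌊C.β * hh C.e g⌋ := ⟨_, rfl⟩
    have hGr : C.M.mulVec g = C.Gr g + d • ev 0 := by
      unfold Ctx.Gr
      rw [← hd]
      abel
    refine ⟨fun h4 => ?_, fun h4 h5 => ?_⟩
    · obtain ⟨κ, n, hn⟩ := hnext (i + 1) (i' + 1) (by omega) (by omega) (by
        have : i' + 1 - 1 = i' := by omega
        rw [this]
        exact (C.A_anti' (by omega)).trans h3)
      refine ⟨n + 1, ?_, d - C.A i - C.A i' + κ, ?_⟩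
      · rw [hh_sub, hh_add]
        change C.β * |hh C.e g - (C.El i + C.El i')| ≤ _
        rw [← abs_of_pos (show 0 < C.β by linarith), ← abs_mul, abs_le]
        have h6 := C.tok_bound h1 h2 h3
        have h7 : 0 ≤ C.β * hh C.e g := mul_nonneg (by linarith) hg0
        exact ⟨by linarith, h4⟩
      · have h6 : C.M.mulVec (g - (En m i + En m i')) - (d - C.A i - C.A i' + κ) •
            (ev 0 : Fin (m+1) → ℤ) = C.Gr g - (En m (i+1) + En m (i'+1)) - κ • ev 0 := by
          rw [Matrix.mulVec_sub, Matrix.mulVec_add, C.mulE, C.mulE, hGr, add_smul, sub_smul,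
            sub_smul]
          abel
        rw [h6]
        exact hn
    · -- the other case
      have h6 := C.El_rec i
      have h7 := C.El_rec i'
      have h8 := C.El_nonneg (i + 1)
      have h9 := C.El_nonneg (i' + 1)
      have h10 : (C.A i : ℝ) + C.A i' < 2 := by
        rw [mul_add, h6, h7] at h4
        linarith
      have h11 : C.A i + C.A i' < 2 := by exact_mod_cast h10
      have h12 : C.A i' ≤ C.A i := C.A_anti' h2.le
      have h13 : C.A i' = 0 := by omega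
      have h14 : m < i' := by
        by_contra hcon
        push Not at hcon
        have := C.A_pos i' hcon
        omega
      obtain ⟨κ, n, hn⟩ := hnext 1 (i + 1) le_rfl (by omega) (by
        have : i + 1 - 1 = i := by omega
        rw [this]
        omega)
      refine ⟨n + 1, ?_, d - C.A i - C.A 0 + κ, ?_⟩
      · rw [hh_sub, hh_sub, hh_add, C.hh_ev_zero]
        change C.β * |hh C.e g - (C.El i + C.El i') - 1| ≤ _
        rw [← abs_of_pos (show 0 < C.β by linarith), ← abs_mul, abs_le]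
        refine ⟨h5, ?_⟩
        have h15 : C.β * (hh C.e g - (C.El i + C.El i') - 1) ≤ 0 :=
          mul_nonpos_of_nonneg_of_nonpos (by linarith) (by linarith)
        linarith
      · have h16 : En m i' = 0 := En_big h14
        have h15 : C.M.mulVec (g - (En m i + En m i') - ev 0) - (d - C.A i - C.A 0 + κ) •
            (ev 0 : Fin (m+1) → ℤ) = C.Gr g - (En m 1 + En m (i+1)) - κ • ev 0 := by
          have h17 : C.M.mulVec (ev 0) = (C.A 0 : ℤ) • ev 0 + En m 1 := by
            have := C.mulE 0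
            rwa [En_zero] at this
          rw [h16, add_zero, Matrix.mulVec_sub, Matrix.mulVec_sub, C.mulE, h17, hGr, add_smul,
            sub_smul, sub_smul]
          abel
        rw [h15]
        exact hn

/-- short vectors have good expansions -/
theorem Ctx.gx (hfi : ∀ z, 0 ≤ hh C.e z → C.Fi z) {r : Fin (m+1) → ℤ}
    (hr : C.β * |hh C.e r| ≤ C.A 0 - 1) : ∃ n, C.Gx n r := by
  have hβ := C.β_gt
  have hA0 := C.A0_ge
  have hβge := C.β_ge
  have h1 : |hh C.e r| < 1 := by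
    have : C.β * |hh C.e r| < C.β * 1 := by linarith
    exact lt_of_mul_lt_mul_left this (by linarith)
  have hbig1 : En m (m + 1) = 0 := En_big (by omega)
  have hbig2 : En m (m + 2) = 0 := En_big (by omega)
  have hE1 : C.El (m + 1) = 0 := C.El_big (by omega)
  have hE2 : C.El (m + 2) = 0 := C.El_big (by omega)
  have hA : C.A (m + 2 - 1) ≤ 1 := by
    have : m + 2 - 1 = m + 1 := by omega
    rw [this, C.A_zero (m+1) (by omega)]
    exact Nat.zero_le _
  rcases le_or_gt 0 (hh C.e r) with h | h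
  · have h2 := (C.token (hfi r h) h (by rwa [abs_of_nonneg h] at h1) (m+1) (m+2) (by omega)
      (by omega) hA).1
    rw [hbig1, hbig2, hE1, hE2, add_zero, sub_zero, add_zero, sub_zero] at h2
    exact h2 (by rwa [abs_of_nonneg h] at hr)
  · rw [abs_of_neg h] at h1 hr
    have hg : hh C.e (r + ev 0) = hh C.e r + 1 := by rw [hh_add, C.hh_ev_zero]
    have h2 := (C.token (hfi (r + ev 0) (by rw [hg]; linarith)) (by rw [hg]; linarith)
      (by rw [hg]; linarith) (m+1) (m+2) (by omega) (by omega) hA).2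
    rw [hbig1, hbig2, hE1, hE2, add_zero, sub_zero, mul_zero, add_zero, sub_zero, hg,
      add_sub_cancel_right] at h2
    have h3 : r + ev 0 - ev 0 = r := by abel
    rw [h3] at h2
    exact h2 (by linarith [C.El_nonneg 1]) (by linarith)

end Pool.Agent.Helper65K9.PSC
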